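import Pool.Agent.H35.TC.Defs
import Pool.Agent.H50.TM.CP
import Pool.Agent.H50.TM.MeanV

/-!
# Module Bar: a lower barrier for the potential

`ψ(x) = μ min(1, t/‖x - R i‖)`, `u = φ - ψ` on `O = {x | ∀ j, x ≠ R j}` (open). `max_principle` (CP): `u ≥ 0` on `O`.
* `u` is continuous on `O` (`continuousAt_V`, `continuous_G`).
* `{x ∈ O | u x ≤ -ε}` is compact: bounded because `φ → 0` (`V ≥ 0`, `|G ρ| ≤ C/‖x‖` far away: `IsTF.supp`, `G_decay`) and `ψ → 0`; closed in the whole space because near a nucleus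
  `φ ≥ z_j/‖x - R j‖ - C → ∞` (`G_bdd`), `ψ ≤ μ`.
* if `u x < 0`: then `t < ‖x - R i‖` (by `hb`, `φ ≥ μ ≥ ψ` for `‖x - R i‖ ≤ t`) and `φ x < μ`, so on a small ball round `x`: no nucleus, `‖· - R i‖ > t`, `φ < μ`, hence `ρ = 0`
  (`IsTF.eq`, `jj_of_le`). There `V`, `Gρ` and `μ t/‖· - R i‖` have the mean value property on balls centred at `x` (MeanV, the ball average `kap`; for `Gρ`: Fubini, all the charge is
  outside the ball), so the average of `u` is `u x`.
-/

set_option autoImplicit false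

open MeasureTheory Set Filter Topology
open scoped ENNReal NNReal

namespace Pool.Agent.H35.TC

open Pool.Agent.H23.TF Pool.Agent.H50.TM

variable {γ μ : ℝ} {k : ℕ} {R : Fin k → E3} {z : Fin k → ℝ} {ρ : E3 → ℝ}

private noncomputable def psi (R : Fin k → E3) (μ : ℝ) (i : Fin k) (t : ℝ) (x : E3) : ℝ :=
  μ * min 1 (t / ‖x - R i‖)

private noncomputable def uu (R : Fin k → E3) (z : Fin k → ℝ) (ρ : E3 → ℝ) (μ : ℝ) (i : Fin k) (t : ℝ)
    (x : E3) : ℝ := phi R z ρ x - psi R μ i t x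

private lemma psi_le (hμ : 0 < μ) (i : Fin k) (t : ℝ) (x : E3) : psi R μ i t x ≤ μ := by
  unfold psi
  have := min_le_left (1 : ℝ) (t / ‖x - R i‖)
  nlinarith

private lemma psi_le' (hμ : 0 < μ) (i : Fin k) (t : ℝ) (x : E3) : psi R μ i t x ≤ μ * (t / ‖x - R i‖) := by
  unfold psi
  exact mul_le_mul_of_nonneg_left (min_le_right _ _) hμ.le

private lemma psi_eq (i : Fin k) {t : ℝ} (ht : 0 < t) {x : E3} (hx : t < ‖x - R i‖) :
    psi R μ i t x = μ * t * (1 / ‖x - R i‖) := by
  unfold psi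
  have h0 : 0 < ‖x - R i‖ := ht.trans hx
  rw [min_eq_right (by rw [div_le_one h0]; exact hx.le)]
  ring

private lemma phi_contAt (h : IsTF γ μ R z ρ) {x : E3} (hx : ∀ j, x ≠ R j) : ContinuousAt (phi R z ρ) x := by
  have h1 : ContinuousAt (V R z) x := continuousAt_V (fun i _ => hx i)
  have h2 : ContinuousAt (G ρ) x := (continuous_G h.ld).continuousAt
  exact h1.sub h2

private lemma psi_contAt (i : Fin k) (t : ℝ) {x : E3} (hx : x ≠ R i) : ContinuousAt (psi R μ i t) x := by
  have h0 : ‖x - R i‖ ≠ 0 := norm_ne_zero_iff.2 (sub_ne_zero.2 hx)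
  have h1 : ContinuousAt (fun y : E3 => ‖y - R i‖) x := by fun_prop
  have h2 : ContinuousAt (fun y : E3 => t / ‖y - R i‖) x := continuousAt_const.div h1 h0
  exact continuousAt_const.mul (continuousAt_const.min h2)

private lemma isOpen_OO (R : Fin k → E3) : IsOpen {x : E3 | ∀ j, x ≠ R j} := by
  have h2 : IsOpen (⋂ i, {x : E3 | x ≠ R i}) := isOpen_iInter_of_finite fun i => isOpen_ne
  have : {x : E3 | ∀ i, x ≠ R i} = ⋂ i, {x : E3 | x ≠ R i} := by
    ext x
    simp
  rw [this]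
  exact h2

private lemma pole (hz : ∀ i, 0 < z i) (h : IsTF γ μ R z ρ) (j : Fin k) (M : ℝ) :
    ∃ r : ℝ, 0 < r ∧ ∀ x : E3, x ≠ R j → ‖x - R j‖ < r → M < phi R z ρ x := by
  obtain ⟨C, hC⟩ := h.ld.G_bdd
  have hC0 : 0 ≤ C := (abs_nonneg _).trans (hC 0)
  have hK0 : 0 < |M| + C + 1 := by positivity
  refine ⟨z j / (|M| + C + 1), div_pos (hz j) hK0, fun x hx hxr => ?_⟩
  have hn : 0 < ‖x - R j‖ := norm_pos_iff.2 (sub_ne_zero.2 hx)
  have h1 : z j / ‖x - R j‖ ≤ V R z x := by
    unfold V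
    exact Finset.single_le_sum (f := fun j => z j / ‖x - R j‖)
      (fun j _ => div_nonneg (hz j).le (norm_nonneg _)) (Finset.mem_univ j)
  have h2 : |M| + C + 1 < z j / ‖x - R j‖ := by
    rw [lt_div_iff₀ hn]
    rw [lt_div_iff₀ hK0] at hxr
    linarith
  have h3 := (abs_le.1 (hC x)).2
  have h4 := le_abs_self M
  unfold phi
  linarith

private lemma cpt (hγ : 0 < γ) (hμ : 0 < μ) (hz : ∀ i, 0 < z i) (h : IsTF γ μ R z ρ) (i : Fin k) {t : ℝ}
    (ht : 0 < t) {ε : ℝ} (hε : 0 < ε) :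
    IsCompact {x | x ∈ {x : E3 | ∀ j, x ≠ R j} ∧ uu R z ρ μ i t x ≤ -ε} := by
  refine Metric.isCompact_of_isClosed_isBounded ?_ ?_
  · refine isClosed_of_closure_subset fun x hx => ?_
    obtain ⟨u, hu, hlim⟩ := mem_closure_iff_seq_limit.1 hx
    by_cases hc : ∃ j, x = R j
    · exfalso
      obtain ⟨j, hxj⟩ := hc
      obtain ⟨δ, hδ, hp⟩ := pole hz h j μ
      rw [hxj] at hlim
      have hev : ∀ᶠ n in atTop, dist (u n) (R j) < δ := Metric.tendsto_nhds.1 hlim δ hδ
      obtain ⟨n, hn⟩ := hev.exists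
      rw [dist_eq_norm] at hn
      have h1 := hp (u n) ((hu n).1 j) hn
      have h2 := (hu n).2
      have h3 := psi_le (R := R) hμ i t (u n)
      unfold uu at h2
      linarith
    · push Not at hc
      have hca : ContinuousAt (uu R z ρ μ i t) x := (phi_contAt h hc).sub (psi_contAt i t (hc i))
      have hle : uu R z ρ μ i t x ≤ -ε := le_of_tendsto' (hca.tendsto.comp hlim) fun n => (hu n).2
      exact ⟨hc, hle⟩
  · obtain ⟨r2, hr2, h2⟩ := h.supp hγ hμ fun i => (hz i).le
    set I : ℝ := ∫ y, |ρ y| with hI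
    have hI0 : 0 ≤ I := integral_nonneg (fun y => abs_nonneg _)
    set r3 : ℝ := 2 * r2 + 8 * I / ε + ‖R i‖ + 4 * μ * t / ε + 1 with hr3
    have hp1 : 0 ≤ 8 * I / ε := by positivity
    have hp2 : 0 ≤ 4 * μ * t / ε := by positivity
    have hp3 : 0 ≤ ‖R i‖ := norm_nonneg _
    refine (Metric.isBounded_ball (x := (0 : E3)) (r := r3)).subset fun x hx => ?_
    rw [mem_ball_zero_iff]
    by_contra hcon
    have hxn : r3 ≤ ‖x‖ := not_lt.1 hcon
    have hx0 : 0 < ‖x‖ := by linarith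
    have hxu := hx.2
    have hG : |G ρ x| ≤ 2 * I / ‖x‖ := G_decay h.ld h2 (norm_pos_iff.1 hx0) (by linarith)
    have hG1 : 2 * I / ‖x‖ ≤ ε / 4 := by
      rw [div_le_iff₀ hx0]
      have h3 : 8 * I / ε ≤ ‖x‖ := by linarith
      rw [div_le_iff₀ hε] at h3
      linarith
    have hG2 := (abs_le.1 hG).2
    have hV : 0 ≤ V R z x := Finset.sum_nonneg (fun j _ => div_nonneg (hz j).le (norm_nonneg _))
    have hd : 4 * μ * t / ε + 1 ≤ ‖x - R i‖ := by
      have h4 := norm_sub_norm_le x (R i)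
      linarith
    have hd0 : 0 < ‖x - R i‖ := by linarith
    have hpsi := psi_le' (R := R) hμ i t x
    have hpsi2 : μ * (t / ‖x - R i‖) ≤ ε / 4 := by
      rw [← mul_div_assoc, div_le_iff₀ hd0]
      have h3 : 4 * μ * t / ε ≤ ‖x - R i‖ := by linarith
      rw [div_le_iff₀ hε] at h3
      linarith
    unfold uu phi at hxu
    linarith

theorem bar (hγ : 0 < γ) (hμ : 0 < μ) (hz : ∀ i, 0 < z i) (h : IsTF γ μ R z ρ) (i : Fin k) {t : ℝ} (ht : 0 < t)
    (hb : ∀ x, ‖x - R i‖ ≤ t → (∀ j, x ≠ R j) → μ ≤ phi R z ρ x) {x : E3} (hx : t < ‖x - R i‖) (hxR : ∀ j, x ≠ R j) :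
    μ * t / ‖x - R i‖ ≤ phi R z ρ x := by
  have hO := isOpen_OO R
  have hcont : ContinuousOn (uu R z ρ μ i t) {x : E3 | ∀ j, x ≠ R j} := fun y hy =>
    ((phi_contAt h hy).sub (psi_contAt i t (hy i))).continuousWithinAt
  have key : ∀ x ∈ {x : E3 | ∀ j, x ≠ R j}, 0 ≤ uu R z ρ μ i t x := by
    refine max_principle hO hcont (fun ε hε => cpt hγ hμ hz h i ht hε) ?_
    intro x hxO hneg
    have hxO' : ∀ j, x ≠ R j := hxO
    have hxt : t < ‖x - R i‖ := by
      by_contra hc
      push Not at hc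
      have h1 := hb x hc hxO'
      have h2 := psi_le (R := R) hμ i t x
      unfold uu at hneg
      linarith
    have hphix : phi R z ρ x < μ := by
      have h2 := psi_le (R := R) hμ i t x
      unfold uu at hneg
      linarith
    have e1 : ∀ᶠ y in 𝓝 x, y ∈ {x : E3 | ∀ j, x ≠ R j} := hO.mem_nhds hxO
    have e2 : ∀ᶠ y in 𝓝 x, phi R z ρ y < μ := (phi_contAt h hxO').eventually (gt_mem_nhds hphix)
    have e3 : ∀ᶠ y in 𝓝 x, t < ‖y - R i‖ := by
      have hc : ContinuousAt (fun y : E3 => ‖y - R i‖) x := by fun_prop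
      exact hc.eventually (lt_mem_nhds hxt)
    obtain ⟨δ, hδ, hball⟩ := Metric.eventually_nhds_iff_ball.1 (e1.and (e2.and e3))
    refine ⟨δ, hδ, fun y hy => (hball y hy).1, fun r hr hrδ => ?_⟩
    have hsub : Metric.ball x r ⊆ Metric.ball x δ := Metric.ball_subset_ball hrδ.le
    have hRr : ∀ j, r ≤ ‖x - R j‖ := by
      intro j
      by_contra hcon
      rw [not_le] at hcon
      have hm : R j ∈ Metric.ball x δ := by
        rw [Metric.mem_ball, dist_comm, dist_eq_norm]
        linarith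
      exact (hball _ hm).1 j rfl
    have iV := V_int_ball R z x r
    have iG := G_int_ball h.ld x r
    have iN : IntegrableOn (fun y => μ * t * (1 / ‖y - R i‖)) (Metric.ball x r) := (ball_int x (R i) r).const_mul _
    have iU : IntegrableOn (fun y => V R z y - G ρ y - μ * t * (1 / ‖y - R i‖)) (Metric.ball x r) :=
      (iV.sub iG).sub iN
    have hcongr : EqOn (fun y => V R z y - G ρ y - μ * t * (1 / ‖y - R i‖)) (uu R z ρ μ i t) (Metric.ball x r) := by
      intro y hy
      have h1 := (hball y (hsub hy)).2.2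
      simp only
      unfold uu phi
      rw [psi_eq i ht h1]
    refine ⟨iU.congr_fun hcongr measurableSet_ball, le_of_eq ?_⟩
    have a1 : ∫ y in Metric.ball x r, uu R z ρ μ i t y =
        (∫ y in Metric.ball x r, V R z y) - (∫ y in Metric.ball x r, G ρ y) -
          μ * t * ∫ y in Metric.ball x r, 1 / ‖y - R i‖ := by
      rw [← setIntegral_congr_fun measurableSet_ball hcongr]
      have b1 := integral_sub (iV.sub iG) iN
      have b2 := integral_sub iV iG
      rw [integral_const_mul] at b1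
      simp only [Pi.sub_apply] at b1
      rw [b1, b2]
    have a2 : (⨍ y in Metric.ball x r, uu R z ρ μ i t y) =
        (⨍ y in Metric.ball x r, V R z y) - (⨍ y in Metric.ball x r, G ρ y) -
          μ * t * ⨍ y in Metric.ball x r, 1 / ‖y - R i‖ := by
      simp only [setAverage_eq, smul_eq_mul]
      rw [a1]
      ring
    have a3 := V_mv R z hr (x := x) (fun j _ => hRr j)
    have a4 := G_mv h.ld x hr
    have a5 := ball_avg x (R i) hr
    rw [kap_eq (hRr i)] at a5
    have a6 : ∫ y, (1 / ‖x - y‖ - kap r ‖x - y‖) * ρ y = 0 := by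
      rw [← integral_zero E3 ℝ]
      congr 1
      funext y
      rcases le_or_gt r ‖x - y‖ with hle | hlt
      · rw [kap_eq hle, sub_self, zero_mul]
      · have hy : y ∈ Metric.ball x δ := by
          rw [Metric.mem_ball, dist_comm, dist_eq_norm]
          linarith
        have h1 := (hball y hy).2.1
        have h2 : ρ y = 0 := by
          rw [h.eq y]
          exact jj_of_le h1.le
        rw [h2, mul_zero]
    rw [a6, add_zero] at a4
    rw [a2, a5, ← a3, ← a4]
    unfold uu phi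
    rw [psi_eq i ht hxt]
  have h1 := key x hxR
  unfold uu at h1
  rw [psi_eq i ht hx] at h1
  have h2 : μ * t / ‖x - R i‖ = μ * t * (1 / ‖x - R i‖) := by ring
  rw [h2]
  linarith

end Pool.Agent.H35.TC
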