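import Mathlib

/-!
# Module Visc: local criterion for convexity

If `f` is not convex there are `x < y` in `(a, ∞)` and `t` with `f ((1-t) x + t y) > (1-t) f x + t f y`. Let `L` be the affine function with `L x = f x`, `L y = f y`,
`g = f - L`, continuous on `[x, y]`, `g x = g y = 0`, and `g > 0` somewhere. `g` has a maximum on the compact `[x, y]` at some `u` (`IsCompact.exists_isMaxOn`), `g u > 0`, so
`x < u < y`. By the hypothesis at `u`: for small `t > 0`: `2 g u + c t² ≤ g (u+t) + g (u-t) ≤ 2 g u` (`L` is affine): contradiction.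
-/

set_option autoImplicit false

open Set

namespace Pool.Agent.H35.TC

private theorem visc_key {f : ℝ → ℝ} {a : ℝ} (hc : ContinuousOn f (Ioi a))
    (h : ∀ x, a < x → ∃ c δ : ℝ, 0 < c ∧ 0 < δ ∧ ∀ t, 0 < t → t < δ → 2 * f x + c * t ^ 2 ≤ f (x + t) + f (x - t))
    {x y : ℝ} (hx : a < x) (hxy : x < y) (z : ℝ) (hz : z ∈ Icc x y) :
    f z ≤ f x + (f y - f x) / (y - x) * (z - x) := by
  by_contra hcon
  push Not at hcon
  set m := (f y - f x) / (y - x) with hm
  have hyx : y - x ≠ 0 := by linarith
  have hmy : m * (y - x) = f y - f x := by rw [hm]; field_simp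
  have hcg : ContinuousOn (fun u => f u - (f x + m * (u - x))) (Icc x y) := by
    refine (hc.mono fun u hu => ?_).sub (by fun_prop)
    exact lt_of_lt_of_le hx hu.1
  obtain ⟨u, hu, hmax⟩ := isCompact_Icc.exists_isMaxOn ⟨z, hz⟩ hcg
  have hmax' : ∀ w ∈ Icc x y, f w - (f x + m * (w - x)) ≤ f u - (f x + m * (u - x)) :=
    fun w hw => hmax hw
  have hpos : 0 < f u - (f x + m * (u - x)) := by
    have := hmax' z hz
    linarith
  have hux : x < u := by
    rcases lt_or_eq_of_le hu.1 with h1 | h1
    · exact h1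
    · exfalso
      rw [← h1] at hpos
      have e : m * (x - x) = 0 := by ring
      linarith
  have huy : u < y := by
    rcases lt_or_eq_of_le hu.2 with h1 | h1
    · exact h1
    · exfalso
      rw [h1] at hpos
      linarith
  obtain ⟨c, δ, hc0, hδ, hh⟩ := h u (hx.trans hux)
  set t := min (δ / 2) (min (u - x) (y - u)) with ht
  have ht0 : 0 < t := lt_min (by linarith) (lt_min (by linarith) (by linarith))
  have ht1 : t < δ := lt_of_le_of_lt (min_le_left _ _) (by linarith)
  have ht2 : t ≤ u - x := (min_le_right _ _).trans (min_le_left _ _)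
  have ht3 : t ≤ y - u := (min_le_right _ _).trans (min_le_right _ _)
  have h1 := hh t ht0 ht1
  have h2 := hmax' (u + t) ⟨by linarith, by linarith⟩
  have h3 := hmax' (u - t) ⟨by linarith, by linarith⟩
  have h4 : 0 < c * t ^ 2 := by positivity
  have e1 : m * (u + t - x) + m * (u - t - x) = 2 * (m * (u - x)) := by ring
  linarith

theorem visc {f : ℝ → ℝ} {a : ℝ} (hc : ContinuousOn f (Ioi a))
    (h : ∀ x, a < x → ∃ c δ : ℝ, 0 < c ∧ 0 < δ ∧ ∀ t, 0 < t → t < δ → 2 * f x + c * t ^ 2 ≤ f (x + t) + f (x - t)) :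
    ConvexOn ℝ (Ioi a) f := by
  have key : ∀ x y : ℝ, a < x → x < y → ∀ p q : ℝ, 0 ≤ p → 0 ≤ q → p + q = 1 →
      f (p * x + q * y) ≤ p * f x + q * f y := by
    intro x y hx hxy p q hp hq hpq
    have hp' : p = 1 - q := by linarith
    have hq1 : q ≤ 1 := by linarith
    have hz : p * x + q * y ∈ Icc x y := by
      rw [hp']
      constructor
      · nlinarith [mul_nonneg hq (sub_nonneg.2 hxy.le)]
      · nlinarith [mul_nonneg (sub_nonneg.2 hq1) (sub_nonneg.2 hxy.le)]
    have h1 := visc_key hc h hx hxy _ hz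
    have hyx : y - x ≠ 0 := by linarith
    have e1 : (f y - f x) / (y - x) * (p * x + q * y - x) = q * (f y - f x) := by
      rw [hp']
      field_simp
      ring
    rw [e1] at h1
    have e2 : p * f x + q * f y = f x + q * (f y - f x) := by rw [hp']; ring
    rw [e2]
    exact h1
  refine ⟨convex_Ioi a, ?_⟩
  intro x hx y hy p q hp hq hpq
  simp only [smul_eq_mul]
  rcases lt_trichotomy x y with hxy | hxy | hxy
  · exact key x y hx hxy p q hp hq hpq
  · subst hxy
    have e1 : p * x + q * x = x := by rw [← add_mul, hpq, one_mul]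
    have e2 : p * f x + q * f x = f x := by rw [← add_mul, hpq, one_mul]
    rw [e1, e2]
  · have h1 := key y x hy hxy q p hq hp (by linarith)
    rw [add_comm (p * x), add_comm (p * f x)]
    exact h1

end Pool.Agent.H35.TC
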