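import Pool.Agent.H35.TC.Defs
import Pool.Agent.H35.TC.Visc

/-!
# Module Conv: from local to global

* `loc_of_locO`: `En R = Om μ R - μ N` (`hE`), and `En ((1±h) R) ≥ Om μ ((1±h) R) - μ N` (`En_ge`).
* `conv_of_loc`: `visc` for `f l = En γ (l • R) z N` on `(a, ∞)`: continuity from `En_cont` at `R' = l • R` (injective for `l > 0`; `‖l' • R i - l • R i‖ = |l' - l| ‖R i‖`, finitely
  many `i`); at `l` the property `Loc` of `l • R` with `h = t/l`: `(1 + t/l) • (l • R i) = (l + t) • R i`; constant `c/l²`, `δ l`.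
-/

set_option autoImplicit false

open MeasureTheory Set Filter Topology

namespace Pool.Agent.H35.TC

open Pool.Agent.H23.TF Pool.Agent.H50.TM

variable {γ μ : ℝ} {k : ℕ} {R : Fin k → E3} {z : Fin k → ℝ}

theorem loc_of_locO (hγ : 0 < γ) (hμ : 0 < μ) (hz : ∀ i, 0 ≤ z i) {N : ℝ} (hN : 0 ≤ N)
    (hE : En γ R z N = Om γ μ R z - μ * N) (h : LocO γ μ R z) : Loc γ R z N := by
  obtain ⟨c, δ, hc, hδ, h1⟩ := h
  refine ⟨c, δ, hc, hδ, fun t ht => ?_⟩
  have h2 := h1 t ht
  have h3 := En_ge hγ hμ (fun i => (1 + t) • R i) hz hN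
  have h4 := En_ge hγ hμ (fun i => (1 - t) • R i) hz hN
  rw [hE]
  linarith

theorem conv_of_loc (hγ : 0 < γ) (hR : Function.Injective R) (hz : ∀ i, 0 ≤ z i) {N : ℝ} (hN : 0 ≤ N) {a : ℝ} (ha : 0 ≤ a)
    (h : ∀ l : ℝ, a < l → Loc γ (fun i => l • R i) z N) :
    ConvexOn ℝ (Ioi a) (fun l : ℝ => En γ (fun i => l • R i) z N) := by
  apply visc
  · rw [Metric.continuousOn_iff]
    intro l0 hl0 ε hε
    have hl0' : 0 < l0 := lt_of_le_of_lt ha hl0
    have hinj : Function.Injective (fun i => l0 • R i) := by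
      intro i j hij
      exact hR (smul_right_injective E3 hl0'.ne' hij)
    obtain ⟨δ, hδ, hcont⟩ := En_cont hγ hinj hz hN (half_pos hε)
    have hB : 0 < 1 + ∑ i, ‖R i‖ := by
      have : 0 ≤ ∑ i, ‖R i‖ := Finset.sum_nonneg fun i _ => norm_nonneg _
      linarith
    refine ⟨δ / (1 + ∑ i, ‖R i‖), div_pos hδ hB, fun l _ hl => ?_⟩
    rw [Real.dist_eq] at hl ⊢
    have h1 : ∀ i, ‖l • R i - l0 • R i‖ < δ := by
      intro i
      rw [← sub_smul, norm_smul, Real.norm_eq_abs]
      have h2 : ‖R i‖ ≤ 1 + ∑ j, ‖R j‖ := by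
        have := Finset.single_le_sum (f := fun j => ‖R j‖) (fun j _ => norm_nonneg _) (Finset.mem_univ i)
        linarith
      calc |l - l0| * ‖R i‖ ≤ |l - l0| * (1 + ∑ j, ‖R j‖) :=
            mul_le_mul_of_nonneg_left h2 (abs_nonneg _)
        _ < δ := by rwa [lt_div_iff₀ hB] at hl
    have h2 := hcont (fun i => l • R i) h1
    exact lt_of_le_of_lt h2 (half_lt_self hε)
  · intro x hx
    have hx0 : 0 < x := lt_of_le_of_lt ha hx
    obtain ⟨c, δ, hc, hδ, h1⟩ := h x hx
    refine ⟨c / x ^ 2, δ * x, by positivity, by positivity, fun t ht htδ => ?_⟩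
    have h2 : |t / x| < δ := by
      rw [abs_div, abs_of_pos ht, abs_of_pos hx0, div_lt_iff₀ hx0]
      exact htδ
    have h3 := h1 (t / x) h2
    have e1 : (fun i => (1 + t / x) • x • R i) = fun i => (x + t) • R i := by
      funext i
      rw [smul_smul]
      congr 1
      field_simp
    have e2 : (fun i => (1 - t / x) • x • R i) = fun i => (x - t) • R i := by
      funext i
      rw [smul_smul]
      congr 1
      field_simp
    rw [e1, e2] at h3
    have e3 : c * (t / x) ^ 2 = c / x ^ 2 * t ^ 2 := by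
      field_simp
    rw [e3] at h3
    exact h3

end Pool.Agent.H35.TC
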