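import Pool.Agent.H50.TM.Geo
import Pool.Agent.H23.TF.N3_Cons

/-!
# Module BI: integrals of powers of `1/‖x - c‖` over balls

`int_ball_pow`: translate to `c = 0` and use polar coordinates (`lintegral_radial` or the lemmas behind `integrableOn_ball` in H23/TF/A1_Rad):
`∫_{B(0,r)} ‖x‖^(-p) = 4π ∫_0^r s^(2-p) ds = 4π r^(3-p)/(3-p)`.
`int_ball_sqrt`: `√(1/‖x-c‖) = (‖x-c‖^(1/2))⁻¹`, `p = 1/2`: `(8π/5) r^(5/2) ≤ 5.03 r² √r`.
`int_ball_shift`: for every `y`: `∫_{B(c,r)} 1/‖x - y‖ ≤ 2π r²` (`ball_le` in H23/TF/N3_Cons).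
-/

set_option autoImplicit false

open MeasureTheory Set Filter Topology
open scoped ENNReal NNReal

namespace Pool.Agent.H35.TC

open Pool.Agent.H23.TF Pool.Agent.H50.TM

/-- translation of an integral over a ball -/
private lemma int_ball_trans (f : E3 → ℝ) (c : E3) (r : ℝ) :
    ∫ x in Metric.ball c r, f (x - c) = ∫ x in Metric.ball (0 : E3) r, f x := by
  have h2 := (measurePreserving_sub_right (volume : Measure E3) c).setIntegral_preimage_emb
    (MeasurableEquiv.subRight c).measurableEmbedding f (Metric.ball (0 : E3) r)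
  have h3 : (fun x => x - c) ⁻¹' Metric.ball (0 : E3) r = Metric.ball c r := by
    ext x; simp [dist_eq_norm]
  rw [h3] at h2
  exact h2

theorem int_ball_pow {p : ℝ} (hp0 : 0 ≤ p) (hp : p < 3) (c : E3) {r : ℝ} (hr : 0 ≤ r) :
    ∫ x in Metric.ball c r, (‖x - c‖ ^ p)⁻¹ = 4 * Real.pi * r ^ (3 - p) / (3 - p) := by
  rw [int_ball_trans (fun x => (‖x‖ ^ p)⁻¹) c r]
  have hdim : Module.finrank ℝ E3 = 3 := by simp
  have hvol : (volume : Measure E3).real (Metric.ball 0 1) = 4 / 3 * Real.pi := by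
    rw [Measure.real, volume_ball_real (0 : E3) zero_le_one,
      ENNReal.toReal_ofReal (by positivity)]
    ring
  have e1 : ∫ x in Metric.ball (0 : E3) r, (‖x‖ ^ p)⁻¹ =
      ∫ x : E3, (Iio r).indicator (fun s : ℝ => (s ^ p)⁻¹) ‖x‖ := by
    rw [← integral_indicator Metric.isOpen_ball.measurableSet]
    apply integral_congr_ae
    refine Eventually.of_forall fun x => ?_
    by_cases h : ‖x‖ < r
    · simp only
      rw [indicator_of_mem (by simpa using h), indicator_of_mem (by exact h)]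
    · simp only
      rw [indicator_of_notMem (by simpa using h), indicator_of_notMem (by exact h)]
  rw [e1, integral_fun_norm_addHaar (volume : Measure E3), hdim, hvol]
  have e2 : ∫ y in Ioi (0 : ℝ), y ^ (3 - 1) • (Iio r).indicator (fun s : ℝ => (s ^ p)⁻¹) y =
      ∫ y in Ioc (0 : ℝ) r, y ^ (2 - p) := by
    rw [integral_Ioc_eq_integral_Ioo, ← integral_indicator measurableSet_Ioi,
      ← integral_indicator measurableSet_Ioo]
    apply integral_congr_ae
    refine Eventually.of_forall fun y => ?_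
    by_cases h0 : 0 < y
    · rw [indicator_of_mem (by exact h0)]
      by_cases h : y < r
      · rw [indicator_of_mem (by exact h), indicator_of_mem (show y ∈ Ioo 0 r from ⟨h0, h⟩)]
        rw [Real.rpow_sub h0, div_eq_mul_inv, smul_eq_mul]
        norm_num
      · rw [indicator_of_notMem (by exact h),
          indicator_of_notMem (show y ∉ Ioo 0 r from fun hh => h hh.2)]
        simp
    · rw [indicator_of_notMem (by exact h0),
        indicator_of_notMem (show y ∉ Ioo 0 r from fun hh => h0 hh.1)]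
  rw [e2, ← intervalIntegral.integral_of_le hr, integral_rpow (Or.inl (by linarith))]
  have h3 : (2 - p + 1) = 3 - p := by ring
  have h4 : (3 - p) ≠ 0 := by linarith
  rw [h3, Real.zero_rpow h4]
  simp only [nsmul_eq_mul, smul_eq_mul]
  push_cast
  field_simp
  ring

private lemma sqrt_eq (t : ℝ) : √(1 / t) = (t ^ (1 / 2 : ℝ))⁻¹ := by
  rw [one_div, Real.sqrt_inv, Real.sqrt_eq_rpow]

theorem int_ball_sqrt (c : E3) {r : ℝ} (hr : 0 ≤ r) :
    IntegrableOn (fun x : E3 => √(1 / ‖x - c‖)) (Metric.ball c r) ∧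
      ∫ x in Metric.ball c r, √(1 / ‖x - c‖) ≤ 5.03 * (r ^ 2 * √r) := by
  have e : (fun x : E3 => √(1 / ‖x - c‖)) = fun x : E3 => (‖x - c‖ ^ (1 / 2 : ℝ))⁻¹ := by
    funext x
    exact sqrt_eq _
  rw [e]
  refine ⟨integrableOn_ball (by norm_num) (by norm_num) c r, ?_⟩
  rw [int_ball_pow (by norm_num) (by norm_num) c hr]
  rcases hr.eq_or_lt with h0 | h0
  · rw [← h0]
    rw [Real.zero_rpow (by norm_num)]
    simp
  · have h1 : r ^ (3 - 1 / 2 : ℝ) = r ^ 2 * √r := by
      rw [show (3 - 1 / 2 : ℝ) = 2 + 1 / 2 by norm_num, Real.rpow_add h0, Real.sqrt_eq_rpow]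
      norm_num
    rw [h1]
    have hpi : Real.pi < 3.1416 := Real.pi_lt_d4
    have hX : 0 ≤ r ^ 2 * √r := by positivity
    rw [show (3 - 1 / 2 : ℝ) = 5 / 2 by norm_num]
    have : 4 * Real.pi * (r ^ 2 * √r) / (5 / 2) = (8 / 5 * Real.pi) * (r ^ 2 * √r) := by ring
    rw [this]
    apply mul_le_mul_of_nonneg_right _ hX
    linarith

theorem int_ball_inv (c : E3) {r : ℝ} (hr : 0 ≤ r) :
    IntegrableOn (fun x : E3 => 1 / ‖x - c‖) (Metric.ball c r) ∧ ∫ x in Metric.ball c r, 1 / ‖x - c‖ = 2 * Real.pi * r ^ 2 := by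
  have e : (fun x : E3 => 1 / ‖x - c‖) = fun x : E3 => (‖x - c‖ ^ (1 : ℝ))⁻¹ := by
    funext x
    rw [Real.rpow_one, one_div]
  rw [e]
  refine ⟨integrableOn_ball (by norm_num) (by norm_num) c r, ?_⟩
  rw [int_ball_pow (by norm_num) (by norm_num) c hr]
  have h1 : r ^ (3 - 1 : ℝ) = r ^ 2 := by
    rw [show (3 - 1 : ℝ) = ((2 : ℕ) : ℝ) by norm_num, Real.rpow_natCast]
  rw [h1]
  ring

theorem int_ball_shift (c y : E3) {r : ℝ} (hr : 0 ≤ r) :
    IntegrableOn (fun x : E3 => 1 / ‖x - y‖) (Metric.ball c r) ∧ ∫ x in Metric.ball c r, 1 / ‖x - y‖ ≤ 2 * Real.pi * r ^ 2 := by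
  have hI : IntegrableOn (fun x : E3 => 1 / ‖x - y‖) (Metric.ball c r) := by
    have h1 := (int_ball_inv y (r := r + ‖c - y‖) (by positivity)).1
    refine h1.mono_set ?_
    apply Metric.ball_subset_ball'
    rw [dist_eq_norm]
  refine ⟨hI, ?_⟩
  have h0 : ∀ x : E3, 0 ≤ 1 / ‖x - y‖ := fun x => by positivity
  rw [integral_eq_lintegral_of_nonneg_ae (Eventually.of_forall h0) hI.aestronglyMeasurable]
  apply ENNReal.toReal_le_of_le_ofReal (by positivity)
  refine le_trans ?_ (ball_le (y - c) hr)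
  have h2 := (measurePreserving_sub_right (volume : Measure E3) c).setLIntegral_comp_preimage_emb
    (MeasurableEquiv.subRight c).measurableEmbedding (fun x : E3 => ‖x - (y - c)‖ₑ⁻¹)
    (Metric.ball (0 : E3) r)
  have h3 : (fun x => x - c) ⁻¹' Metric.ball (0 : E3) r = Metric.ball c r := by
    ext x; simp [dist_eq_norm]
  rw [h3] at h2
  rw [← h2]
  apply lintegral_mono_ae
  have hne : ∀ᵐ x : E3, x ≠ y := by
    rw [ae_iff]
    simp
  filter_upwards [ae_restrict_of_ae hne] with x hx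
  have hpos : 0 < ‖x - y‖ := norm_pos_iff.mpr (sub_ne_zero.mpr hx)
  rw [show x - c - (y - c) = x - y by abel, one_div, ENNReal.ofReal_inv_of_pos hpos, ofReal_norm]

end Pool.Agent.H35.TC
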