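import Pool.Agent.H35.TC.Defs
import Pool.Agent.H35.TC.BI
import Pool.Agent.H50.TM.MeanV

/-!
# Module Drop: uniform lower bound of the chemical potential for well separated nuclei

`θ = N/Z < 1`, `zm = min z`. Given `ρ` of mass `N` and nuclei at mutual distances `≥ D ≥ 2L`: the balls `B(R i, D/2)` are disjoint, so there is `i` with `∫_{B(R i, D/2)} ρ ≤ θ z_i`
(otherwise the sum is `> N`). Take `ρ' = ρ + ν`, `ν = a/|B_L| 1_{B(R i, L)}` (mass `a`), `|B_L| = (4π/3) L³`.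
* potential: average of `V` over `B(R i, L)` `≥ (3/2) z_i/L` (`int_ball_inv`); average of `Gρ` `= ∫ρ(y) avg(1/‖x-y‖) dy ≤ (3/(2L)) ∫_{‖y - R i‖ < D/2} ρ + ∫_{‖y - R i‖ ≥ D/2} ρ/(D/2 - L) ≤ (3/2) θ z_i/L + 4N/D`
  (for `‖y - R i‖ ≥ D/2`, `x ∈ B(R i, L)`, `L ≤ D/4`: `‖x-y‖ ≥ D/4`). So `∫ ν (V - Gρ) ≥ a [(3/2)(1-θ) z_i/L - 4N/D]`.
* Coulomb: `1/2 ∫νGν ≤ 1/2 a (3/2) a/L ≤ a²/L`.
* kinetic: `(ρ+ν)^(5/3) - ρ^(5/3) ≤ (5/3) ν (ρ+ν)^(2/3) ≤ (5/3) ν (ρ^(2/3) + ν^(2/3))` and `ρ^(2/3) ≤ L ρ + 1/L²` (Young), so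
  `∫ [..] ≤ (5/3) (a/|B_L|) (L N + |B_L|/L²) + (5/3) a (a/|B_L|)^(2/3) ≤ C a (N + 1 + a^(2/3))/L²`.
Total: `tf ρ' - tf ρ ≤ a [ -(3/2)(1-θ) zm/L + 4N/D + a/L + γ C (N+1+a^(2/3))/L² ]`; take `a = (1-θ) zm/2` (or min with 1), `L` large, then `D` large: `≤ -δ`.
* `mu_low`: `inf` over `ρ`: `En(N+a) ≤ En(N) - δ` (`exists_near`), and `En(N+a) ≥ Om μ - μ (N+a) = En(N) - μ a` (`En_ge`): `μ ≥ δ/a =: μ0`.
-/

set_option autoImplicit false

open MeasureTheory Set Filter Topology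
open scoped ENNReal NNReal

namespace Pool.Agent.H35.TC

open Pool.Agent.H23.TF Pool.Agent.H50.TM

variable {γ : ℝ} {k : ℕ} {z : Fin k → ℝ}

/-- the pointwise inequality for the kinetic energy -/
private lemma drop_pw {r t a : ℝ} (hr : 1 ≤ r) (ht : 0 ≤ t) (ha : 0 ≤ a) :
    (t + a) ^ (5 / 3 : ℝ) - t ^ (5 / 3 : ℝ) ≤
      5 / 3 * a * (r * t + (r ^ 2)⁻¹ + a ^ (2 / 3 : ℝ)) := by
  have hr0 : 0 < r := by linarith
  have h1 : (t + a) ^ (5 / 3 : ℝ) - t ^ (5 / 3 : ℝ) ≤ 5 / 3 * a * (t + a) ^ (2 / 3 : ℝ) := by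
    rcases (add_nonneg ht ha).eq_or_lt with h0 | h0
    · have ht0 : t = 0 := by linarith
      have ha0 : a = 0 := by linarith
      rw [ht0, ha0]
      simp
    · have h2 := one_add_mul_self_le_rpow_one_add (s := -a / (t + a)) (by
        rw [le_div_iff₀ h0]
        linarith) (p := 5 / 3) (by norm_num)
      have h3 : 1 + -a / (t + a) = t / (t + a) := by
        field_simp
        ring
      rw [h3, Real.div_rpow ht h0.le] at h2
      have h4 : 0 < (t + a) ^ (5 / 3 : ℝ) := Real.rpow_pos_of_pos h0 _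
      rw [le_div_iff₀ h4] at h2
      have h5 : (t + a) ^ (5 / 3 : ℝ) = (t + a) ^ (2 / 3 : ℝ) * (t + a) := by
        rw [← Real.rpow_add_one h0.ne']
        norm_num
      have h6 : (1 + 5 / 3 * (-a / (t + a))) * (t + a) ^ (5 / 3 : ℝ) =
          (t + a) ^ (5 / 3 : ℝ) - 5 / 3 * a * (t + a) ^ (2 / 3 : ℝ) := by
        rw [h5]
        field_simp
        ring
      rw [h6] at h2
      linarith
  have h2 : (t + a) ^ (2 / 3 : ℝ) ≤ t ^ (2 / 3 : ℝ) + a ^ (2 / 3 : ℝ) := by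
    have := NNReal.rpow_add_le_add_rpow (p := 2 / 3) ⟨t, ht⟩ ⟨a, ha⟩ (by norm_num) (by norm_num)
    exact_mod_cast this
  have h3 : t ^ (2 / 3 : ℝ) ≤ r * t + (r ^ 2)⁻¹ := by
    have h0 : 0 ≤ r * t := mul_nonneg hr0.le ht
    have h0' : 0 ≤ (r ^ 2)⁻¹ := by positivity
    have e2 : ((r ^ 3)⁻¹) ^ (2 / 3 : ℝ) = (r ^ 2)⁻¹ := by
      rw [Real.inv_rpow (by positivity), ← Real.rpow_natCast, ← Real.rpow_natCast,
        ← Real.rpow_mul hr0.le]
      norm_num
    rcases le_total t ((r ^ 3)⁻¹) with h4 | h4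
    · have h5 := Real.rpow_le_rpow ht h4 (by norm_num : (0 : ℝ) ≤ 2 / 3)
      rw [e2] at h5
      linarith
    · have ht0 : 0 < t := lt_of_lt_of_le (by positivity) h4
      have e3 : ((r ^ 3)⁻¹) ^ (1 / 3 : ℝ) = r⁻¹ := by
        rw [Real.inv_rpow (by positivity), ← Real.rpow_natCast, ← Real.rpow_mul hr0.le]
        norm_num
      have h5 := Real.rpow_le_rpow (by positivity) h4 (by norm_num : (0 : ℝ) ≤ 1 / 3)
      rw [e3] at h5
      have h6 : t = t ^ (2 / 3 : ℝ) * t ^ (1 / 3 : ℝ) := by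
        rw [← Real.rpow_add ht0]
        norm_num
      have h7 : 0 ≤ t ^ (2 / 3 : ℝ) := Real.rpow_nonneg ht _
      have h8 : t ^ (2 / 3 : ℝ) * r⁻¹ ≤ t := by
        calc t ^ (2 / 3 : ℝ) * r⁻¹ ≤ t ^ (2 / 3 : ℝ) * t ^ (1 / 3 : ℝ) :=
              mul_le_mul_of_nonneg_left h5 h7
          _ = t := h6.symm
      have h9 : t ^ (2 / 3 : ℝ) ≤ r * t := by
        have := mul_le_mul_of_nonneg_left h8 hr0.le
        have e4 : r * (t ^ (2 / 3 : ℝ) * r⁻¹) = t ^ (2 / 3 : ℝ) := by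
          field_simp
        linarith
      linarith
  have h4 : 0 ≤ 5 / 3 * a := by positivity
  have h5 := mul_le_mul_of_nonneg_left (h2.trans (add_le_add h3 le_rfl)) h4
  linarith


/-- the shell: constant density `a` on the ball of radius `r` round `c` -/
private noncomputable def dsh (c : E3) (r a : ℝ) : E3 → ℝ := (Metric.ball c r).indicator fun _ => a

private lemma dsh_dn {c : E3} {r a : ℝ} (ha : 0 ≤ a) : DN (dsh c r a) := by
  refine ⟨fun x => indicator_nonneg (fun _ _ => ha) x, ?_, ?_⟩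
  · unfold dsh
    rw [integrable_indicator_iff Metric.isOpen_ball.measurableSet]
    exact integrableOn_const measure_ball_lt_top.ne
  · have e : (fun x => dsh c r a x ^ (5 / 3 : ℝ)) =
        (Metric.ball c r).indicator fun _ => a ^ (5 / 3 : ℝ) := by
      funext x
      unfold dsh
      by_cases h : x ∈ Metric.ball c r
      · rw [indicator_of_mem h, indicator_of_mem h]
      · rw [indicator_of_notMem h, indicator_of_notMem h, Real.zero_rpow (by norm_num)]
    rw [e, integrable_indicator_iff Metric.isOpen_ball.measurableSet]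
    exact integrableOn_const measure_ball_lt_top.ne

private lemma dsh_int {c : E3} {r a : ℝ} (hr : 0 ≤ r) : ∫ x, dsh c r a x = a * (4 / 3 * Real.pi * r ^ 3) := by
  unfold dsh
  rw [integral_indicator_const _ Metric.isOpen_ball.measurableSet, Measure.real,
    volume_ball_real c hr, ENNReal.toReal_ofReal (by positivity), smul_eq_mul]
  ring

private lemma dsh_G (c : E3) {r a : ℝ} (hr : 0 < r) (x : E3) :
    G (dsh c r a) x = a * (4 / 3 * Real.pi * r ^ 3) * kap r ‖c - x‖ := by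
  have h1 := ball_avg c x hr
  rw [setAverage_eq, Measure.real, volume_ball_real c hr.le, ENNReal.toReal_ofReal (by positivity),
    smul_eq_mul] at h1
  have hv : (4 / 3 * Real.pi * r ^ 3) ≠ 0 := by positivity
  have h2 : ∫ u in Metric.ball c r, 1 / ‖u - x‖ = 4 / 3 * Real.pi * r ^ 3 * kap r ‖c - x‖ := by
    rw [← h1]
    field_simp
  have h3 : G (dsh c r a) x = a * ∫ u in Metric.ball c r, 1 / ‖u - x‖ := by
    unfold G
    rw [← integral_const_mul, ← integral_indicator Metric.isOpen_ball.measurableSet]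
    congr 1
    funext y
    unfold dsh
    by_cases h : y ∈ Metric.ball c r
    · rw [indicator_of_mem h, indicator_of_mem h, norm_sub_rev]
      ring
    · rw [indicator_of_notMem h, indicator_of_notMem h, zero_div]
  rw [h3, h2]
  ring

/-- the energy of `ρ + s` -/
private lemma drop_tf {N L η : ℝ} {R : Fin k → E3} {c : E3} (hγ : 0 < γ) (hL : 1 ≤ L) (hη : 0 < η) (hN : 0 ≤ N)
    {ρ : E3 → ℝ} (hρ : Density N ρ) :
    ∃ s : E3 → ℝ, DN s ∧ ∫ x, s x = η ∧ (∀ x, G s x = η * kap L ‖c - x‖) ∧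
      tf γ R z (fun x => ρ x + s x) ≤ tf γ R z ρ +
        (3 / 5 * γ * (5 / 3 * (3 * η / (4 * Real.pi) * N + η + η * (3 * η / (4 * Real.pi)) ^ (2 / 3 : ℝ)) / L ^ 2)
          - (∑ j, z j * G s (R j)) + (∫ x, ρ x * G s x) + 3 / 4 * η ^ 2 / L) := by
  have hpi := Real.pi_pos
  have hL0 : 0 < L := by linarith
  obtain ⟨q, hq⟩ : ∃ q, q = 3 * η / (4 * Real.pi) := ⟨_, rfl⟩
  have hq0 : 0 < q := by rw [hq]; positivity
  obtain ⟨a, ha⟩ : ∃ a, a = q / L ^ 3 := ⟨_, rfl⟩
  have ha0 : 0 < a := by rw [ha]; positivity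
  have e1 : a * (4 / 3 * Real.pi * L ^ 3) = η := by
    rw [ha, hq]
    field_simp
  have hs := dsh_dn (c := c) (r := L) ha0.le
  have hsi : ∫ x, dsh c L a x = η := by rw [dsh_int hL0.le, e1]
  have hsG : ∀ x, G (dsh c L a) x = η * kap L ‖c - x‖ := fun x => by rw [dsh_G c hL0, e1]
  refine ⟨dsh c L a, hs, hsi, hsG, ?_⟩
  rw [← hq]
  have ls := hs.ld
  have lρ := (Density.dn hρ).ld
  have hkin : (∫ x, (ρ x + dsh c L a x) ^ (5 / 3 : ℝ)) - ∫ x, ρ x ^ (5 / 3 : ℝ) ≤
      5 / 3 * (q * N + η + η * q ^ (2 / 3 : ℝ)) / L ^ 2 := by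
    rw [← integral_sub ((Density.dn hρ).add hs).int53 hρ.int53]
    have hi : Integrable (fun x => 5 / 3 * a * L * ρ x +
        5 / 3 * ((L ^ 2)⁻¹ + a ^ (2 / 3 : ℝ)) * dsh c L a x) :=
      (hρ.int.const_mul _).add (hs.int.const_mul _)
    have h1 : ∫ x, ((ρ x + dsh c L a x) ^ (5 / 3 : ℝ) - ρ x ^ (5 / 3 : ℝ)) ≤
        ∫ x, (5 / 3 * a * L * ρ x + 5 / 3 * ((L ^ 2)⁻¹ + a ^ (2 / 3 : ℝ)) * dsh c L a x) := by
      refine integral_mono (((Density.dn hρ).add hs).int53.sub hρ.int53) hi fun x => ?_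
      simp only
      unfold dsh
      by_cases h : x ∈ Metric.ball c L
      · rw [indicator_of_mem h]
        have := drop_pw hL (hρ.nonneg x) ha0.le
        refine this.trans (le_of_eq ?_)
        ring
      · rw [indicator_of_notMem h, add_zero, sub_self, mul_zero, add_zero]
        have := hρ.nonneg x
        positivity
    refine h1.trans (le_of_eq ?_)
    rw [integral_add (hρ.int.const_mul _) (hs.int.const_mul _), integral_const_mul,
      integral_const_mul, hρ.mass, hsi]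
    have e2 : a ^ (2 / 3 : ℝ) = q ^ (2 / 3 : ℝ) / L ^ 2 := by
      rw [ha, Real.div_rpow hq0.le (by positivity)]
      congr 1
      rw [← Real.rpow_natCast, ← Real.rpow_natCast, ← Real.rpow_mul hL0.le]
      norm_num
    rw [e2, ha]
    field_simp
    ring
  have hsG2 : ∫ x, dsh c L a x * G (dsh c L a) x ≤ 3 / (2 * L) * η * η := by
    have h1 : ∫ x, dsh c L a x * G (dsh c L a) x ≤ ∫ x, 3 / (2 * L) * η * dsh c L a x := by
      refine integral_mono (ls.int_mul_G ls) (hs.int.const_mul _) fun x => ?_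
      simp only
      have h2 := kap_le_const (r := L) (d := ‖c - x‖) hL0 (norm_nonneg _)
      have h3 := hs.nonneg x
      rw [hsG x]
      have h4 := mul_le_mul_of_nonneg_left (mul_le_mul_of_nonneg_left h2 hη.le) h3
      linarith
    rwa [integral_const_mul, hsi] at h1
  have hsym := G_symm ls lρ
  rw [tf_eq, tf_eq]
  have a2 : ∫ x, V R z x * (ρ x + dsh c L a x) = (∫ x, V R z x * ρ x) + ∫ x, V R z x * dsh c L a x := by
    rw [← integral_add (lρ.int_V R z) (ls.int_V R z)]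
    congr 1
    funext x
    ring
  have a3 : ∫ x, (ρ x + dsh c L a x) * G (fun x => ρ x + dsh c L a x) x =
      (∫ x, ρ x * G ρ x) + (∫ x, ρ x * G (dsh c L a) x) +
        ((∫ x, dsh c L a x * G ρ x) + ∫ x, dsh c L a x * G (dsh c L a) x) := by
    have i1 : Integrable (fun x => ρ x * G ρ x + ρ x * G (dsh c L a) x) :=
      (lρ.int_mul_G lρ).add (lρ.int_mul_G ls)
    have i2 : Integrable (fun x => dsh c L a x * G ρ x + dsh c L a x * G (dsh c L a) x) :=
      (ls.int_mul_G lρ).add (ls.int_mul_G ls)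
    rw [← integral_add (lρ.int_mul_G lρ) (lρ.int_mul_G ls),
      ← integral_add (ls.int_mul_G lρ) (ls.int_mul_G ls), ← integral_add i1 i2]
    congr 1
    funext x
    rw [G_add lρ ls x]
    ring
  rw [a2, a3, hsym, int_V_mul ls R z]
  have hkin' : 3 / 5 * γ * ((∫ x, (ρ x + dsh c L a x) ^ (5 / 3 : ℝ)) - ∫ x, ρ x ^ (5 / 3 : ℝ)) ≤
      3 / 5 * γ * (5 / 3 * (q * N + η + η * q ^ (2 / 3 : ℝ)) / L ^ 2) :=
    mul_le_mul_of_nonneg_left hkin (by positivity)
  have e5 : 1 / 2 * (3 / (2 * L) * η * η) = 3 / 4 * η ^ 2 / L := by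
    field_simp
    ring
  linarith

theorem drop (hγ : 0 < γ) (hz : ∀ i, 0 < z i) {N : ℝ} (hN : 0 ≤ N) (hNZ : N < ∑ i, z i) :
    ∃ a δ D : ℝ, 0 < a ∧ 0 < δ ∧ 0 < D ∧ ∀ R : Fin k → E3, (∀ i j, i ≠ j → D ≤ ‖R i - R j‖) → ∀ ρ, Density N ρ →
      ∃ ρ', Density (N + a) ρ' ∧ tf γ R z ρ' ≤ tf γ R z ρ - δ := by
  set Z := ∑ i, z i with hZ
  have hZ0 : 0 < Z := lt_of_le_of_lt hN hNZ
  have hk : Nonempty (Fin k) := by
    by_contra h
    rw [not_nonempty_iff] at h
    rw [hZ, Finset.univ_eq_empty, Finset.sum_empty] at hZ0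
    exact lt_irrefl _ hZ0
  obtain ⟨i0, hi0⟩ := Finite.exists_min z
  obtain ⟨t, ht⟩ : ∃ t, t = N / Z := ⟨_, rfl⟩
  have ht1 : t < 1 := by rw [ht, div_lt_one hZ0]; exact hNZ
  have ht0 : 0 ≤ t := by rw [ht]; positivity
  obtain ⟨η, hη⟩ : ∃ η, η = (1 - t) * z i0 := ⟨_, rfl⟩
  have hη0 : 0 < η := by rw [hη]; exact mul_pos (by linarith) (hz i0)
  have hpi := Real.pi_pos
  set C2 : ℝ := 5 / 3 * (3 * η / (4 * Real.pi) * N + η + η * (3 * η / (4 * Real.pi)) ^ (2 / 3 : ℝ)) with hC2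
  have hC20 : 0 ≤ C2 := by
    have : 0 ≤ (3 * η / (4 * Real.pi)) ^ (2 / 3 : ℝ) := Real.rpow_nonneg (by positivity) _
    rw [hC2]
    positivity
  obtain ⟨L, hL1, hLK⟩ : ∃ L : ℝ, 1 ≤ L ∧ 12 / 5 * γ * C2 / η ^ 2 ≤ L :=
    ⟨max 1 (12 / 5 * γ * C2 / η ^ 2), le_max_left _ _, le_max_right _ _⟩
  have hL0 : 0 < L := by linarith
  obtain ⟨D, hD1, hD2⟩ : ∃ D : ℝ, 2 * L ≤ D ∧ 8 * N * L / η ≤ D :=
    ⟨max (2 * L) (8 * N * L / η), le_max_left _ _, le_max_right _ _⟩
  have hD0 : 0 < D := by linarith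
  refine ⟨η, 1 / 4 * η ^ 2 / L, D, hη0, by positivity, hD0, fun R hR ρ hρ => ?_⟩
  have lρ := (Density.dn hρ).ld
  -- an ion which is not neutral
  obtain ⟨i, hi⟩ : ∃ i, ∫ x in Metric.ball (R i) (D / 2), ρ x ≤ t * z i := by
    by_contra hcon
    push Not at hcon
    have h1 : ∑ i, t * z i < ∑ i, ∫ x in Metric.ball (R i) (D / 2), ρ x :=
      Finset.sum_lt_sum_of_nonempty Finset.univ_nonempty fun i _ => hcon i
    have h2 : ∑ i, ∫ x in Metric.ball (R i) (D / 2), ρ x = ∫ x in ⋃ i, Metric.ball (R i) (D / 2), ρ x := by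
      rw [integral_iUnion_fintype (fun i => Metric.isOpen_ball.measurableSet) _ (fun i => hρ.int.integrableOn)]
      intro i j hij
      apply Metric.ball_disjoint_ball
      rw [dist_eq_norm]
      have := hR i j hij
      linarith
    have h3 : ∫ x in ⋃ i, Metric.ball (R i) (D / 2), ρ x ≤ N := by
      rw [← hρ.mass]
      exact setIntegral_le_integral hρ.int (Eventually.of_forall hρ.nonneg)
    have h4 : ∑ i, t * z i = N := by
      rw [← Finset.mul_sum, ← hZ, ht]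
      field_simp
    linarith
  obtain ⟨s, hs, hsi, hsG, hE⟩ := drop_tf (z := z) (R := R) (c := R i) hγ hL1 hη0 hN hρ
  rw [← hC2] at hE
  refine ⟨fun x => ρ x + s x, ?_, hE.trans ?_⟩
  · have h1 : DN (fun x => ρ x + s x) := (Density.dn hρ).add hs
    have h2 := h1.density
    have h3 : ∫ x, (ρ x + s x) = N + η := by
      rw [integral_add hρ.int hs.int, hρ.mass, hsi]
    rw [h3] at h2
    exact h2
  · have hk0 : kap L 0 = 3 / (2 * L) := by
      unfold kap
      rw [if_pos hL0]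
      field_simp
      ring
    have hV : z i * (η * (3 / (2 * L))) ≤ ∑ j, z j * G s (R j) := by
      have h1 : z i * (η * (3 / (2 * L))) = z i * G s (R i) := by
        rw [hsG, sub_self, norm_zero, hk0]
      rw [h1]
      refine Finset.single_le_sum (f := fun j => z j * G s (R j)) (fun j _ => ?_) (Finset.mem_univ i)
      exact mul_nonneg (hz j).le (G_nonneg (Eventually.of_forall hs.nonneg) _)
    have hρG : ∫ x, ρ x * G s x ≤ η * (3 / (2 * L)) * (t * z i) + η * (2 / D) * N := by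
      have h1 : ∫ x, ρ x * G s x ≤ ∫ x, (η * (3 / (2 * L)) * (Metric.ball (R i) (D / 2)).indicator ρ x
          + η * (2 / D) * ρ x) := by
        have hi1 : Integrable (fun x => (Metric.ball (R i) (D / 2)).indicator ρ x) :=
          hρ.int.indicator Metric.isOpen_ball.measurableSet
        refine integral_mono (lρ.int_mul_G hs.ld) ((hi1.const_mul _).add (hρ.int.const_mul _)) fun x => ?_
        simp only
        rw [hsG x]
        have hρx := hρ.nonneg x
        by_cases h : x ∈ Metric.ball (R i) (D / 2)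
        · rw [indicator_of_mem h]
          have h2 := kap_le_const (r := L) (d := ‖R i - x‖) hL0 (norm_nonneg _)
          have h3 := mul_le_mul_of_nonneg_left (mul_le_mul_of_nonneg_left h2 hη0.le) hρx
          have h4 : 0 ≤ η * (2 / D) * ρ x := by positivity
          linarith
        · rw [indicator_of_notMem h, mul_zero, zero_add]
          have h5 : D / 2 ≤ ‖R i - x‖ := by
            rw [Metric.mem_ball, not_lt, dist_eq_norm, norm_sub_rev] at h
            exact h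
          rw [kap_eq (by linarith)]
          have h6 : 1 / ‖R i - x‖ ≤ 2 / D := by
            have h7 := one_div_le_one_div_of_le (by linarith : 0 < D / 2) h5
            have h8 : 1 / (D / 2) = 2 / D := by field_simp
            rwa [h8] at h7
          have h3 := mul_le_mul_of_nonneg_left (mul_le_mul_of_nonneg_left h6 hη0.le) hρx
          linarith
      refine h1.trans ?_
      have hi1 : Integrable (fun x => (Metric.ball (R i) (D / 2)).indicator ρ x) :=
        hρ.int.indicator Metric.isOpen_ball.measurableSet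
      rw [integral_add (hi1.const_mul _) (hρ.int.const_mul _), integral_const_mul, integral_const_mul,
        hρ.mass, integral_indicator Metric.isOpen_ball.measurableSet]
      have := mul_le_mul_of_nonneg_left hi (by positivity : 0 ≤ η * (3 / (2 * L)))
      linarith
    have e1 : 3 / 5 * γ * (C2 / L ^ 2) ≤ 1 / 4 * η ^ 2 / L := by
      have h1 : 3 / 5 * γ * (C2 / L ^ 2) = (3 / 5 * γ * C2 / L) / L := by
        field_simp
      rw [h1]
      apply div_le_div_of_nonneg_right _ hL0.le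
      rw [div_le_iff₀ hL0]
      rw [div_le_iff₀ (by positivity)] at hLK
      linarith
    have e2 : η * (2 / D) * N ≤ 1 / 4 * η ^ 2 / L := by
      rw [div_le_iff₀ (by positivity)] at hD2
      have h1 : η * (2 / D) * N = 2 * η * N / D := by ring
      rw [h1, div_le_div_iff₀ hD0 hL0]
      have := mul_le_mul_of_nonneg_left hD2 hη0.le
      linarith
    have e3 : 3 / 4 * η ^ 2 / L ≤ (3 / 4) * ((1 - t) * z i * η) / L := by
      apply div_le_div_of_nonneg_right _ hL0.le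
      have h1 : η ≤ (1 - t) * z i := by
        rw [hη]
        exact mul_le_mul_of_nonneg_left (hi0 i) (by linarith)
      nlinarith
    have e4 : η * (3 / (2 * L)) * (t * z i) - z i * (η * (3 / (2 * L))) =
        -(2 * ((3 / 4) * ((1 - t) * z i * η) / L)) := by
      field_simp
      ring
    have e5 : 3 / 4 * η ^ 2 / L = 3 * (1 / 4 * η ^ 2 / L) := by ring
    linarith

theorem mu_low (hγ : 0 < γ) (hz : ∀ i, 0 < z i) {N : ℝ} (hN : 0 ≤ N) (hNZ : N < ∑ i, z i) :
    ∃ μ0 D : ℝ, 0 < μ0 ∧ 0 < D ∧ ∀ R : Fin k → E3, (∀ i j, i ≠ j → D ≤ ‖R i - R j‖) → ∀ μ : ℝ, 0 < μ →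
      En γ R z N = Om γ μ R z - μ * N → μ0 ≤ μ := by
  obtain ⟨a, δ, D, ha, hδ, hD, h⟩ := drop hγ hz hN hNZ
  refine ⟨δ / (2 * a), D, by positivity, hD, fun R hR μ hμ hE => ?_⟩
  have hz' : ∀ i, 0 ≤ z i := fun i => (hz i).le
  obtain ⟨ρ, hρ, hn⟩ := exists_near hγ R hz' hN (half_pos hδ)
  obtain ⟨ρ', hρ', hd⟩ := h R hR ρ hρ
  have h1 := En_le hγ R hz' hρ'
  have h2 := En_ge hγ hμ R hz' (by linarith : 0 ≤ N + a)
  rw [div_le_iff₀ (by positivity)]
  nlinarith

end Pool.Agent.H35.TC
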