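import Pool.Agent.H35.TC.Defs
import Pool.Agent.H35.TC.BI

/-!
# Module MassC: upper bounds for the mass and the potential of the electrons

`Z ≤ μ r`. For `x` different from all nuclei, let `R i` be a nearest nucleus: `V x ≤ Z/‖x - R i‖` (`V_far`). If `‖x - R i‖ ≥ r` then `V x ≤ μ` and `ρ x ≤ jj (V x) = 0` (`IsTF.le_V`);
otherwise `ρ x ≤ (V x/γ)^(3/2) ≤ f_i x := 1_{‖x - R i‖ < r} (Z/(γ ‖x - R i‖))^(3/2)`. So `ρ ≤ ∑ f_i` almost everywhere.
* `mass_up`: `∫ f_i = (Z/γ)^(3/2) (8π/3) r^(3/2)` (`int_ball_pow`, `p = 3/2`), `8π/3 ≤ 9`.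
* `G_up`: `f_i` is radial about `R i`: `G f_i x ≤ G f_i (R i)` (`G_center`, N3_Cons) `= (Z/γ)^(3/2) ∫_{B} ‖y‖^(-5/2) = (Z/γ)^(3/2) 8π √r`, `8π ≤ 26`. `Ld f_i`: `f_i^(5/3) = (Z/γ)^(5/2) ‖·‖^(-5/2)`.
-/

set_option autoImplicit false

open MeasureTheory Set Filter Topology
open scoped ENNReal NNReal

namespace Pool.Agent.H35.TC

open Pool.Agent.H23.TF Pool.Agent.H50.TM

variable {γ μ r : ℝ} {k : ℕ} {R : Fin k → E3} {z : Fin k → ℝ} {ρ : E3 → ℝ}

/-- the comparison function of one ion -/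
private noncomputable def cf (c : E3) (r a : ℝ) (x : E3) : ℝ := if ‖x - c‖ < r then a * (‖x - c‖ ^ (3 / 2 : ℝ))⁻¹ else 0

private theorem cf_nonneg {c : E3} {r a : ℝ} (ha : 0 ≤ a) (x : E3) : 0 ≤ cf c r a x := by
  unfold cf
  split_ifs
  · positivity
  · exact le_refl _

private theorem cf_eq (c : E3) (r a : ℝ) :
    cf c r a = (Metric.ball c r).indicator (fun x => a * (‖x - c‖ ^ (3 / 2 : ℝ))⁻¹) := by
  funext x
  unfold cf
  by_cases h : ‖x - c‖ < r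
  · rw [if_pos h, indicator_of_mem (by rwa [Metric.mem_ball, dist_eq_norm])]
  · rw [if_neg h, indicator_of_notMem (by rwa [Metric.mem_ball, dist_eq_norm])]

private theorem cf_int (c : E3) (r a : ℝ) : Integrable (cf c r a) := by
  rw [cf_eq, integrable_indicator_iff Metric.isOpen_ball.measurableSet]
  exact (integrableOn_ball (by norm_num) (by norm_num) c r).const_mul a

private theorem cf_ld (c : E3) {r a : ℝ} (ha : 0 ≤ a) : Ld (cf c r a) := by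
  refine Ld.of_nonneg (cf_nonneg ha) (cf_int c r a) ?_
  have e : (fun x => cf c r a x ^ (5 / 3 : ℝ)) =
      (Metric.ball c r).indicator (fun x => a ^ (5 / 3 : ℝ) * (‖x - c‖ ^ (5 / 2 : ℝ))⁻¹) := by
    funext x
    unfold cf
    by_cases h : ‖x - c‖ < r
    · rw [if_pos h, indicator_of_mem (by rwa [Metric.mem_ball, dist_eq_norm]),
        Real.mul_rpow ha (by positivity), Real.inv_rpow (by positivity), ← Real.rpow_mul (norm_nonneg _)]
      norm_num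
    · rw [if_neg h, indicator_of_notMem (by rwa [Metric.mem_ball, dist_eq_norm]), Real.zero_rpow (by norm_num)]
  rw [e, integrable_indicator_iff Metric.isOpen_ball.measurableSet]
  exact (integrableOn_ball (by norm_num) (by norm_num) c r).const_mul _

private theorem cf_integral (c : E3) {r : ℝ} (hr : 0 < r) (a : ℝ) :
    ∫ x, cf c r a x = a * (8 * Real.pi / 3 * r ^ (3 / 2 : ℝ)) := by
  rw [cf_eq, integral_indicator Metric.isOpen_ball.measurableSet, integral_const_mul,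
    int_ball_pow (by norm_num) (by norm_num) c hr.le]
  have e : (3 : ℝ) - 3 / 2 = 3 / 2 := by norm_num
  rw [e]
  ring

private theorem cf_G (c : E3) {r : ℝ} (hr : 0 < r) (a : ℝ) :
    G (cf c r a) c = a * (8 * Real.pi * √r) := by
  unfold G
  have e : (fun y => cf c r a y / ‖c - y‖) =
      (Metric.ball c r).indicator (fun x => a * (‖x - c‖ ^ (5 / 2 : ℝ))⁻¹) := by
    funext y
    unfold cf
    by_cases h : ‖y - c‖ < r
    · rw [if_pos h, indicator_of_mem (by rwa [Metric.mem_ball, dist_eq_norm]), norm_sub_rev c y]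
      rcases eq_or_lt_of_le (norm_nonneg (y - c)) with h0 | h0
      · rw [← h0, Real.zero_rpow (by norm_num), Real.zero_rpow (by norm_num)]
        simp
      · have h1 : ‖y - c‖ ^ (5 / 2 : ℝ) = ‖y - c‖ ^ (3 / 2 : ℝ) * ‖y - c‖ := by
          rw [← Real.rpow_add_one h0.ne']
          norm_num
        rw [h1, mul_inv, div_eq_mul_inv]
        ring
    · rw [if_neg h, indicator_of_notMem (by rwa [Metric.mem_ball, dist_eq_norm]), zero_div]
  rw [e, integral_indicator Metric.isOpen_ball.measurableSet, integral_const_mul,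
    int_ball_pow (by norm_num) (by norm_num) c hr.le]
  have e1 : (3 : ℝ) - 5 / 2 = 1 / 2 := by norm_num
  rw [e1, Real.sqrt_eq_rpow]
  ring

private theorem cf_G_le (c : E3) {r a : ℝ} (hr : 0 < r) (ha : 0 ≤ a) (x : E3) :
    G (cf c r a) x ≤ a * (8 * Real.pi * √r) := by
  rw [← cf_G c hr a]
  have hn : ∀ t : ℝ, 0 ≤ (fun t : ℝ => if t < r then a * (|t| ^ (3 / 2 : ℝ))⁻¹ else 0) t := by
    intro t
    simp only
    split_ifs
    · positivity
    · exact le_refl _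
  have hm' : Measurable (fun t : ℝ => if t < r then a * (|t| ^ (3 / 2 : ℝ))⁻¹ else 0) := by
    refine Measurable.ite (measurableSet_lt measurable_id measurable_const) ?_ measurable_const
    exact ((measurable_id.abs.pow_const _).inv).const_mul a
  refine G_center hm' hn c (Eventually.of_forall fun y => ?_) (cf_ld c ha) x
  show cf c r a y = if ‖y - c‖ < r then a * (|‖y - c‖| ^ (3 / 2 : ℝ))⁻¹ else 0
  rw [abs_of_nonneg (norm_nonneg _)]
  rfl

private theorem sum_ld (c : Fin k → E3) {r a : ℝ} (ha : 0 ≤ a) (s : Finset (Fin k)) :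
    Ld (fun x => ∑ i ∈ s, cf (c i) r a x) := by
  classical
  induction s using Finset.induction_on with
  | empty => simpa using Ld.zero
  | insert i s hi ih =>
    have e : (fun x => ∑ j ∈ insert i s, cf (c j) r a x) = fun x => cf (c i) r a x + ∑ j ∈ s, cf (c j) r a x := by
      funext x
      rw [Finset.sum_insert hi]
    rw [e]
    exact (cf_ld (c i) ha).add ih

private theorem sum_G (c : Fin k → E3) {r a : ℝ} (ha : 0 ≤ a) (s : Finset (Fin k)) (x : E3) :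
    G (fun x => ∑ i ∈ s, cf (c i) r a x) x = ∑ i ∈ s, G (cf (c i) r a) x := by
  classical
  induction s using Finset.induction_on with
  | empty => simp [G]
  | insert i s hi ih =>
    have e : (fun x => ∑ j ∈ insert i s, cf (c j) r a x) = fun x => cf (c i) r a x + ∑ j ∈ s, cf (c j) r a x := by
      funext x
      rw [Finset.sum_insert hi]
    rw [e, G_add (cf_ld (c i) ha) (sum_ld c ha s), ih, Finset.sum_insert hi]

/-- the density is below the sum of the comparison functions -/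
private theorem rho_le (hγ : 0 < γ) (hz : ∀ i, 0 ≤ z i) (hμ : 0 < μ) (h : IsTF γ μ R z ρ) (hr : 0 < r) (hrμ : ∑ i, z i ≤ μ * r)
    {x : E3} (hx : ∀ i, x ≠ R i) : ρ x ≤ ∑ i, cf (R i) r (((∑ i, z i) / γ) ^ (3 / 2 : ℝ)) x := by
  have hZ : 0 ≤ ∑ i, z i := Finset.sum_nonneg fun i _ => hz i
  have ha : 0 ≤ ((∑ i, z i) / γ) ^ (3 / 2 : ℝ) := Real.rpow_nonneg (div_nonneg hZ hγ.le) _
  have hs : 0 ≤ ∑ i, cf (R i) r (((∑ i, z i) / γ) ^ (3 / 2 : ℝ)) x := Finset.sum_nonneg fun i _ => cf_nonneg ha x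
  by_cases hfar : ∀ i, r ≤ ‖x - R i‖
  · have h1 : V R z x ≤ μ := (V_far hz hr hfar).trans ((div_le_iff₀ hr).2 hrμ)
    have h2 := h.le_V hγ x
    rw [jj_of_le h1] at h2
    exact h2.trans hs
  · push Not at hfar
    obtain ⟨i1, hi1⟩ := hfar
    have : Nonempty (Fin k) := ⟨i1⟩
    obtain ⟨i0, hi0⟩ := Finite.exists_min (fun i => ‖x - R i‖)
    have hlt : ‖x - R i0‖ < r := lt_of_le_of_lt (hi0 i1) hi1
    have hpos : 0 < ‖x - R i0‖ := norm_pos_iff.2 (sub_ne_zero.2 (hx i0))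
    have h1 : V R z x ≤ (∑ i, z i) / ‖x - R i0‖ := V_far hz hpos hi0
    have h2 : ρ x ≤ jj γ μ ((∑ i, z i) / ‖x - R i0‖) := (h.le_V hγ x).trans (jj_mono hγ h1)
    have h3 : jj γ μ ((∑ i, z i) / ‖x - R i0‖) ≤ cf (R i0) r (((∑ i, z i) / γ) ^ (3 / 2 : ℝ)) x := by
      unfold cf jj
      rw [if_pos hlt]
      have h4 : max ((∑ i, z i) / ‖x - R i0‖ - μ) 0 / γ ≤ (∑ i, z i) / γ * ‖x - R i0‖⁻¹ := by
        have h5 : max ((∑ i, z i) / ‖x - R i0‖ - μ) 0 ≤ (∑ i, z i) / ‖x - R i0‖ :=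
          max_le (by linarith) (div_nonneg hZ hpos.le)
        calc max ((∑ i, z i) / ‖x - R i0‖ - μ) 0 / γ ≤ (∑ i, z i) / ‖x - R i0‖ / γ :=
              div_le_div_of_nonneg_right h5 hγ.le
          _ = (∑ i, z i) / γ * ‖x - R i0‖⁻¹ := by
              rw [div_div, mul_comm, ← div_div, div_eq_mul_inv _ ‖x - R i0‖]
      have h6 : 0 ≤ max ((∑ i, z i) / ‖x - R i0‖ - μ) 0 / γ := div_nonneg (le_max_right _ _) hγ.le
      refine (Real.rpow_le_rpow h6 h4 (by norm_num)).trans ?_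
      rw [Real.mul_rpow (div_nonneg hZ hγ.le) (inv_nonneg.2 hpos.le), Real.inv_rpow hpos.le]
    refine h2.trans (h3.trans ?_)
    exact Finset.single_le_sum (f := fun i => cf (R i) r (((∑ i, z i) / γ) ^ (3 / 2 : ℝ)) x)
      (fun i _ => cf_nonneg ha x) (Finset.mem_univ i0)

private theorem rho_le_ae (hγ : 0 < γ) (hz : ∀ i, 0 ≤ z i) (hμ : 0 < μ) (h : IsTF γ μ R z ρ) (hr : 0 < r) (hrμ : ∑ i, z i ≤ μ * r) :
    ∀ᵐ x, ρ x ≤ ∑ i, cf (R i) r (((∑ i, z i) / γ) ^ (3 / 2 : ℝ)) x := by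
  have h1 : ∀ᵐ x : E3, ∀ i, x ≠ R i := by
    rw [ae_all_iff]
    intro i
    exact compl_mem_ae_iff.2 (measure_singleton (R i))
  filter_upwards [h1] with x hx
  exact rho_le hγ hz hμ h hr hrμ hx

theorem mass_up (hγ : 0 < γ) (hμ : 0 < μ) (hz : ∀ i, 0 ≤ z i) (h : IsTF γ μ R z ρ) (hr : 0 < r) (hrμ : ∑ i, z i ≤ μ * r) :
    ∫ x, ρ x ≤ k * (9 * ((∑ i, z i) * r / γ) ^ (3 / 2 : ℝ)) := by
  have hZ : 0 ≤ ∑ i, z i := Finset.sum_nonneg fun i _ => hz i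
  have hZγ : 0 ≤ (∑ i, z i) / γ := div_nonneg hZ hγ.le
  have ha : 0 ≤ ((∑ i, z i) / γ) ^ (3 / 2 : ℝ) := Real.rpow_nonneg hZγ _
  have h1 : ∫ x, ρ x ≤ ∫ x, ∑ i, cf (R i) r (((∑ i, z i) / γ) ^ (3 / 2 : ℝ)) x :=
    integral_mono_ae h.ld.i1 (sum_ld R ha Finset.univ).i1 (rho_le_ae hγ hz hμ h hr hrμ)
  refine h1.trans ?_
  rw [integral_finsetSum _ fun i _ => cf_int (R i) r _]
  have h2 : ∀ i ∈ (Finset.univ : Finset (Fin k)), ∫ x, cf (R i) r (((∑ i, z i) / γ) ^ (3 / 2 : ℝ)) x =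
      ((∑ i, z i) / γ) ^ (3 / 2 : ℝ) * (8 * Real.pi / 3 * r ^ (3 / 2 : ℝ)) := fun i _ => cf_integral (R i) hr _
  rw [Finset.sum_congr rfl h2, Finset.sum_const, Finset.card_univ, Fintype.card_fin, nsmul_eq_mul]
  refine mul_le_mul_of_nonneg_left ?_ (Nat.cast_nonneg k)
  have e : ((∑ i, z i) * r / γ) ^ (3 / 2 : ℝ) = ((∑ i, z i) / γ) ^ (3 / 2 : ℝ) * r ^ (3 / 2 : ℝ) := by
    rw [← Real.mul_rpow hZγ hr.le]
    congr 1
    ring
  rw [e]
  have hrr : 0 ≤ r ^ (3 / 2 : ℝ) := Real.rpow_nonneg hr.le _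
  have hp : 8 * Real.pi / 3 ≤ 9 := by
    have := Real.pi_lt_d2
    linarith
  have h3 : 8 * Real.pi / 3 * r ^ (3 / 2 : ℝ) ≤ 9 * r ^ (3 / 2 : ℝ) := mul_le_mul_of_nonneg_right hp hrr
  calc ((∑ i, z i) / γ) ^ (3 / 2 : ℝ) * (8 * Real.pi / 3 * r ^ (3 / 2 : ℝ))
      ≤ ((∑ i, z i) / γ) ^ (3 / 2 : ℝ) * (9 * r ^ (3 / 2 : ℝ)) := mul_le_mul_of_nonneg_left h3 ha
    _ = 9 * (((∑ i, z i) / γ) ^ (3 / 2 : ℝ) * r ^ (3 / 2 : ℝ)) := by ring

theorem G_up (hγ : 0 < γ) (hμ : 0 < μ) (hz : ∀ i, 0 ≤ z i) (h : IsTF γ μ R z ρ) (hr : 0 < r) (hrμ : ∑ i, z i ≤ μ * r) (x : E3) :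
    G ρ x ≤ k * (26 * (((∑ i, z i) / γ) ^ (3 / 2 : ℝ) * √r)) := by
  have hZ : 0 ≤ ∑ i, z i := Finset.sum_nonneg fun i _ => hz i
  have hZγ : 0 ≤ (∑ i, z i) / γ := div_nonneg hZ hγ.le
  have ha : 0 ≤ ((∑ i, z i) / γ) ^ (3 / 2 : ℝ) := Real.rpow_nonneg hZγ _
  have h1 := G_mono h.ld (sum_ld R ha Finset.univ) (rho_le_ae hγ hz hμ h hr hrμ) x
  refine h1.trans ?_
  rw [sum_G R ha Finset.univ x]
  have h2 : ∑ i : Fin k, G (cf (R i) r (((∑ i, z i) / γ) ^ (3 / 2 : ℝ))) x ≤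
      ∑ _i : Fin k, ((∑ i, z i) / γ) ^ (3 / 2 : ℝ) * (8 * Real.pi * √r) :=
    Finset.sum_le_sum fun i _ => cf_G_le (R i) hr ha x
  refine h2.trans ?_
  rw [Finset.sum_const, Finset.card_univ, Fintype.card_fin, nsmul_eq_mul]
  refine mul_le_mul_of_nonneg_left ?_ (Nat.cast_nonneg k)
  have hp : 8 * Real.pi ≤ 26 := by
    have := Real.pi_lt_d2
    linarith
  have h3 : 8 * Real.pi * √r ≤ 26 * √r := mul_le_mul_of_nonneg_right hp (Real.sqrt_nonneg r)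
  calc ((∑ i, z i) / γ) ^ (3 / 2 : ℝ) * (8 * Real.pi * √r)
      ≤ ((∑ i, z i) / γ) ^ (3 / 2 : ℝ) * (26 * √r) := mul_le_mul_of_nonneg_left h3 ha
    _ = 26 * (((∑ i, z i) / γ) ^ (3 / 2 : ℝ) * √r) := by ring


end Pool.Agent.H35.TC
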