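import Pool.Agent.H35.TC.Spl
import Pool.Agent.H35.TC.BI
import Pool.Agent.H50.TM.MeanV

/-!
# Module ShellQ: lower bound of the charge of an ion

Integrate `φ = ∑_j ph_j` (`phi_sum`) over the shell `S = B(R i, 2s) \ B(R i, s)`, `|S| = (28π/3) s³`.
* `∫_S φ ≥ |S| μ t/(2s) = (14π/3) μ t s²` (`hb`; `‖x - R i‖ ≤ 2s`, `t ≤ s`; nuclei have measure 0, and other nuclei are not in `S`).
* `y ∈ B(R i, r)`, `r ≤ s`: `∫_S 1/‖x-y‖ dx = 2π((2s)² - ‖y-R i‖²/3) - 2π(s² - ‖y-R i‖²/3) = 6π s²` (MeanV: ball average `kap`), so (Fubini) `∫_S ph_i = 6π s² (z_i - n_i)`.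
* `j ≠ i`: `∫_S ph_j ≤ z_j ∫_S 1/‖x - R j‖ = z_j |S|/‖R i - R j‖ ≤ z_j |S|/d` (`‖R i - R j‖ ≥ d ≥ 2s`; Newton outside).
So `(14π/3) μ t s² ≤ 6π s² (z_i - n_i) + (28π/3) s³ Z/d`.
-/

set_option autoImplicit false

open MeasureTheory Set Filter Topology
open scoped ENNReal NNReal

namespace Pool.Agent.H35.TC

open Pool.Agent.H23.TF Pool.Agent.H50.TM

variable {γ μ r d ε : ℝ} {k : ℕ} {R : Fin k → E3} {z : Fin k → ℝ} {ρ : E3 → ℝ}

private theorem sq_vol (x : E3) {r : ℝ} (hr : 0 < r) : (volume : Measure E3).real (Metric.ball x r) = 4 / 3 * Real.pi * r ^ 3 := by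
  rw [Measure.real, volume_ball_real x hr.le, ENNReal.toReal_ofReal]
  have := Real.pi_pos
  positivity

/-- integral of the Coulomb kernel over a ball -/
private theorem sq_int (x y : E3) {r : ℝ} (hr : 0 < r) :
    ∫ u in Metric.ball x r, 1 / ‖u - y‖ = 4 / 3 * Real.pi * r ^ 3 * kap r ‖x - y‖ := by
  have h := ball_avg x y hr
  rw [setAverage_eq, sq_vol x hr, smul_eq_mul] at h
  rw [← h]
  have := Real.pi_pos
  field_simp

/-- integral of a potential over a ball -/
private theorem sq_G {f : E3 → ℝ} (hf : Ld f) (x : E3) {r : ℝ} (hr : 0 < r) :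
    ∫ u in Metric.ball x r, G f u = 4 / 3 * Real.pi * r ^ 3 * ∫ y, kap r ‖x - y‖ * f y := by
  have h1 := G_mv hf x hr
  have hk : Integrable (fun y => kap r ‖x - y‖ * f y) := by
    refine ((hf.int_div x).sub (kap_int hf x hr)).congr (Eventually.of_forall fun y => ?_)
    simp only [Pi.sub_apply]
    ring
  have e1 : ∫ y, (1 / ‖x - y‖ - kap r ‖x - y‖) * f y = G f x - ∫ y, kap r ‖x - y‖ * f y := by
    unfold G
    rw [← integral_sub (hf.int_div x) hk]
    congr 1
    funext y
    ring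
  rw [e1, setAverage_eq, sq_vol x hr, smul_eq_mul] at h1
  have h2 : (4 / 3 * Real.pi * r ^ 3)⁻¹ * ∫ u in Metric.ball x r, G f u = ∫ y, kap r ‖x - y‖ * f y := by linarith
  rw [← h2]
  have := Real.pi_pos
  field_simp

private theorem sq_shell {f : E3 → ℝ} (c : E3) {s : ℝ} (hs : 0 < s) (hf : IntegrableOn f (Metric.ball c (2 * s))) :
    ∫ x in Metric.ball c (2 * s) \ Metric.ball c s, f x = (∫ x in Metric.ball c (2 * s), f x) - ∫ x in Metric.ball c s, f x := by
  have hsub : Metric.ball c s ⊆ Metric.ball c (2 * s) := Metric.ball_subset_ball (by linarith)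
  exact setIntegral_sdiff Metric.isOpen_ball.measurableSet hf hsub

theorem Ions.shell_q (h : Ions γ μ R z ρ r d ε) (i : Fin k) {t s : ℝ} (ht : 0 < t) (hts : t ≤ s) (hrs : r ≤ s) (hsd : 2 * s ≤ d)
    (hb : ∀ x, t < ‖x - R i‖ → (∀ j, x ≠ R j) → μ * t / ‖x - R i‖ ≤ phi R z ρ x) :
    7 / 9 * (μ * t) - 14 / 9 * (s * (∑ j, z j) / d) ≤ z i - ni R r ρ i := by
  have hs : 0 < s := lt_of_lt_of_le ht hts
  have hd : 0 < d := by linarith
  have hpi := Real.pi_pos
  have hLd : ∀ j, Ld (pc R r ρ j) := fun j =>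
    Ld.of_nonneg (h.pc_dn j).nonneg (h.pc_dn j).int (h.pc_dn j).int53
  set c := R i with hc
  set S := Metric.ball c (2 * s) \ Metric.ball c s with hS
  have hSm : MeasurableSet S := Metric.isOpen_ball.measurableSet.diff Metric.isOpen_ball.measurableSet
  -- integrability
  have hin1 : ∀ j, IntegrableOn (fun x => z j / ‖x - R j‖) (Metric.ball c (2 * s)) := by
    intro j
    have h1 := (ball_int c (R j) (2 * s)).const_mul (z j)
    refine h1.congr (Eventually.of_forall fun x => ?_)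
    show z j * (1 / ‖x - R j‖) = z j / ‖x - R j‖
    ring
  have hin2 : ∀ j, IntegrableOn (G (pc R r ρ j)) (Metric.ball c (2 * s)) := fun j => G_int_ball (hLd j) c (2 * s)
  have hin : ∀ j, IntegrableOn (ph R z r ρ j) (Metric.ball c (2 * s)) := fun j => (hin1 j).sub (hin2 j)
  have hSsub : S ⊆ Metric.ball c (2 * s) := sdiff_subset
  -- the volume of the shell
  have hvol : (volume : Measure E3).real S = 28 / 3 * Real.pi * s ^ 3 := by
    have h1 : (volume : Measure E3).real S = ∫ x in S, (1 : ℝ) := by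
      rw [setIntegral_const, smul_eq_mul, mul_one]
    have h2 : IntegrableOn (fun _ : E3 => (1 : ℝ)) (Metric.ball c (2 * s)) :=
      integrableOn_const (measure_ball_lt_top).ne
    rw [h1, sq_shell c hs h2, setIntegral_const, setIntegral_const, sq_vol c (by linarith : (0 : ℝ) < 2 * s), sq_vol c hs,
      smul_eq_mul, smul_eq_mul]
    ring
  -- the own ion
  have hown1 : ∫ x in S, z i / ‖x - R i‖ = 6 * Real.pi * s ^ 2 * z i := by
    rw [sq_shell c hs (hin1 i)]
    have e : ∀ t : ℝ, 0 < t → ∫ x in Metric.ball c t, z i / ‖x - R i‖ = z i * (4 / 3 * Real.pi * t ^ 3 * kap t ‖c - c‖) := by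
      intro t ht'
      rw [← sq_int c c ht', ← integral_const_mul]
      congr 1
      funext x
      rw [← hc]
      ring
    rw [e _ (by linarith : (0 : ℝ) < 2 * s), e _ hs, sub_self, norm_zero]
    unfold kap
    rw [if_pos (by linarith), if_pos hs]
    field_simp
    ring
  have hown2 : ∫ x in S, G (pc R r ρ i) x = 6 * Real.pi * s ^ 2 * ni R r ρ i := by
    rw [sq_shell c hs (hin2 i), sq_G (hLd i) c (by linarith : (0 : ℝ) < 2 * s), sq_G (hLd i) c hs]
    have hk : ∀ t : ℝ, 0 < t → Integrable (fun y => kap t ‖c - y‖ * pc R r ρ i y) := by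
      intro t ht'
      refine (((hLd i).int_div c).sub (kap_int (hLd i) c ht')).congr (Eventually.of_forall fun y => ?_)
      simp only [Pi.sub_apply]
      ring
    rw [← integral_const_mul, ← integral_const_mul, ← integral_sub ((hk _ (by linarith)).const_mul _) ((hk _ hs).const_mul _)]
    unfold ni
    rw [← integral_const_mul]
    congr 1
    funext y
    unfold pc
    by_cases hy : ‖y - R i‖ < r
    · rw [if_pos hy]
      have hy1 : ‖c - y‖ < s := by
        rw [norm_sub_rev]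
        exact lt_of_lt_of_le hy hrs
      unfold kap
      rw [if_pos hy1, if_pos (by linarith : ‖c - y‖ < 2 * s)]
      field_simp
      ring
    · rw [if_neg hy]
      ring
  have hown : ∫ x in S, ph R z r ρ i x = 6 * Real.pi * s ^ 2 * (z i - ni R r ρ i) := by
    unfold ph
    rw [integral_sub ((hin1 i).mono_set hSsub) ((hin2 i).mono_set hSsub), hown1, hown2]
    ring
  -- the other ions
  have hoth : ∀ j ∈ Finset.univ.erase i, ∫ x in S, ph R z r ρ j x ≤ z j * (28 / 3 * Real.pi * s ^ 3 / d) := by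
    intro j hj
    have hji : j ≠ i := (Finset.mem_erase.1 hj).1
    have hD : d ≤ ‖c - R j‖ := h.hd i j (Ne.symm hji)
    have hDpos : 0 < ‖c - R j‖ := lt_of_lt_of_le hd hD
    have h1 : ∫ x in S, ph R z r ρ j x ≤ ∫ x in S, z j / ‖x - R j‖ := by
      refine setIntegral_mono ((hin j).mono_set hSsub) ((hin1 j).mono_set hSsub) fun x => ?_
      show z j / ‖x - R j‖ - G (pc R r ρ j) x ≤ z j / ‖x - R j‖
      have := G_nonneg (Eventually.of_forall fun y => (h.pc_dn j).nonneg y) x
      linarith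
    refine h1.trans ?_
    rw [sq_shell c hs (hin1 j)]
    have e : ∀ t : ℝ, 0 < t → t ≤ 2 * s → ∫ x in Metric.ball c t, z j / ‖x - R j‖ = z j * (4 / 3 * Real.pi * t ^ 3 / ‖c - R j‖) := by
      intro t ht' ht2
      have h3 := sq_int c (R j) ht'
      rw [kap_eq (by linarith : t ≤ ‖c - R j‖)] at h3
      have h4 : ∫ x in Metric.ball c t, z j / ‖x - R j‖ = z j * ∫ x in Metric.ball c t, 1 / ‖x - R j‖ := by
        rw [← integral_const_mul]
        congr 1
        funext x
        ring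
      rw [h4, h3]
      ring
    rw [e _ (by linarith) le_rfl, e _ hs (by linarith)]
    have h5 : z j * (4 / 3 * Real.pi * (2 * s) ^ 3 / ‖c - R j‖) - z j * (4 / 3 * Real.pi * s ^ 3 / ‖c - R j‖) =
        z j * (28 / 3 * Real.pi * s ^ 3 / ‖c - R j‖) := by
      ring
    rw [h5]
    exact mul_le_mul_of_nonneg_left (div_le_div_of_nonneg_left (by positivity) hd hD) (h.hz j).le
  -- lower bound
  have hphi : ∀ x, phi R z ρ x = ∑ j, ph R z r ρ j x := fun x => h.phi_sum x
  have hinphi : IntegrableOn (phi R z ρ) S := by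
    have : phi R z ρ = fun x => ∑ j, ph R z r ρ j x := funext hphi
    rw [this]
    exact integrable_finsetSum _ fun j _ => (hin j).mono_set hSsub
  have hlow : 14 / 3 * Real.pi * (μ * t) * s ^ 2 ≤ ∫ x in S, phi R z ρ x := by
    have h1 : ∫ x in S, (μ * t / (2 * s)) = 14 / 3 * Real.pi * (μ * t) * s ^ 2 := by
      rw [setIntegral_const, hvol, smul_eq_mul]
      field_simp
      ring
    rw [← h1]
    have hfin : volume S ≠ ∞ := ((measure_mono hSsub).trans_lt measure_ball_lt_top).ne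
    refine setIntegral_mono_on_ae (integrableOn_const hfin) hinphi hSm ?_
    have hsph : ∀ᵐ x : E3, x ∉ Metric.sphere c s := compl_mem_ae_iff.2 (Measure.addHaar_sphere _ _ _)
    have hnuc : ∀ᵐ x : E3, ∀ j, x ≠ R j := by
      rw [ae_all_iff]
      intro j
      exact compl_mem_ae_iff.2 (measure_singleton (R j))
    filter_upwards [hsph, hnuc] with x hx1 hx2 hx3
    have h2 : ‖x - R i‖ < 2 * s := by
      have := hx3.1
      rwa [Metric.mem_ball, dist_eq_norm] at this
    have h3 : s ≤ ‖x - R i‖ := by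
      have := hx3.2
      rw [Metric.mem_ball, dist_eq_norm, not_lt] at this
      exact this
    have h4 : ‖x - R i‖ ≠ s := by
      intro h5
      exact hx1 (by rw [Metric.mem_sphere, dist_eq_norm]; exact h5)
    have h5 : s < ‖x - R i‖ := lt_of_le_of_ne h3 (Ne.symm h4)
    refine le_trans ?_ (hb x (by linarith) hx2)
    have h6 : 0 < ‖x - R i‖ := by linarith
    exact div_le_div_of_nonneg_left (mul_nonneg h.hμ.le ht.le) h6 h2.le
  have hup : ∫ x in S, phi R z ρ x ≤ 6 * Real.pi * s ^ 2 * (z i - ni R r ρ i) + 28 / 3 * Real.pi * s ^ 3 / d * ∑ j, z j := by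
    have h1 : ∫ x in S, phi R z ρ x = ∑ j, ∫ x in S, ph R z r ρ j x := by
      rw [← integral_finsetSum _ fun j _ => (hin j).mono_set hSsub]
      congr 1
      funext x
      exact hphi x
    rw [h1, ← Finset.add_sum_erase _ _ (Finset.mem_univ i), hown]
    have h2 := Finset.sum_le_sum hoth
    rw [← Finset.sum_mul] at h2
    have h3 : ∑ j ∈ Finset.univ.erase i, z j ≤ ∑ j, z j :=
      Finset.sum_le_sum_of_subset_of_nonneg (Finset.erase_subset _ _) fun j _ _ => (h.hz j).le
    have h4 : 0 ≤ 28 / 3 * Real.pi * s ^ 3 / d := by positivity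
    have h5 := mul_le_mul_of_nonneg_right h3 h4
    linarith
  have hfin := hlow.trans hup
  have h6 : 14 / 3 * Real.pi * (μ * t) * s ^ 2 = 6 * Real.pi * s ^ 2 * (7 / 9 * (μ * t)) := by ring
  have h7 : 28 / 3 * Real.pi * s ^ 3 / d * ∑ j, z j = 6 * Real.pi * s ^ 2 * (14 / 9 * (s * (∑ j, z j) / d)) := by ring
  rw [h6, h7, ← mul_add] at hfin
  have h8 : 0 < 6 * Real.pi * s ^ 2 := by positivity
  have h9 := le_of_mul_le_mul_left hfin h8
  linarith

end Pool.Agent.H35.TC
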