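import Pool.Agent.H35.TC.Pair
import Pool.Agent.H35.TC.Conv
import Pool.Agent.H35.TC.MassC
import Pool.Agent.H35.TC.Drop
import Pool.Agent.H35.TC.Bar
import Pool.Agent.H35.TC.ShellQ

/-!
# Module FinL: large separation

`μ0, D` from `mu_low`; `r = Z/μ0`; `C = k 26 (Z/γ)^(3/2) √r` (`G_up`); `q0 i = z_i μ0/(μ0 + C)/2 > 0`. For nuclei at distances `≥ d`, `d` large: `μ` from `dual`, `μ ≥ μ0`, `Z ≤ μ r`,
`ε = 2r/d ≤ 1/100`, `Ions`. `t = z_i/(μ + C)`: for `0 < ‖x - R i‖ ≤ t`, `x ≠ R j`: `φ x ≥ z_i/t - C = μ` (all other terms of `V` are `≥ 0`; `G_up`), so `bar`; `t ≤ z_i/μ0 ≤ r =: s`;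
`shell_q`: `z_i - n_i ≥ (7/9) z_i μ/(μ+C) - (14/9) r Z/d ≥ (7/9) z_i μ0/(μ0+C) - (14/9) r Z/d ≥ q0 i` for `d` large. `n_i ≤ z_i`.
`rig`: `40 ε (2z_i)(2z_j) + 192 (Z/(γ d)) r² √(Z r/γ) z_j < q0_i q0_j` for `d` large (left side `= O(1/d)`; take `d` larger than a finite sum of constants). Then `loc_of_locO`.
-/

set_option autoImplicit false

open MeasureTheory Set Filter Topology

namespace Pool.Agent.H35.TC

open Pool.Agent.H23.TF Pool.Agent.H50.TM

variable {γ : ℝ} {k : ℕ} {z : Fin k → ℝ}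

private lemma finL_div {M q L : ℝ} (hq : 0 < q) (hM : 0 ≤ M) (hL : M / q < L) : M / L < q := by
  have hL0 : 0 < L := lt_of_le_of_lt (div_nonneg hM hq.le) hL
  rw [div_lt_iff₀ hL0]
  rw [div_lt_iff₀ hq] at hL
  linarith

theorem large_loc (hγ : 0 < γ) (hk : 2 ≤ k) (hz : ∀ i, 0 < z i) {N : ℝ} (hN : 0 < N) (hNZ : N < ∑ i, z i) :
    ∃ L : ℝ, 0 < L ∧ ∀ R : Fin k → E3, (∀ i j, i ≠ j → L ≤ ‖R i - R j‖) → Loc γ R z N := by
  obtain ⟨μ0, D, hμ0, hD, hlow⟩ := mu_low hγ hz hN.le hNZ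
  set Z : ℝ := ∑ i, z i with hZ
  have hZ0 : 0 < Z := hN.trans hNZ
  have hzZ : ∀ i, z i ≤ Z := fun i =>
    Finset.single_le_sum (f := z) (fun j _ => (hz j).le) (Finset.mem_univ i)
  set r : ℝ := Z / μ0 with hr
  have hr0 : 0 < r := div_pos hZ0 hμ0
  set C : ℝ := k * (26 * ((Z / γ) ^ (3 / 2 : ℝ) * √r)) with hC
  have hC0 : 0 ≤ C := by
    have : 0 ≤ (Z / γ) ^ (3 / 2 : ℝ) := Real.rpow_nonneg (div_pos hZ0 hγ).le _
    positivity
  set X : Fin k → ℝ := fun i => z i * μ0 / (μ0 + C) with hX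
  have hμC : 0 < μ0 + C := by linarith
  have hX0 : ∀ i, 0 < X i := fun i => div_pos (mul_pos (hz i) hμ0) hμC
  set M : Fin k → Fin k → ℝ := fun i j =>
    320 * r * (z i * z j) + 192 * (Z / γ) * (r ^ 2 * √(Z * r / γ)) * z j with hM
  have hM0 : ∀ i j, 0 ≤ M i j := fun i j => by
    have := hz i
    have := hz j
    show 0 ≤ 320 * r * (z i * z j) + 192 * (Z / γ) * (r ^ 2 * √(Z * r / γ)) * z j
    positivity
  have hA0 : ∀ i, 0 ≤ 28 / 5 * (r * Z) / X i := fun i => by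
    have := hX0 i
    positivity
  have hB0 : ∀ i j, 0 ≤ M i j / (X i / 2 * (X j / 2)) := fun i j => by
    have h1 := hX0 i
    have h2 := hX0 j
    have h3 := hM0 i j
    positivity
  set L : ℝ := 1 + D + 200 * r + (∑ i, 28 / 5 * (r * Z) / X i) +
    ∑ i, ∑ j, M i j / (X i / 2 * (X j / 2)) with hL
  have hS1 : 0 ≤ ∑ i, 28 / 5 * (r * Z) / X i := Finset.sum_nonneg fun i _ => hA0 i
  have hS2 : 0 ≤ ∑ i, ∑ j, M i j / (X i / 2 * (X j / 2)) :=
    Finset.sum_nonneg fun i _ => Finset.sum_nonneg fun j _ => hB0 i j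
  have hL0 : 0 < L := by linarith
  have hLD : D ≤ L := by linarith
  have hLr : 200 * r ≤ L := by linarith
  have hLA : ∀ i, 28 / 5 * (r * Z) / X i < L := fun i => by
    have h1 : 28 / 5 * (r * Z) / X i ≤ ∑ i, 28 / 5 * (r * Z) / X i :=
      Finset.single_le_sum (f := fun i => 28 / 5 * (r * Z) / X i) (fun j _ => hA0 j)
        (Finset.mem_univ i)
    linarith
  have hLB : ∀ i j, M i j / (X i / 2 * (X j / 2)) < L := fun i j => by
    have h1 : M i j / (X i / 2 * (X j / 2)) ≤ ∑ j, M i j / (X i / 2 * (X j / 2)) :=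
      Finset.single_le_sum (f := fun j => M i j / (X i / 2 * (X j / 2))) (fun j _ => hB0 i j)
        (Finset.mem_univ j)
    have h2 : ∑ j, M i j / (X i / 2 * (X j / 2)) ≤ ∑ i, ∑ j, M i j / (X i / 2 * (X j / 2)) :=
      Finset.single_le_sum (f := fun i => ∑ j, M i j / (X i / 2 * (X j / 2)))
        (fun i _ => Finset.sum_nonneg fun j _ => hB0 i j) (Finset.mem_univ i)
    linarith
  refine ⟨L, hL0, fun R hR => ?_⟩
  obtain ⟨μ, hμ, hE⟩ := dual hγ R (fun i => (hz i).le) hN hNZ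
  have hμμ : μ0 ≤ μ := hlow R (fun i j hij => hLD.trans (hR i j hij)) μ hμ hE
  obtain ⟨ρ, hρ⟩ := exists_full hγ hμ R fun i => (hz i).le
  have hrμ : ∑ i, z i ≤ μ * r := by
    rw [hr, ← hZ]
    have h1 : μ0 * (Z / μ0) = Z := mul_div_cancel₀ Z hμ0.ne'
    nlinarith [div_pos hZ0 hμ0]
  have hI : Ions γ μ R z ρ r L (2 * r / L) := by
    refine ⟨hγ, hμ, hz, hρ, hr0, hrμ, hR, by positivity, ?_, ?_⟩
    · rw [div_le_iff₀ hL0]
      linarith
    · rw [div_mul_cancel₀ _ hL0.ne']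
  have hG : ∀ x, G ρ x ≤ C := fun x => G_up hγ hμ (fun i => (hz i).le) hρ hr0 hrμ x
  -- lower bound of the charges
  have hq : ∀ i, X i / 2 ≤ z i - ni R r ρ i := by
    intro i
    have hzi := hz i
    have hμC' : 0 < μ + C := by linarith
    have ht : 0 < z i / (μ + C) := div_pos hzi hμC'
    have htr : z i / (μ + C) ≤ r := by
      rw [hr]
      exact div_le_div₀ hZ0.le (hzZ i) hμ0 (by linarith)
    have hb : ∀ x, ‖x - R i‖ ≤ z i / (μ + C) → (∀ j, x ≠ R j) → μ ≤ phi R z ρ x := by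
      intro x hx hxR
      have hxi : 0 < ‖x - R i‖ := norm_pos_iff.2 (sub_ne_zero.2 (hxR i))
      have h1 : z i / ‖x - R i‖ ≤ V R z x := by
        unfold V
        exact Finset.single_le_sum (f := fun j => z j / ‖x - R j‖)
          (fun j _ => div_nonneg (hz j).le (norm_nonneg _)) (Finset.mem_univ i)
      have h2 : μ + C ≤ z i / ‖x - R i‖ := by
        rw [le_div_iff₀ hxi]
        rw [le_div_iff₀ hμC'] at hx
        linarith
      have h3 := hG x
      show μ ≤ V R z x - G ρ x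
      linarith
    have h4 := hI.shell_q i ht htr le_rfl (by linarith) fun x hx hxR => bar hγ hμ hz hρ i ht hb hx hxR
    have h5 : X i ≤ μ * (z i / (μ + C)) := by
      show z i * μ0 / (μ0 + C) ≤ μ * (z i / (μ + C))
      rw [← mul_div_assoc, div_le_div_iff₀ hμC hμC']
      have : 0 ≤ z i * C * (μ - μ0) := mul_nonneg (mul_nonneg hzi.le hC0) (by linarith)
      nlinarith
    have h6 : 14 / 9 * (r * (∑ j, z j) / L) ≤ 5 / 18 * X i := by
      have h7 := hLA i
      rw [div_lt_iff₀ (hX0 i)] at h7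
      rw [← hZ]
      have h8 : r * Z / L ≤ 5 / 28 * X i := by
        rw [div_le_iff₀ hL0]
        linarith
      linarith
    have := hX0 i
    linarith
  have hn : ∀ i, ni R r ρ i ≤ z i := fun i => by
    have h1 := hq i
    have h2 := hX0 i
    linarith
  refine loc_of_locO hγ hμ (fun i => (hz i).le) hN.le hE (hI.rig hk hn fun i j hij => ?_)
  have h1 := hq i
  have h2 := hq j
  have hi0 := hI.ni_nonneg i
  have hj0 := hI.ni_nonneg j
  have hXi := hX0 i
  have hXj := hX0 j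
  have h3 : X i / 2 * (X j / 2) ≤ (z i - ni R r ρ i) * (z j - ni R r ρ j) :=
    mul_le_mul h1 h2 (by linarith) (by linarith)
  have h4 : (z i + ni R r ρ i) * (z j + ni R r ρ j) ≤ 2 * z i * (2 * z j) := by
    have := hn i
    have := hn j
    have := hz i
    have := hz j
    exact mul_le_mul (by linarith) (by linarith) (by linarith) (by linarith)
  have h5 : M i j / L < X i / 2 * (X j / 2) := finL_div (by positivity) (hM0 i j) (hLB i j)
  have h6 : 40 * (2 * r / L) * ((z i + ni R r ρ i) * (z j + ni R r ρ j)) ≤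
      40 * (2 * r / L) * (2 * z i * (2 * z j)) :=
    mul_le_mul_of_nonneg_left h4 (by positivity)
  have h7 : 40 * (2 * r / L) * (2 * z i * (2 * z j)) +
      192 * (Z / (γ * L)) * (r ^ 2 * √(Z * r / γ)) * z j = M i j / L := by
    show _ = (320 * r * (z i * z j) + 192 * (Z / γ) * (r ^ 2 * √(Z * r / γ)) * z j) / L
    field_simp
    ring
  rw [← hZ]
  linarith

end Pool.Agent.H35.TC
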