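import Pool.Agent.H35.TC.Defs
import Pool.Agent.H50.TM.SupC

/-!
# Module PosLoc: local strict convexity where the energy is positive

`lower` of SupC (make it public there, or copy it): there is `A ≥ 0` with `κ⁻¹ (En R + A) - κ^(1/2) A ≤ En (κ R)` for all `κ > 0`. Add it for `κ = 1 + h`, `κ = 1 - h`, `|h| < 1/2`:
`(1+h)⁻¹ + (1-h)⁻¹ = 2/(1-h²) ≥ 2 + 2h²`, `(1+h)^(1/2) + (1-h)^(1/2) ≤ 2` (`κ^(1/2) ≤ (1+κ)/2`): `≥ 2 En R + 2 (En R + A) h²`. `c = 2 En R > 0`.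
-/

set_option autoImplicit false

open MeasureTheory Set Filter Topology
open scoped ENNReal NNReal

namespace Pool.Agent.H35.TC

open Pool.Agent.H23.TF Pool.Agent.H50.TM

variable {γ μ : ℝ} {k : ℕ} {R : Fin k → E3} {z : Fin k → ℝ} {ρ : E3 → ℝ}

/-- the dilated density -/
private noncomputable def sc (κ : ℝ) (σ : E3 → ℝ) (x : E3) : ℝ := κ ^ 3 * σ (κ • x)

private lemma int_sc {κ : ℝ} (hκ : 0 < κ) (f : E3 → ℝ) : ∫ x, f (κ • x) = (κ ^ 3)⁻¹ * ∫ x, f x := by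
  rw [Measure.integral_comp_smul, finrank_euclideanSpace_fin, abs_of_pos (by positivity), smul_eq_mul]

private lemma sc_pow {κ : ℝ} (hκ : 0 < κ) {σ : E3 → ℝ} (h0 : ∀ x, 0 ≤ σ x) (x : E3) :
    sc κ σ x ^ (5 / 3 : ℝ) = κ ^ 5 * σ (κ • x) ^ (5 / 3 : ℝ) := by
  unfold sc
  rw [Real.mul_rpow (by positivity) (h0 _)]
  congr 1
  rw [← Real.rpow_natCast κ 3, ← Real.rpow_mul hκ.le, ← Real.rpow_natCast κ 5]
  norm_num

private lemma sc_dn {κ : ℝ} (hκ : 0 < κ) {σ : E3 → ℝ} (h : DN σ) : DN (sc κ σ) := by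
  refine ⟨fun x => mul_nonneg (by positivity) (h.nonneg _), (h.int.comp_smul hκ.ne').const_mul _, ?_⟩
  have e : (fun x => sc κ σ x ^ (5 / 3 : ℝ)) = fun x => κ ^ 5 * σ (κ • x) ^ (5 / 3 : ℝ) :=
    funext (sc_pow hκ h.nonneg)
  rw [e]
  exact (h.int53.comp_smul hκ.ne').const_mul _

private lemma sc_mass {κ : ℝ} (hκ : 0 < κ) (σ : E3 → ℝ) : ∫ x, sc κ σ x = ∫ x, σ x := by
  unfold sc
  rw [integral_const_mul, int_sc hκ]
  field_simp

private lemma sc_K {κ : ℝ} (hκ : 0 < κ) {σ : E3 → ℝ} (h0 : ∀ x, 0 ≤ σ x) :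
    ∫ x, sc κ σ x ^ (5 / 3 : ℝ) = κ ^ 2 * ∫ x, σ x ^ (5 / 3 : ℝ) := by
  simp_rw [sc_pow hκ h0]
  rw [integral_const_mul, int_sc hκ (fun x => σ x ^ (5 / 3 : ℝ))]
  field_simp

private lemma norm_sc {κ : ℝ} (hκ : 0 < κ) (x y : E3) : ‖κ • x - κ • y‖ = κ * ‖x - y‖ := by
  rw [← smul_sub, norm_smul, Real.norm_eq_abs, abs_of_pos hκ]

private lemma sc_V {κ : ℝ} (hκ : 0 < κ) (R : Fin k → E3) (z : Fin k → ℝ) (σ : E3 → ℝ) :
    ∫ x, V R z x * sc κ σ x = κ * ∫ x, V (fun i => κ • R i) z x * σ x := by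
  have e : ∀ x, V R z x * sc κ σ x = κ ^ 4 * (V (fun i => κ • R i) z (κ • x) * σ (κ • x)) := by
    intro x
    have e1 : V (fun i => κ • R i) z (κ • x) = κ⁻¹ * V R z x := by
      unfold V
      rw [Finset.mul_sum]
      refine Finset.sum_congr rfl fun j _ => ?_
      rw [norm_sc hκ, div_mul_eq_div_div, ← div_eq_inv_mul, div_right_comm]
    rw [e1]
    unfold sc
    field_simp
  simp_rw [e]
  rw [integral_const_mul, int_sc hκ (fun x => V (fun i => κ • R i) z x * σ x)]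
  field_simp

private lemma sc_G {κ : ℝ} (hκ : 0 < κ) (σ : E3 → ℝ) (x : E3) : G (sc κ σ) x = κ * G σ (κ • x) := by
  unfold G
  have e : ∀ y, sc κ σ y / ‖x - y‖ = κ ^ 4 * (σ (κ • y) / ‖κ • x - κ • y‖) := by
    intro y
    rw [norm_sc hκ]
    unfold sc
    rcases eq_or_ne ‖x - y‖ 0 with h | h
    · rw [h, mul_zero, div_zero, div_zero, mul_zero]
    · field_simp
  simp_rw [e]
  rw [integral_const_mul, int_sc hκ (fun y => σ y / ‖κ • x - y‖)]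
  field_simp

private lemma sc_D {κ : ℝ} (hκ : 0 < κ) (σ : E3 → ℝ) :
    ∫ x, sc κ σ x * G (sc κ σ) x = κ * ∫ x, σ x * G σ x := by
  have e : ∀ x, sc κ σ x * G (sc κ σ) x = κ ^ 4 * (σ (κ • x) * G σ (κ • x)) := by
    intro x
    rw [sc_G hκ]
    unfold sc
    ring
  simp_rw [e]
  rw [integral_const_mul, int_sc hκ (fun x => σ x * G σ x)]
  field_simp

private lemma U_sc {κ : ℝ} (hκ : 0 < κ) (R : Fin k → E3) (z : Fin k → ℝ) :
    U (fun i => κ • R i) z = κ⁻¹ * U R z := by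
  unfold U
  rw [Finset.mul_sum]
  refine Finset.sum_congr rfl fun i _ => ?_
  rw [Finset.mul_sum]
  refine Finset.sum_congr rfl fun j _ => ?_
  rw [norm_sc hκ, div_mul_eq_div_div, ← div_eq_inv_mul, div_right_comm]

private lemma tf_sc {κ : ℝ} (hκ : 0 < κ) (γ : ℝ) (R : Fin k → E3) (z : Fin k → ℝ) {σ : E3 → ℝ} (h0 : ∀ x, 0 ≤ σ x) :
    tf γ (fun i => κ • R i) z σ = κ⁻¹ * (κ⁻¹ * (3 / 5 * γ * ∫ x, sc κ σ x ^ (5 / 3 : ℝ))
      - (∫ x, V R z x * sc κ σ x) + 1 / 2 * (∫ x, sc κ σ x * G (sc κ σ) x) + U R z) := by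
  rw [tf_eq, sc_K hκ h0, sc_V hκ, sc_D hκ, U_sc hκ]
  field_simp

/-- pointwise Young inequality -/
private lemma yg (hγ : 0 < γ) {κ : ℝ} (hκ : 0 < κ) (v : ℝ) {t : ℝ} (ht : 0 ≤ t) :
    (v - μ) * t ≤ κ⁻¹ * (3 / 5 * γ) * t ^ (5 / 3 : ℝ) + 2 / 5 * γ * κ ^ (3 / 2 : ℝ) * jj γ μ v ^ (5 / 3 : ℝ) := by
  set r := max (v - μ) 0 / γ with hr
  have hr0 : 0 ≤ r := div_nonneg (le_max_right _ _) hγ.le
  have h1 : v - μ ≤ γ * r := by
    rw [hr, mul_div_cancel₀ _ hγ.ne']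
    exact le_max_left _ _
  have hj : jj γ μ v ^ (5 / 3 : ℝ) = r ^ (5 / 2 : ℝ) := by
    unfold jj
    rw [← Real.rpow_mul hr0]
    norm_num
  have hy := Real.young_inequality_of_nonneg (a := (κ ^ (3 / 5 : ℝ))⁻¹ * t) (b := κ ^ (3 / 5 : ℝ) * r)
    (p := 5 / 3) (q := 5 / 2) (by positivity) (by positivity) (by
      rw [Real.holderConjugate_iff]
      norm_num)
  have e1 : (κ ^ (3 / 5 : ℝ))⁻¹ * t * (κ ^ (3 / 5 : ℝ) * r) = r * t := by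
    have : κ ^ (3 / 5 : ℝ) ≠ 0 := (Real.rpow_pos_of_pos hκ _).ne'
    field_simp
  have e2 : ((κ ^ (3 / 5 : ℝ))⁻¹ * t) ^ (5 / 3 : ℝ) = κ⁻¹ * t ^ (5 / 3 : ℝ) := by
    rw [Real.mul_rpow (by positivity) ht, Real.inv_rpow (by positivity), ← Real.rpow_mul hκ.le]
    norm_num
  have e3 : (κ ^ (3 / 5 : ℝ) * r) ^ (5 / 2 : ℝ) = κ ^ (3 / 2 : ℝ) * r ^ (5 / 2 : ℝ) := by
    rw [Real.mul_rpow (by positivity) hr0, ← Real.rpow_mul hκ.le]
    norm_num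
  rw [e1, e2, e3] at hy
  rw [hj]
  calc (v - μ) * t ≤ γ * r * t := mul_le_mul_of_nonneg_right h1 ht
    _ = γ * (r * t) := by ring
    _ ≤ γ * (κ⁻¹ * t ^ (5 / 3 : ℝ) / (5 / 3) + κ ^ (3 / 2 : ℝ) * r ^ (5 / 2 : ℝ) / (5 / 2)) :=
        mul_le_mul_of_nonneg_left hy hγ.le
    _ = _ := by ring

/-- the equality case -/
private lemma yeq (hγ : 0 < γ) (v : ℝ) : (v - μ) * jj γ μ v = γ * jj γ μ v ^ (5 / 3 : ℝ) := by
  rcases le_or_gt v μ with h | h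
  · rw [jj_of_le h, Real.zero_rpow (by norm_num), mul_zero, mul_zero]
  · have h0 : 0 < (v - μ) / γ := div_pos (by linarith) hγ
    have hj : jj γ μ v = ((v - μ) / γ) ^ (3 / 2 : ℝ) := by
      unfold jj
      rw [max_eq_left (by linarith)]
    rw [hj, ← Real.rpow_mul h0.le]
    have e1 : ((v - μ) / γ) ^ ((3 / 2 : ℝ) * (5 / 3)) = ((v - μ) / γ) ^ (3 / 2 : ℝ) * ((v - μ) / γ) := by
      have : ((v - μ) / γ) ^ ((3 / 2 : ℝ) * (5 / 3)) = ((v - μ) / γ) ^ ((3 / 2 : ℝ) + 1) := by norm_num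
      rw [this, Real.rpow_add_one h0.ne']
    rw [e1]
    field_simp

private lemma lower_int (hγ : 0 < γ) (h : IsTF γ μ R z ρ) {s : E3 → ℝ} (hs : DN s) {κ : ℝ} (hκ : 0 < κ) :
    -(2 / 5 * γ * κ ^ (3 / 2 : ℝ) * ∫ x, ρ x ^ (5 / 3 : ℝ)) - 1 / 2 * (∫ x, ρ x * G ρ x) - μ * (∫ x, s x) ≤
      κ⁻¹ * (3 / 5 * γ * ∫ x, s x ^ (5 / 3 : ℝ)) - (∫ x, V R z x * s x) + 1 / 2 * (∫ x, s x * G s x) := by
  have hρ := h.dn hγ
  have lρ := hρ.ld
  have ls := hs.ld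
  have a2 : Integrable (fun x => V R z x * s x) := ls.int_V R z
  have b1 : Integrable (fun x => ρ x * G ρ x) := lρ.int_mul_G lρ
  have b2 : Integrable (fun x => s x * G ρ x) := ls.int_mul_G lρ
  have b3 : Integrable (fun x => s x * G s x) := ls.int_mul_G ls
  have b4 : Integrable (fun x => ρ x * G s x) := lρ.int_mul_G ls
  have c1 : Integrable (fun x => V R z x * s x - s x * G ρ x) := a2.sub b2
  have c2 : Integrable (fun x => V R z x * s x - s x * G ρ x - μ * s x) := c1.sub (hs.int.const_mul μ)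
  have d1 : Integrable (fun x => κ⁻¹ * (3 / 5 * γ) * s x ^ (5 / 3 : ℝ)) := hs.int53.const_mul _
  have d2 : Integrable (fun x => 2 / 5 * γ * κ ^ (3 / 2 : ℝ) * ρ x ^ (5 / 3 : ℝ)) := hρ.int53.const_mul _
  have k1 : ∫ x, (V R z x * s x - s x * G ρ x - μ * s x) ≤
      ∫ x, (κ⁻¹ * (3 / 5 * γ) * s x ^ (5 / 3 : ℝ) + 2 / 5 * γ * κ ^ (3 / 2 : ℝ) * ρ x ^ (5 / 3 : ℝ)) := by
    refine integral_mono c2 (d1.add d2) fun x => ?_
    have h1 := yg (μ := μ) hγ hκ (V R z x - G ρ x) (hs.nonneg x)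
    rw [← h.eq x] at h1
    simp only
    linarith
  rw [integral_add d1 d2, integral_const_mul, integral_const_mul, integral_sub c1 (hs.int.const_mul μ),
    integral_sub a2 b2, integral_const_mul] at k1
  have e1 : ∫ x, (s x - ρ x) * G (fun y => s y - ρ y) x =
      (∫ x, s x * G s x) - (∫ x, s x * G ρ x) - (∫ x, ρ x * G s x) + ∫ x, ρ x * G ρ x := by
    have e0 : ∀ x, (s x - ρ x) * G (fun y => s y - ρ y) x =
        s x * G s x - s x * G ρ x - ρ x * G s x + ρ x * G ρ x := by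
      intro x
      rw [G_sub ls lρ x]
      ring
    simp_rw [e0]
    have c1 : Integrable (fun x => s x * G s x - s x * G ρ x) := b3.sub b2
    have c2 : Integrable (fun x => s x * G s x - s x * G ρ x - ρ x * G s x) := c1.sub b4
    rw [integral_add c2 b1, integral_sub c1 b4, integral_sub b3 b2]
  have e2 := G_symm lρ ls
  have e3 := pos (ls.sub lρ)
  rw [e1, e2] at e3
  nlinarith

private lemma gc_val (hγ : 0 < γ) (h : IsTF γ μ R z ρ) :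
    gc γ μ R z ρ = -(2 / 5 * γ * ∫ x, ρ x ^ (5 / 3 : ℝ)) - 1 / 2 * (∫ x, ρ x * G ρ x) + U R z := by
  have hρ := h.dn hγ
  have lρ := hρ.ld
  have a2 : Integrable (fun x => V R z x * ρ x) := lρ.int_V R z
  have b1 : Integrable (fun x => ρ x * G ρ x) := lρ.int_mul_G lρ
  have c1 : Integrable (fun x => V R z x * ρ x - ρ x * G ρ x) := a2.sub b1
  have e : ∫ x, (V R z x * ρ x - ρ x * G ρ x - μ * ρ x) = ∫ x, γ * ρ x ^ (5 / 3 : ℝ) := by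
    congr 1
    funext x
    have h1 := yeq (μ := μ) hγ (V R z x - G ρ x)
    rw [← h.eq x] at h1
    rw [← h1]
    ring
  rw [integral_sub c1 (hρ.int.const_mul μ), integral_sub a2 b1, integral_const_mul, integral_const_mul] at e
  unfold gc
  rw [tf_eq]
  linarith

/-- the lower bound, with equality for `κ = 1` -/
private lemma lower (hγ : 0 < γ) (hz : ∀ i, 0 < z i) {N : ℝ} (hN : 0 < N) (hNZ : N < ∑ i, z i) (R : Fin k → E3) :
    ∃ A : ℝ, 0 ≤ A ∧ ∀ κ : ℝ, 0 < κ →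
      κ⁻¹ * (En γ R z N + A) - κ ^ (1 / 2 : ℝ) * A ≤ En γ (fun i => κ • R i) z N := by
  obtain ⟨μ, hμ, h1⟩ := dual hγ R (fun i => (hz i).le) hN hNZ
  obtain ⟨ρ, hρ⟩ := exists_full hγ hμ R (fun i => (hz i).le)
  rw [Om_eq hγ hρ, gc_val hγ hρ] at h1
  have hd := hρ.dn hγ
  have hK : 0 ≤ ∫ x, ρ x ^ (5 / 3 : ℝ) := integral_nonneg fun x => Real.rpow_nonneg (hd.nonneg x) _
  refine ⟨2 / 5 * γ * ∫ x, ρ x ^ (5 / 3 : ℝ), by positivity, fun κ hκ => ?_⟩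
  obtain ⟨ρ0, h0⟩ := exists_density hN.le
  refine le_csInf ⟨_, ρ0, h0, rfl⟩ ?_
  rintro e ⟨σ, hσ, rfl⟩
  rw [tf_sc hκ γ R z hσ.nonneg]
  have h2 := lower_int hγ hρ (sc_dn hκ (Density.dn hσ)) hκ
  rw [sc_mass hκ, hσ.mass] at h2
  have e1 : κ ^ (1 / 2 : ℝ) = κ⁻¹ * κ ^ (3 / 2 : ℝ) := by
    have : κ ^ (3 / 2 : ℝ) = κ ^ (1 / 2 : ℝ) * κ := by
      rw [← Real.rpow_add_one hκ.ne']
      norm_num
    rw [this]
    field_simp
  rw [e1, h1]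
  have h3 : 0 < κ⁻¹ := by positivity
  have h4 : (U R z - 1 / 2 * (∫ x, ρ x * G ρ x) - μ * N) - κ ^ (3 / 2 : ℝ) * (2 / 5 * γ * ∫ x, ρ x ^ (5 / 3 : ℝ)) ≤
      κ⁻¹ * (3 / 5 * γ * ∫ x, sc κ σ x ^ (5 / 3 : ℝ))
      - (∫ x, V R z x * sc κ σ x) + 1 / 2 * (∫ x, sc κ σ x * G (sc κ σ) x) + U R z := by
    linarith
  have h5 := mul_le_mul_of_nonneg_left h4 h3.le
  refine le_trans (le_of_eq ?_) h5
  ring

theorem pos_loc (hγ : 0 < γ) (hz : ∀ i, 0 < z i) {N : ℝ} (hN : 0 < N) (hNZ : N < ∑ i, z i) (hE : 0 < En γ R z N) :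
    Loc γ R z N := by
  obtain ⟨A, hA, hl⟩ := lower hγ hz hN hNZ R
  have sq : ∀ κ : ℝ, 0 < κ → κ ^ (1 / 2 : ℝ) ≤ (1 + κ) / 2 := by
    intro κ hκ
    rw [← Real.sqrt_eq_rpow, Real.sqrt_le_left (by positivity)]
    nlinarith [sq_nonneg (κ - 1)]
  refine ⟨2 * En γ R z N, 1 / 2, by positivity, by norm_num, fun h hh => ?_⟩
  obtain ⟨h1, h2⟩ := abs_lt.1 hh
  have p1 : 0 < 1 + h := by linarith
  have p2 : 0 < 1 - h := by linarith
  have a1 := hl (1 + h) p1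
  have a2 := hl (1 - h) p2
  have b1 := mul_le_mul_of_nonneg_right (sq _ p1) hA
  have b2 := mul_le_mul_of_nonneg_right (sq _ p2) hA
  have c0 : 2 + 2 * h ^ 2 ≤ (1 + h)⁻¹ + (1 - h)⁻¹ := by
    rw [← sub_nonneg]
    have : (1 + h)⁻¹ + (1 - h)⁻¹ - (2 + 2 * h ^ 2) = (1 + h)⁻¹ * (1 - h)⁻¹ * (2 * h ^ 4) := by
      field_simp
      ring
    rw [this]
    positivity
  have c1 := mul_le_mul_of_nonneg_right c0 (add_nonneg hE.le hA)
  have c2 : 0 ≤ 2 * h ^ 2 * A := by positivity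
  nlinarith

end Pool.Agent.H35.TC
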