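import Pool.Agent.H35.TC.SmallN
import Pool.Agent.H35.TC.PosLoc
import Pool.Agent.H35.TC.FinL

/-!
# Module Fin: the two convexity theorems

* `conv_small`: `conv_of_loc` with `a = 0`: for `l > 0` the molecule `l R` is injective; `En > 0`: `pos_loc`; `En ≤ 0`: `small_loc`.
* `conv_large`: `conv_of_loc` with `a = L/D`: for `l > L/D`: `‖l R i - l R j‖ ≥ l D > L`; `R` is injective because `D > 0`.
-/

set_option autoImplicit false

open MeasureTheory Set Filter Topology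

namespace Pool.Agent.H35.TC

open Pool.Agent.H23.TF Pool.Agent.H50.TM

theorem conv_small {k : ℕ} (hk : 2 ≤ k) {z : Fin k → ℝ} (hz : ∀ i, 0 < z i) :
    ∃ N0 : ℝ, 0 < N0 ∧ N0 ≤ ∑ i, z i ∧ ∀ γ : ℝ, 0 < γ → ∀ R : Fin k → E3, Function.Injective R → ∀ N : ℝ, 0 < N → N < N0 →
      ConvexOn ℝ (Ioi 0) (fun l : ℝ => En γ (fun i => l • R i) z N) := by
  obtain ⟨N0, h0, h1, h2⟩ := small_loc hk hz
  refine ⟨N0, h0, h1, fun γ hγ R hR N hN hN0 =>
    conv_of_loc hγ hR (fun i => (hz i).le) hN.le le_rfl fun l hl => ?_⟩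
  rcases lt_or_ge 0 (En γ (fun i => l • R i) z N) with hE | hE
  · exact pos_loc hγ hz hN (hN0.trans_le h1) hE
  · exact h2 γ hγ _ (fun i j hij => hR (smul_right_injective E3 hl.ne' hij)) N hN hN0 hE

theorem conv_large {γ : ℝ} (hγ : 0 < γ) {k : ℕ} (hk : 2 ≤ k) {z : Fin k → ℝ} (hz : ∀ i, 0 < z i) {N : ℝ} (hN : 0 < N) (hNZ : N < ∑ i, z i) :
    ∃ L : ℝ, 0 < L ∧ ∀ (R : Fin k → E3) (D : ℝ), 0 < D → (∀ i j, i ≠ j → D ≤ ‖R i - R j‖) →
      ConvexOn ℝ (Ioi (L / D)) (fun l : ℝ => En γ (fun i => l • R i) z N) := by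
  obtain ⟨L, hL, h⟩ := large_loc hγ hk hz hN hNZ
  refine ⟨L, hL, fun R D hD hRD => conv_of_loc hγ ?_ (fun i => (hz i).le) hN.le (by positivity)
    fun l hl => h _ fun i j hij => ?_⟩
  · intro i j hij
    by_contra hne
    have h1 := hRD i j hne
    rw [hij, sub_self, norm_zero] at h1
    linarith
  · have hl0 : 0 < l := lt_of_le_of_lt (by positivity) hl
    rw [← smul_sub, norm_smul, Real.norm_eq_abs, abs_of_pos hl0]
    have h1 : L ≤ l * D := ((div_lt_iff₀ hD).1 hl).le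
    exact h1.trans (mul_le_mul_of_nonneg_left (hRD i j hij) hl0.le)

end Pool.Agent.H35.TC
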