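import Pool.Agent.H50.TM.Main
import Pool.Agent.H35.TC.Fin

/-!
# MP_037fc8_mp : the dilation theorem with the convexity parts
-/

set_option autoImplicit false

open MeasureTheory Set Filter Topology

namespace Pool.Agent.H35.TC

open Pool.Agent.H23.TF Pool.Agent.H50.TM

/-- **Dilation of a molecule**: strict decrease for all molecules, convexity where the energy is nonnegative, for small `N`, for large separation,
and for two equal nuclei. -/
theorem dilation_all (k : ℕ) (hk : 2 ≤ k) (z : Fin k → ℝ) (hz : ∀ i, 0 < z i) :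
    ∃ N0 : ℝ, 0 < N0 ∧ N0 ≤ ∑ i, z i ∧
      ∀ γ N : ℝ, 0 < γ → 0 < N → N < ∑ i, z i → ∃ L : ℝ, 0 < L ∧ ∀ R : Fin k → E3, Function.Injective R →
        (∀ l : ℝ, {e | ∃ ρ, Density N ρ ∧ e = tf γ (fun i => l • R i) z ρ}.Nonempty ∧
          BddBelow {e | ∃ ρ, Density N ρ ∧ e = tf γ (fun i => l • R i) z ρ}) ∧
        StrictAntiOn (fun l : ℝ => En γ (fun i => l • R i) z N) (Ioi 0) ∧
        (N < N0 → ConvexOn ℝ (Ioi 0) (fun l : ℝ => En γ (fun i => l • R i) z N)) ∧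
        (∀ D : ℝ, 0 < D → (∀ i j, i ≠ j → D ≤ ‖R i - R j‖) →
          ConvexOn ℝ (Ioi (L / D)) (fun l : ℝ => En γ (fun i => l • R i) z N)) ∧
        ConvexOn ℝ {l : ℝ | 0 < l ∧ 0 ≤ En γ (fun i => l • R i) z N} (fun l : ℝ => En γ (fun i => l • R i) z N) ∧
        (∃ l0 : ℝ, 0 < l0 ∧ ∀ l : ℝ, 0 < l → l ≤ l0 → 0 ≤ En γ (fun i => l • R i) z N) ∧
        (k = 2 → (∀ i j, z i = z j) → ConvexOn ℝ (Ioi 0) (fun l : ℝ => En γ (fun i => l • R i) z N)) := by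
  obtain ⟨N0, h0, h1, h2⟩ := conv_small hk hz
  refine ⟨N0, h0, h1, fun γ N hγ hN hNZ => ?_⟩
  obtain ⟨L, hL, h3⟩ := conv_large hγ hk hz hN hNZ
  refine ⟨L, hL, fun R hR => ?_⟩
  obtain ⟨a, b, c, d, e⟩ := dilation_thm γ hγ k hk R hR z hz N hN hNZ
  exact ⟨a, b, fun h => h2 γ hγ R hR N hN h, fun D hD hRD => h3 R D hD hRD, c, d, e⟩

end Pool.Agent.H35.TC
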