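import Pool.Agent.H50.TM.TfC
import Pool.Agent.H50.TM.Dual
import Pool.Agent.H50.TM.ExE

/-!
# MP_037fc8_mp, convexity for all molecules: highly ionised molecules, and large separation (helper35)

THEOREM (added to `Pool.Agent.H50.TM.Main`).
* (small `N`) for every `k ≥ 2` and all charges `z` there is `N0 > 0` such that for every `γ > 0`, ALL positions `R` and all `0 < N < N0` the function
  `l ↦ E(N, l R)` is convex on `(0, ∞)` (it is strictly decreasing by `dil`);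
* (large separation) for all `k ≥ 2`, `z`, `γ`, `0 < N < Z` there is `L` such that for all positions with `|R_i - R_j| ≥ D` (`i ≠ j`) the function
  `l ↦ E(N, l R)` is convex on `(L/D, ∞)`.

PROOF. `Om(μ, R)` is the grand canonical energy, `ρ` its minimiser, `φ = V - Gρ`. All electrons are in the balls `B_i = B(R_i, r)`, `r ≥ Z/μ`.
Let `ρ_i = ρ 1_{B_i}` (`pc`), `n_i = ∫ ρ_i` (`ni`), `φ_i = z_i/|x - R_i| - Gρ_i` (`ph`). For the molecule `(1+h) R` use the rigidly translated clouds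
`τ_h = ∑ ρ_i(x - h R_i)` (`tau`) in the DUAL bound (`gc_low`, from positivity of the Coulomb energy and Young)
`Om(R') ≥ U(R') - (1/2) ∫ τ Gτ - ∫ JJ(V_{R'} - Gτ)`, which is an equality for `R' = R`, `τ = ρ`. Taylor expansion of `JJ` and addition of the bounds for `h` and `-h` give
`Om((1+h)R) + Om((1-h)R) - 2 Om(R) ≥ ∑_{i≠j} (h²/|R_i-R_j|) [q_i q_j - 40 ε (z_i+n_i)(z_j+n_j) - κ0 z_j]`, `q_i = z_i - n_i`, `2r ≤ ε |R_i - R_j|`, `κ0` small (`rig`).
So at such an `R` the second difference of `E(N, ·)` along the dilation is `≥ c h²`, `c > 0` (`Loc`). A continuous function with this property at every point is convex (`visc`).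
* small `N`: if `E(N,R) > 0` then `Loc` holds by the scaling bound (`pos_loc`, helper21/helper50/helper35, module SupC). If `E(N,R) ≤ 0` then `U ≤ 60 Z² N^(1/3)/γ` (`hyd`), so all
  distances are `≥ c γ N^(-1/3)`, while `μ ≥ c/(γ N^(2/3))` (`mu_ge`), so the ions are small compared with their distances and `rig` applies.
* large separation: `μ ≥ μ0 > 0` (`drop`), `q_i ≥ q0 > 0` (`bar`, `shell`), and `rig` applies.
-/

set_option autoImplicit false

open MeasureTheory Set Filter Topology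
open scoped ENNReal NNReal

namespace Pool.Agent.H35.TC

open Pool.Agent.H23.TF Pool.Agent.H50.TM

variable {k : ℕ}

/-- part of the density in the ball of radius `r` round nucleus `i` -/
noncomputable def pc (R : Fin k → E3) (r : ℝ) (ρ : E3 → ℝ) (i : Fin k) (x : E3) : ℝ :=
  if ‖x - R i‖ < r then ρ x else 0

/-- its mass -/
noncomputable def ni (R : Fin k → E3) (r : ℝ) (ρ : E3 → ℝ) (i : Fin k) : ℝ := ∫ x, pc R r ρ i x

/-- the potential of ion `i` -/
noncomputable def ph (R : Fin k → E3) (z : Fin k → ℝ) (r : ℝ) (ρ : E3 → ℝ) (i : Fin k) (x : E3) : ℝ :=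
  z i / ‖x - R i‖ - G (pc R r ρ i) x

/-- the electron clouds, translated rigidly with the nuclei `(1+h) R i` -/
noncomputable def tau (R : Fin k → E3) (r : ℝ) (ρ : E3 → ℝ) (h : ℝ) (x : E3) : ℝ :=
  ∑ i, pc R r ρ i (x - h • R i)

/-- change of the potential of the other ions, seen in the frame of ion `i` -/
noncomputable def dlt (R : Fin k → E3) (z : Fin k → ℝ) (r : ℝ) (ρ : E3 → ℝ) (h : ℝ) (i : Fin k) (x : E3) : ℝ :=
  ∑ j ∈ Finset.univ.erase i, (ph R z r ρ j (x + h • (R i - R j)) - ph R z r ρ j x)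

/-- second difference of the Coulomb kernel -/
noncomputable def kk (w v : E3) (h : ℝ) : ℝ := 1 / ‖v + h • w‖ + 1 / ‖v - h • w‖ - 2 / ‖v‖

/-- Lipschitz constant of `h ↦ dlt h i` -/
noncomputable def LL (R : Fin k → E3) (z : Fin k → ℝ) (r : ℝ) (ρ : E3 → ℝ) (i : Fin k) : ℝ :=
  ∑ j ∈ Finset.univ.erase i, 2 * (z j + ni R r ρ j) / ‖R i - R j‖

/-- the coefficient of the error term -/
noncomputable def EE (γ : ℝ) (R : Fin k → E3) (z : Fin k → ℝ) (r : ℝ) (ρ : E3 → ℝ) : ℝ :=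
  6 * r ^ 2 * √((∑ i, z i) * r / γ) / γ * ∑ i, LL R z r ρ i ^ 2

/-- well separated ions: `r ≥ Z/μ`, `2r ≤ ε |R i - R j|`, `ε ≤ 1/100` -/
structure Ions (γ μ : ℝ) (R : Fin k → E3) (z : Fin k → ℝ) (ρ : E3 → ℝ) (r d ε : ℝ) : Prop where
  hγ : 0 < γ
  hμ : 0 < μ
  hz : ∀ i, 0 < z i
  htf : IsTF γ μ R z ρ
  hr : 0 < r
  hrμ : ∑ i, z i ≤ μ * r
  hd : ∀ i j, i ≠ j → d ≤ ‖R i - R j‖
  hε : 0 < ε
  hε1 : ε ≤ 1 / 100
  hrd : 2 * r ≤ ε * d

/-- local strict convexity of `E(N, ·)` along the dilation, at `R` -/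
def Loc (γ : ℝ) (R : Fin k → E3) (z : Fin k → ℝ) (N : ℝ) : Prop :=
  ∃ c δ : ℝ, 0 < c ∧ 0 < δ ∧ ∀ h : ℝ, |h| < δ →
    2 * En γ R z N + c * h ^ 2 ≤ En γ (fun i => (1 + h) • R i) z N + En γ (fun i => (1 - h) • R i) z N

/-- the same for the grand canonical energy -/
def LocO (γ μ : ℝ) (R : Fin k → E3) (z : Fin k → ℝ) : Prop :=
  ∃ c δ : ℝ, 0 < c ∧ 0 < δ ∧ ∀ h : ℝ, |h| < δ →
    2 * Om γ μ R z + c * h ^ 2 ≤ Om γ μ (fun i => (1 + h) • R i) z + Om γ μ (fun i => (1 - h) • R i) z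

end Pool.Agent.H35.TC
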