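import Pool.Agent.H35.TC.Defs

/-!
# Module Spl: the ions

`h : Ions ...`: the balls `B(R i, r)` are disjoint (`2r ≤ ε d ≤ d/100`, `d ≤ ‖R i - R j‖`; `0 < d` because `0 < 2r ≤ ε d`).
* `rho_zero`: outside the balls `V ≤ Z/r ≤ μ` (`V_far`), so `ρ ≤ jj V = 0` (`IsTF.le_V`, `jj_of_le`).
* `rho_sum`: at most one `i` has `‖x - R i‖ < r`.
* `pc_dn`: `DN` (`IsTF.dn`, indicator of a ball). `ni_nonneg`. `ni_le`: `∫ ρ = ∑ ni` (`mass_sum`).
* `phi_sum`: `V = ∑ z_i/‖x - R i‖`, `G` is additive (`G_add`, induction over the finite sum; state a private lemma `G_sum`).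
* `rho_energy`: expand `∫ (∑ pc_i) G (∑ pc_j)`.
-/

set_option autoImplicit false

open MeasureTheory Set Filter Topology
open scoped ENNReal NNReal

namespace Pool.Agent.H35.TC

open Pool.Agent.H23.TF Pool.Agent.H50.TM

variable {γ μ r d ε : ℝ} {k : ℕ} {R : Fin k → E3} {z : Fin k → ℝ} {ρ : E3 → ℝ}

theorem Ions.d_pos (h : Ions γ μ R z ρ r d ε) : 0 < d := by
  have h1 : 0 < ε * d := by linarith [h.hr, h.hrd]
  exact (mul_pos_iff_of_pos_left h.hε).1 h1

theorem Ions.rho_zero (h : Ions γ μ R z ρ r d ε) {x : E3} (hx : ∀ i, r ≤ ‖x - R i‖) : ρ x = 0 := by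
  have hz : ∀ i, 0 ≤ z i := fun i => (h.hz i).le
  have h1 : V R z x ≤ μ := (V_far hz h.hr hx).trans ((div_le_iff₀ h.hr).2 h.hrμ)
  have h2 := h.htf.le_V h.hγ x
  rw [jj_of_le h1] at h2
  exact le_antisymm h2 (h.htf.nonneg h.hγ x)

theorem Ions.disj (h : Ions γ μ R z ρ r d ε) {x : E3} {i j : Fin k} (hi : ‖x - R i‖ < r) (hj : ‖x - R j‖ < r) : i = j := by
  by_contra hij
  have h1 := h.hd i j hij
  have h2 : ‖R i - R j‖ ≤ ‖x - R j‖ + ‖x - R i‖ := by
    have e : R i - R j = (x - R j) - (x - R i) := by abel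
    rw [e]
    exact norm_sub_le _ _
  have h3 := h.hrd
  have h4 : ε * d ≤ 1 / 100 * d := mul_le_mul_of_nonneg_right h.hε1 h.d_pos.le
  have h5 := h.d_pos
  linarith

theorem Ions.rho_sum (h : Ions γ μ R z ρ r d ε) (x : E3) : ρ x = ∑ i, pc R r ρ i x := by
  unfold pc
  by_cases hx : ∃ i, ‖x - R i‖ < r
  · obtain ⟨i, hi⟩ := hx
    rw [Finset.sum_eq_single i]
    · rw [if_pos hi]
    · intro j _ hji
      exact if_neg fun hj => hji (h.disj hj hi)
    · intro hi'
      exact absurd (Finset.mem_univ i) hi'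
  · push Not at hx
    rw [h.rho_zero hx]
    exact (Finset.sum_eq_zero fun i _ => if_neg (not_lt.2 (hx i))).symm

private theorem ball_meas (a : E3) (r : ℝ) : MeasurableSet {x : E3 | ‖x - a‖ < r} :=
  measurableSet_lt (by fun_prop) measurable_const

private theorem pc_eq (R : Fin k → E3) (r : ℝ) (ρ : E3 → ℝ) (i : Fin k) :
    pc R r ρ i = {x : E3 | ‖x - R i‖ < r}.indicator ρ := by
  funext x
  unfold pc
  by_cases hx : ‖x - R i‖ < r
  · rw [if_pos hx, indicator_of_mem (show x ∈ {x : E3 | ‖x - R i‖ < r} from hx)]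
  · rw [if_neg hx, indicator_of_notMem (show x ∉ {x : E3 | ‖x - R i‖ < r} from hx)]

private theorem pc_ld (h : Ions γ μ R z ρ r d ε) (i : Fin k) : Ld (pc R r ρ i) := by
  rw [pc_eq]
  exact h.htf.ld.indicator (ball_meas _ _)

private theorem pc_nonneg (h : Ions γ μ R z ρ r d ε) (i : Fin k) (x : E3) : 0 ≤ pc R r ρ i x := by
  unfold pc
  split_ifs
  · exact h.htf.nonneg h.hγ x
  · exact le_rfl

theorem Ions.pc_dn (h : Ions γ μ R z ρ r d ε) (i : Fin k) : DN (pc R r ρ i) := by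
  have hl := pc_ld h i
  refine ⟨pc_nonneg h i, hl.i1, ?_⟩
  have h1 := hl.i2
  have e : (fun x => |pc R r ρ i x| ^ (5 / 3 : ℝ)) = fun x => pc R r ρ i x ^ (5 / 3 : ℝ) := by
    funext x
    rw [abs_of_nonneg (pc_nonneg h i x)]
  rwa [e] at h1

theorem Ions.pc_meas (h : Ions γ μ R z ρ r d ε) (i : Fin k) : Measurable (pc R r ρ i) := by
  rw [pc_eq]
  exact h.htf.meas.indicator (ball_meas _ _)

theorem Ions.ni_nonneg (h : Ions γ μ R z ρ r d ε) (i : Fin k) : 0 ≤ ni R r ρ i :=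
  integral_nonneg (pc_nonneg h i)

theorem Ions.mass_sum (h : Ions γ μ R z ρ r d ε) : ∫ x, ρ x = ∑ i, ni R r ρ i := by
  unfold ni
  rw [← integral_finsetSum _ fun i _ => (pc_ld h i).i1]
  exact integral_congr_ae (Eventually.of_forall fun x => h.rho_sum x)

private theorem Ld_sum {ι : Type*} (s : Finset ι) {f : ι → E3 → ℝ} (hf : ∀ i ∈ s, Ld (f i)) :
    Ld (fun y => ∑ i ∈ s, f i y) := by
  classical
  induction s using Finset.induction_on with
  | empty => simpa using Ld.zero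
  | insert a s ha ih =>
    have h1 := (hf a (Finset.mem_insert_self a s)).add (ih fun i hi => hf i (Finset.mem_insert_of_mem hi))
    have e : (fun y => ∑ i ∈ insert a s, f i y) = fun y => f a y + ∑ i ∈ s, f i y := by
      funext y
      rw [Finset.sum_insert ha]
    rwa [e]

theorem G_sum {ι : Type*} (s : Finset ι) {f : ι → E3 → ℝ} (hf : ∀ i ∈ s, Ld (f i)) (x : E3) :
    G (fun y => ∑ i ∈ s, f i y) x = ∑ i ∈ s, G (f i) x := by
  unfold G
  rw [← integral_finsetSum _ fun i hi => (hf i hi).int_div x]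
  simp only [Finset.sum_div]

private theorem G_rho (h : Ions γ μ R z ρ r d ε) (x : E3) : G ρ x = ∑ i, G (pc R r ρ i) x := by
  rw [← G_sum Finset.univ (fun i _ => pc_ld h i) x]
  rw [G_congr (Eventually.of_forall fun y => h.rho_sum y)]

theorem Ions.phi_sum (h : Ions γ μ R z ρ r d ε) (x : E3) : phi R z ρ x = ∑ j, ph R z r ρ j x := by
  unfold phi ph V
  rw [Finset.sum_sub_distrib, G_rho h x]

theorem Ions.rho_energy (h : Ions γ μ R z ρ r d ε) :
    ∫ x, ρ x * G ρ x = ∑ i, ∑ j, ∫ x, pc R r ρ i x * G (pc R r ρ j) x := by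
  have e : ∀ x, ρ x * G ρ x = ∑ i, ∑ j, pc R r ρ i x * G (pc R r ρ j) x := by
    intro x
    rw [G_rho h x]
    nth_rewrite 1 [h.rho_sum x]
    rw [Finset.sum_mul_sum]
  have hi : ∀ i j : Fin k, Integrable (fun x => pc R r ρ i x * G (pc R r ρ j) x) := fun i j =>
    (pc_ld h i).int_mul_G (pc_ld h j)
  rw [integral_congr_ae (Eventually.of_forall e)]
  rw [integral_finsetSum _ fun i _ => integrable_finsetSum _ fun j _ => hi i j]
  refine Finset.sum_congr rfl fun i _ => ?_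
  rw [integral_finsetSum _ fun j _ => hi i j]

end Pool.Agent.H35.TC
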