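import Pool.Agent.H35.TC.Ker
import Pool.Agent.H35.TC.Spl

/-!
# Module Del: first order bound for the potential of the other ions

`i ≠ j`, `w = R i - R j ≠ 0`, `‖x - R i‖ < r`, `‖y - R j‖ < r`: `‖(x - y) - w‖ < 2r ≤ ε d ≤ ε ‖w‖` (`near`), so `k_lip` holds for `v = x - y` (and for `v = x - R j`).
* `G_lip`: `G(pc_j)(x + t w) - G(pc_j)(x) = ∫ pc_j(y) (1/‖(x-y) + t w‖ - 1/‖x-y‖) dy`, absolute value `≤ n_j 2|t|/‖w‖`.
* `dlt_le`: sum over `j ≠ i`.
-/

set_option autoImplicit false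

open MeasureTheory Set Filter Topology
open scoped ENNReal NNReal

namespace Pool.Agent.H35.TC

open Pool.Agent.H23.TF Pool.Agent.H50.TM

variable {γ μ r d ε : ℝ} {k : ℕ} {R : Fin k → E3} {z : Fin k → ℝ} {ρ : E3 → ℝ}

theorem Ions.ne_zero (h : Ions γ μ R z ρ r d ε) {i j : Fin k} (hij : i ≠ j) : R i - R j ≠ 0 := by
  intro h0
  have h1 := h.hd i j hij
  rw [h0, norm_zero] at h1
  have h2 := h.d_pos
  linarith

theorem Ions.near (h : Ions γ μ R z ρ r d ε) {i j : Fin k} (hij : i ≠ j) {x y : E3} (hx : ‖x - R i‖ < r) (hy : ‖y - R j‖ < r) :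
    ‖(x - y) - (R i - R j)‖ ≤ ε * ‖R i - R j‖ := by
  have e : (x - y) - (R i - R j) = (x - R i) - (y - R j) := by abel
  rw [e]
  have h1 := norm_sub_le (x - R i) (y - R j)
  have h2 := h.hrd
  have h3 : ε * d ≤ ε * ‖R i - R j‖ := mul_le_mul_of_nonneg_left (h.hd i j hij) h.hε.le
  linarith

theorem Ions.G_lip (h : Ions γ μ R z ρ r d ε) {i j : Fin k} (hij : i ≠ j) {x : E3} (hx : ‖x - R i‖ < r) {t : ℝ} (ht : |t| ≤ ε) :
    |G (pc R r ρ j) (x + t • (R i - R j)) - G (pc R r ρ j) x| ≤ ni R r ρ j * (2 * |t| / ‖R i - R j‖) := by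
  have hd := h.pc_dn j
  have hld : Ld (pc R r ρ j) := Ld.of_nonneg hd.nonneg hd.int hd.int53
  have i1 := hld.int_div (x + t • (R i - R j))
  have i2 := hld.int_div x
  unfold G ni
  rw [← integral_sub i1 i2, ← integral_mul_const, ← Real.norm_eq_abs]
  refine norm_integral_le_of_norm_le (hd.int.mul_const _) (Eventually.of_forall fun y => ?_)
  by_cases hy : ‖y - R j‖ < r
  · have h1 := k_lip (h.ne_zero hij) h.hε h.hε1 (h.near hij hx hy) ht
    have e : pc R r ρ j y / ‖x + t • (R i - R j) - y‖ - pc R r ρ j y / ‖x - y‖ =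
        pc R r ρ j y * (1 / ‖(x - y) + t • (R i - R j)‖ - 1 / ‖x - y‖) := by
      have e1 : x + t • (R i - R j) - y = (x - y) + t • (R i - R j) := by abel
      rw [e1]
      ring
    rw [e, Real.norm_eq_abs, abs_mul, abs_of_nonneg (hd.nonneg y)]
    exact mul_le_mul_of_nonneg_left h1 (hd.nonneg y)
  · have e : pc R r ρ j y = 0 := by
      unfold pc
      rw [if_neg hy]
    rw [e]
    simp

theorem Ions.dlt_le (h : Ions γ μ R z ρ r d ε) {i : Fin k} {x : E3} (hx : ‖x - R i‖ < r) {t : ℝ} (ht : |t| ≤ ε) :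
    |dlt R z r ρ t i x| ≤ |t| * LL R z r ρ i := by
  unfold dlt LL
  rw [Finset.mul_sum]
  refine (Finset.abs_sum_le_sum_abs _ _).trans (Finset.sum_le_sum fun j hj => ?_)
  have hij : i ≠ j := (Finset.ne_of_mem_erase hj).symm
  have h1 := h.G_lip hij hx ht
  have h0 : ‖R j - R j‖ < r := by
    rw [sub_self, norm_zero]
    exact h.hr
  have h2 := k_lip (h.ne_zero hij) h.hε h.hε1 (h.near hij hx h0) ht
  have hz := h.hz j
  have e : ph R z r ρ j (x + t • (R i - R j)) - ph R z r ρ j x =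
      z j * (1 / ‖(x - R j) + t • (R i - R j)‖ - 1 / ‖x - R j‖) -
        (G (pc R r ρ j) (x + t • (R i - R j)) - G (pc R r ρ j) x) := by
    have e1 : x + t • (R i - R j) - R j = (x - R j) + t • (R i - R j) := by abel
    unfold ph
    rw [e1]
    ring
  rw [e]
  refine (abs_sub _ _).trans ?_
  rw [abs_mul, abs_of_pos hz]
  have h3 := mul_le_mul_of_nonneg_left h2 hz.le
  have e2 : |t| * (2 * (z j + ni R r ρ j) / ‖R i - R j‖) =
      z j * (2 * |t| / ‖R i - R j‖) + ni R r ρ j * (2 * |t| / ‖R i - R j‖) := by ring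
  rw [e2]
  exact add_le_add h3 h1

end Pool.Agent.H35.TC
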