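import Pool.Agent.H35.TC.Defs
import Pool.Agent.H35.TC.BI

/-!
# Module Hyd: lower bound of the energy of few electrons

For `e, s > 0` (see `coer_young`, `coer_G` in Coer): `t/r ≤ e t + s t^(5/3) + s^(-3/2) r^(-5/2) 1_{r < 1/e}`, so (`int_ball_pow`, `p = 5/2`: `∫_{B(1/e)} = 8π e^(-1/2)`)
`G ρ a ≤ e ∫ρ + s ∫ρ^(5/3) + 8π s^(-3/2) e^(-1/2)`. With `e = Z/(γ N^(2/3))`, `s = 3γ/(5Z)`:
`∫ V ρ = ∑ z_i Gρ(R_i) ≤ Z² N^(1/3)/γ + (3/5) γ ∫ρ^(5/3) + 8π (5/3)^(3/2) Z² N^(1/3)/γ`, `1 + 8π (5/3)^(3/2) ≤ 60`; `∫ρGρ ≥ 0` (`pos`).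
-/

set_option autoImplicit false

open MeasureTheory Set Filter Topology
open scoped ENNReal NNReal

namespace Pool.Agent.H35.TC

open Pool.Agent.H23.TF Pool.Agent.H50.TM

variable {γ μ : ℝ} {k : ℕ} {R : Fin k → E3} {z : Fin k → ℝ} {ρ : E3 → ℝ}

private theorem hyd_young {t r ε s : ℝ} (ht : 0 ≤ t) (hr : 0 ≤ r) (hε : 0 < ε) (hs : 0 < s) :
    t / r ≤ ε * t + s * t ^ (5 / 3 : ℝ) +
      (if r < 1 / ε then ((s ^ (3 / 5 : ℝ))⁻¹) ^ (5 / 2 : ℝ) * (r ^ (5 / 2 : ℝ))⁻¹ else 0) := by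
  have h1 : 0 ≤ ε * t := by positivity
  have h2 : 0 ≤ s * t ^ (5 / 3 : ℝ) := by positivity
  split_ifs with h
  · rcases hr.eq_or_lt with h0 | h0
    · rw [← h0, div_zero]
      positivity
    · have hy := Real.young_inequality_of_nonneg (a := s ^ (3 / 5 : ℝ) * t) (b := (s ^ (3 / 5 : ℝ))⁻¹ * r⁻¹)
        (p := 5 / 3) (q := 5 / 2) (by positivity) (by positivity) (by
          rw [Real.holderConjugate_iff]
          norm_num)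
      have e1 : s ^ (3 / 5 : ℝ) * t * ((s ^ (3 / 5 : ℝ))⁻¹ * r⁻¹) = t / r := by
        have : s ^ (3 / 5 : ℝ) ≠ 0 := (Real.rpow_pos_of_pos hs _).ne'
        field_simp
      have e2 : (s ^ (3 / 5 : ℝ) * t) ^ (5 / 3 : ℝ) = s * t ^ (5 / 3 : ℝ) := by
        rw [Real.mul_rpow (by positivity) ht, ← Real.rpow_mul hs.le]
        norm_num
      have e3 : ((s ^ (3 / 5 : ℝ))⁻¹ * r⁻¹) ^ (5 / 2 : ℝ) =
          ((s ^ (3 / 5 : ℝ))⁻¹) ^ (5 / 2 : ℝ) * (r ^ (5 / 2 : ℝ))⁻¹ := by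
        rw [Real.mul_rpow (by positivity) (by positivity), Real.inv_rpow h0.le]
      rw [e1, e2, e3] at hy
      have h3 : 0 ≤ ((s ^ (3 / 5 : ℝ))⁻¹) ^ (5 / 2 : ℝ) * (r ^ (5 / 2 : ℝ))⁻¹ := by positivity
      have h4 : s * t ^ (5 / 3 : ℝ) / (5 / 3) ≤ s * t ^ (5 / 3 : ℝ) := by
        rw [div_le_iff₀ (by norm_num)]
        linarith
      have h5 : ((s ^ (3 / 5 : ℝ))⁻¹) ^ (5 / 2 : ℝ) * (r ^ (5 / 2 : ℝ))⁻¹ / (5 / 2) ≤
          ((s ^ (3 / 5 : ℝ))⁻¹) ^ (5 / 2 : ℝ) * (r ^ (5 / 2 : ℝ))⁻¹ := by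
        rw [div_le_iff₀ (by norm_num)]
        linarith
      linarith
  · have h0 : 0 < 1 / ε := by positivity
    have hr1 : 1 / ε ≤ r := not_lt.1 h
    have : t / r ≤ ε * t := by
      rw [div_le_iff₀ (h0.trans_le hr1)]
      have h3 : 1 ≤ ε * r := by
        have := mul_le_mul_of_nonneg_left hr1 hε.le
        rwa [mul_one_div_cancel hε.ne'] at this
      nlinarith
    linarith

private theorem hyd_G {ε s : ℝ} (hε : 0 < ε) (hs : 0 < s) (hρ : DN ρ) (a : E3) :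
    G ρ a ≤ ε * (∫ x, ρ x) + s * (∫ x, ρ x ^ (5 / 3 : ℝ)) +
      ((s ^ (3 / 5 : ℝ))⁻¹) ^ (5 / 2 : ℝ) * (8 * Real.pi * (1 / ε) ^ (1 / 2 : ℝ)) := by
  set c := ((s ^ (3 / 5 : ℝ))⁻¹) ^ (5 / 2 : ℝ) with hc
  set f : E3 → ℝ := (Metric.ball a (1 / ε)).indicator (fun y : E3 => (‖y - a‖ ^ (5 / 2 : ℝ))⁻¹) with hf
  have hfi : Integrable f := by
    rw [hf, integrable_indicator_iff Metric.isOpen_ball.measurableSet]
    have := integrableOn_ball (p := 5 / 2) (by norm_num) (by norm_num) a (1 / ε)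
    simpa using this
  have hfa2 : ∫ y, f y = 8 * Real.pi * (1 / ε) ^ (1 / 2 : ℝ) := by
    rw [hf, integral_indicator Metric.isOpen_ball.measurableSet,
      int_ball_pow (p := 5 / 2) (by norm_num) (by norm_num) a (by positivity)]
    rw [show (3 : ℝ) - 5 / 2 = 1 / 2 by norm_num]
    ring
  have hI : Integrable (fun y => ε * ρ y + s * ρ y ^ (5 / 3 : ℝ) + c * f y) :=
    ((hρ.int.const_mul ε).add (hρ.int53.const_mul s)).add (hfi.const_mul c)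
  have h1 : G ρ a ≤ ∫ y, (ε * ρ y + s * ρ y ^ (5 / 3 : ℝ) + c * f y) := by
    unfold G
    refine integral_mono (hρ.ld.int_div a) hI fun y => ?_
    have h2 := hyd_young (hρ.nonneg y) (norm_nonneg (a - y)) hε hs
    have h3 : (if ‖a - y‖ < 1 / ε then ((s ^ (3 / 5 : ℝ))⁻¹) ^ (5 / 2 : ℝ) * (‖a - y‖ ^ (5 / 2 : ℝ))⁻¹ else 0) =
        c * f y := by
      rw [hf, norm_sub_rev a y]
      by_cases h : ‖y - a‖ < 1 / ε
      · rw [if_pos h, indicator_of_mem (by simpa [Metric.mem_ball, dist_eq_norm] using h)]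
      · rw [if_neg h, indicator_of_notMem (by simpa [Metric.mem_ball, dist_eq_norm] using h), mul_zero]
    rw [h3] at h2
    exact h2
  have h4 : ∫ y, (ε * ρ y + s * ρ y ^ (5 / 3 : ℝ) + c * f y) =
      ε * (∫ x, ρ x) + s * (∫ x, ρ x ^ (5 / 3 : ℝ)) + c * ∫ y, f y := by
    have i12 : Integrable (fun y => ε * ρ y + s * ρ y ^ (5 / 3 : ℝ)) := (hρ.int.const_mul ε).add (hρ.int53.const_mul s)
    rw [integral_add i12 (hfi.const_mul c),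
      integral_add (hρ.int.const_mul ε) (hρ.int53.const_mul s), integral_const_mul, integral_const_mul,
      integral_const_mul]
  rw [h4, hfa2] at h1
  exact h1

private theorem hyd_const {Z N : ℝ} (hγ : 0 < γ) (hZ : 0 < Z) (hN : 0 < N) :
    Z * (((((3 * γ / (5 * Z)) ^ (3 / 5 : ℝ))⁻¹) ^ (5 / 2 : ℝ)) *
      (8 * Real.pi * (1 / (Z / (γ * N ^ (2 / 3 : ℝ)))) ^ (1 / 2 : ℝ))) ≤ 59 * Z ^ 2 * N ^ (1 / 3 : ℝ) / γ := by
  set s := 3 * γ / (5 * Z) with hs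
  have hs0 : 0 < s := by positivity
  have h1 : ((s ^ (3 / 5 : ℝ))⁻¹) ^ (5 / 2 : ℝ) = (s⁻¹) ^ (3 / 2 : ℝ) := by
    rw [← Real.inv_rpow hs0.le, ← Real.rpow_mul (by positivity)]
    norm_num
  have h2 : s⁻¹ = 5 / 3 * (Z / γ) := by
    rw [hs]
    field_simp
  have h3 : 1 / (Z / (γ * N ^ (2 / 3 : ℝ))) = (γ / Z) * N ^ (2 / 3 : ℝ) := by
    field_simp
  have h4 : ((γ / Z) * N ^ (2 / 3 : ℝ)) ^ (1 / 2 : ℝ) = (γ / Z) ^ (1 / 2 : ℝ) * N ^ (1 / 3 : ℝ) := by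
    rw [Real.mul_rpow (by positivity) (by positivity), ← Real.rpow_mul hN.le]
    norm_num
  have h5 : (5 / 3 * (Z / γ)) ^ (3 / 2 : ℝ) = (5 / 3 : ℝ) ^ (3 / 2 : ℝ) * ((Z / γ) * (Z / γ) ^ (1 / 2 : ℝ)) := by
    rw [Real.mul_rpow (by positivity) (by positivity)]
    congr 1
    rw [show (3 / 2 : ℝ) = 1 + 1 / 2 by norm_num, Real.rpow_add (by positivity), Real.rpow_one]
  have h6 : (Z / γ) ^ (1 / 2 : ℝ) * (γ / Z) ^ (1 / 2 : ℝ) = 1 := by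
    rw [← Real.mul_rpow (by positivity) (by positivity)]
    rw [show Z / γ * (γ / Z) = 1 by field_simp, Real.one_rpow]
  have h7 : (5 / 3 : ℝ) ^ (3 / 2 : ℝ) ≤ 2.16 := by
    have e : ((5 / 3 : ℝ) ^ (3 / 2 : ℝ)) ^ 2 = (5 / 3) ^ 3 := by
      rw [← Real.rpow_natCast, ← Real.rpow_mul (by norm_num)]
      norm_num
    have h0 : 0 ≤ (5 / 3 : ℝ) ^ (3 / 2 : ℝ) := by positivity
    nlinarith
  have hpi : Real.pi < 3.1416 := by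
    have := Real.pi_lt_d4
    linarith
  rw [h1, h2, h3, h4, h5]
  have e : Z * ((5 / 3 : ℝ) ^ (3 / 2 : ℝ) * ((Z / γ) * (Z / γ) ^ (1 / 2 : ℝ)) *
      (8 * Real.pi * ((γ / Z) ^ (1 / 2 : ℝ) * N ^ (1 / 3 : ℝ)))) =
      ((5 / 3 : ℝ) ^ (3 / 2 : ℝ) * (8 * Real.pi)) * (((Z / γ) ^ (1 / 2 : ℝ) * (γ / Z) ^ (1 / 2 : ℝ)) *
        (Z ^ 2 * N ^ (1 / 3 : ℝ) / γ)) := by
    ring
  rw [e, h6, one_mul, show 59 * Z ^ 2 * N ^ (1 / 3 : ℝ) / γ = 59 * (Z ^ 2 * N ^ (1 / 3 : ℝ) / γ) by ring]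
  refine mul_le_mul_of_nonneg_right ?_ (by positivity)
  have hpi0 := Real.pi_pos
  calc (5 / 3 : ℝ) ^ (3 / 2 : ℝ) * (8 * Real.pi) ≤ 2.16 * (8 * 3.1416) :=
        mul_le_mul h7 (by linarith) (by positivity) (by norm_num)
    _ ≤ 59 := by norm_num

theorem hyd (hγ : 0 < γ) (R : Fin k → E3) (hz : ∀ i, 0 ≤ z i) (hZ : 0 < ∑ i, z i) {N : ℝ} (hN : 0 < N) (hρ : Density N ρ) :
    U R z - 60 * (∑ i, z i) ^ 2 * N ^ (1 / 3 : ℝ) / γ ≤ tf γ R z ρ := by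
  set Z := ∑ i, z i with hZd
  have hD : DN ρ := Density.dn hρ
  have hK : 0 ≤ ∫ x, ρ x ^ (5 / 3 : ℝ) := integral_nonneg fun x => Real.rpow_nonneg (hρ.nonneg x) _
  have hP : 0 ≤ ∫ x, ρ x * G ρ x := pos hD.ld
  have hc := hyd_const hγ hZ hN
  set C := ((((3 * γ / (5 * Z)) ^ (3 / 5 : ℝ))⁻¹) ^ (5 / 2 : ℝ)) *
      (8 * Real.pi * (1 / (Z / (γ * N ^ (2 / 3 : ℝ)))) ^ (1 / 2 : ℝ)) with hC
  have hN3 : N ^ (2 / 3 : ℝ) * N ^ (1 / 3 : ℝ) = N := by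
    rw [← Real.rpow_add hN]
    norm_num
  have hV : ∫ x, V R z x * ρ x ≤ 3 / 5 * γ * (∫ x, ρ x ^ (5 / 3 : ℝ)) + 60 * Z ^ 2 * N ^ (1 / 3 : ℝ) / γ := by
    rw [int_V_mul hD.ld]
    calc ∑ j, z j * G ρ (R j) ≤ ∑ j, z j * (Z / (γ * N ^ (2 / 3 : ℝ)) * N +
          3 * γ / (5 * Z) * (∫ x, ρ x ^ (5 / 3 : ℝ)) + C) := by
          refine Finset.sum_le_sum fun j _ => mul_le_mul_of_nonneg_left ?_ (hz j)
          have := hyd_G (ε := Z / (γ * N ^ (2 / 3 : ℝ))) (s := 3 * γ / (5 * Z)) (by positivity)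
            (by positivity) hD (R j)
          rwa [hρ.mass] at this
      _ = Z * (Z / (γ * N ^ (2 / 3 : ℝ)) * N + 3 * γ / (5 * Z) * (∫ x, ρ x ^ (5 / 3 : ℝ)) + C) := by
          rw [← Finset.sum_mul]
      _ = Z ^ 2 * N ^ (1 / 3 : ℝ) / γ + 3 / 5 * γ * (∫ x, ρ x ^ (5 / 3 : ℝ)) + Z * C := by
          have h8 : Z / (γ * N ^ (2 / 3 : ℝ)) * N = Z * N ^ (1 / 3 : ℝ) / γ := by
            nth_rewrite 2 [← hN3]
            have : N ^ (2 / 3 : ℝ) ≠ 0 := (Real.rpow_pos_of_pos hN _).ne'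
            field_simp
          rw [h8]
          field_simp
      _ ≤ _ := by
          have : 60 * Z ^ 2 * N ^ (1 / 3 : ℝ) / γ = Z ^ 2 * N ^ (1 / 3 : ℝ) / γ +
            59 * Z ^ 2 * N ^ (1 / 3 : ℝ) / γ := by ring
          linarith
  rw [tf_eq]
  linarith

theorem En_hyd (hγ : 0 < γ) (R : Fin k → E3) (hz : ∀ i, 0 ≤ z i) (hZ : 0 < ∑ i, z i) {N : ℝ} (hN : 0 < N) :
    U R z - 60 * (∑ i, z i) ^ 2 * N ^ (1 / 3 : ℝ) / γ ≤ En γ R z N := by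
  unfold En
  obtain ⟨ρ0, h0⟩ := exists_density (N := N) hN.le
  refine le_csInf ⟨_, ρ0, h0, rfl⟩ ?_
  rintro e ⟨ρ, hρ, rfl⟩
  exact hyd hγ R hz hZ hN hρ

end Pool.Agent.H35.TC
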