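import Pool.Agent.H35.TC.Defs

/-!
# Module Ker: the Coulomb kernel far from its singularity

`L = ‖w‖ > 0`, `A = ‖v‖`, `B = ‖v + h w‖`, `b = ⟪v, w⟫`, `D = L²`. Then `A, B ∈ [(1-2ε) L, (1+2ε) L]`, `|b - L²| ≤ ε L²`, `B² = A² + 2 b h + D h²`.
* `k_lip`: `|1/B - 1/A| = |A - B|/(AB) ≤ |h| L/((1-2ε)² L²) ≤ 2 |h|/L`.
* `kk_bound`: exact identity (with `B - A = (2bh + Dh²)/(A+B)`):
  `1/B - 1/A + b h/A³ = h² X`, `X = -D/(AB(A+B)) + b (2b + D h)(B + 2A)/(A³ B (A+B)²)`.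
  [Proof: `1/B - 1/A = -(2bh+Dh²)/(AB(A+B))`, `1/A³ - 2/(AB(A+B)) = (B-A)(B+2A)/(A³B(A+B))`.]
  Hence `|X - 1/L| ≤ 40 ε/L` (for `L = 1` the two parts are `-1/2 + O(ε)` and `3/2 + O(ε)`: upper bound
  `-(1/2)(1+2ε)^(-3) + (3/4)(1+ε)(2+3ε)(1+2ε)(1-2ε)^(-6) ≤ 1 + 40 ε`, lower bound `-(1/2)(1-2ε)^(-3) + (3/4)(1-ε)(2-3ε)(1-2ε)(1+2ε)^(-6) ≥ 1 - 40 ε` for `ε ≤ 1/100`).
  The linear terms cancel in the sum for `h` and `-h`: `kk w v h = h² (X(h) + X(-h))`.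
-/

set_option autoImplicit false

open MeasureTheory Set Filter Topology

namespace Pool.Agent.H35.TC

open Pool.Agent.H23.TF Pool.Agent.H50.TM

private theorem nb_up {w v : E3} {ε h : ℝ} (hv : ‖v - w‖ ≤ ε * ‖w‖) (hh : |h| ≤ ε) :
    ‖v + h • w‖ ≤ (1 + 2 * ε) * ‖w‖ := by
  have e : v + h • w = w + ((v - w) + h • w) := by abel
  have h1 : ‖v + h • w‖ ≤ ‖w‖ + (‖v - w‖ + ‖h • w‖) := by
    rw [e]
    exact (norm_add_le _ _).trans (by gcongr; exact norm_add_le _ _)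
  have h2 : ‖h • w‖ ≤ ε * ‖w‖ := by
    rw [norm_smul, Real.norm_eq_abs]
    exact mul_le_mul_of_nonneg_right hh (norm_nonneg _)
  linarith

private theorem nb_lo {w v : E3} {ε h : ℝ} (hv : ‖v - w‖ ≤ ε * ‖w‖) (hh : |h| ≤ ε) :
    (1 - 2 * ε) * ‖w‖ ≤ ‖v + h • w‖ := by
  have e : w = (v + h • w) - ((v - w) + h • w) := by abel
  have h1 : ‖w‖ ≤ ‖v + h • w‖ + (‖v - w‖ + ‖h • w‖) := by
    calc ‖w‖ = ‖(v + h • w) - ((v - w) + h • w)‖ := by rw [← e]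
      _ ≤ ‖v + h • w‖ + ‖(v - w) + h • w‖ := norm_sub_le _ _
      _ ≤ ‖v + h • w‖ + (‖v - w‖ + ‖h • w‖) := by gcongr; exact norm_add_le _ _
  have h2 : ‖h • w‖ ≤ ε * ‖w‖ := by
    rw [norm_smul, Real.norm_eq_abs]
    exact mul_le_mul_of_nonneg_right hh (norm_nonneg _)
  linarith

private theorem nv_lo {w v : E3} {ε : ℝ} (hε : 0 < ε) (hv : ‖v - w‖ ≤ ε * ‖w‖) :
    (1 - 2 * ε) * ‖w‖ ≤ ‖v‖ := by
  have h := nb_lo (h := 0) hv (by rw [abs_zero]; exact hε.le)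
  rwa [zero_smul, add_zero] at h

private theorem nv_up {w v : E3} {ε : ℝ} (hε : 0 < ε) (hv : ‖v - w‖ ≤ ε * ‖w‖) :
    ‖v‖ ≤ (1 + 2 * ε) * ‖w‖ := by
  have h := nb_up (h := 0) hv (by rw [abs_zero]; exact hε.le)
  rwa [zero_smul, add_zero] at h

theorem k_lip {w v : E3} {ε h : ℝ} (hw : w ≠ 0) (hε : 0 < ε) (hε1 : ε ≤ 1 / 100) (hv : ‖v - w‖ ≤ ε * ‖w‖) (hh : |h| ≤ ε) :
    |1 / ‖v + h • w‖ - 1 / ‖v‖| ≤ 2 * |h| / ‖w‖ := by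
  have hL : 0 < ‖w‖ := norm_pos_iff.2 hw
  have hB := nb_lo hv hh
  have hA := nv_lo hε hv
  have h98 : 49 / 50 * ‖w‖ ≤ (1 - 2 * ε) * ‖w‖ := mul_le_mul_of_nonneg_right (by linarith) hL.le
  have hA' : 49 / 50 * ‖w‖ ≤ ‖v‖ := h98.trans hA
  have hB' : 49 / 50 * ‖w‖ ≤ ‖v + h • w‖ := h98.trans hB
  have hA0 : 0 < ‖v‖ := lt_of_lt_of_le (by positivity) hA'
  have hB0 : 0 < ‖v + h • w‖ := lt_of_lt_of_le (by positivity) hB'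
  have hd : |‖v‖ - ‖v + h • w‖| ≤ |h| * ‖w‖ := by
    refine (abs_norm_sub_norm_le _ _).trans ?_
    rw [sub_add_cancel_left, norm_neg, norm_smul, Real.norm_eq_abs]
  have e : 1 / ‖v + h • w‖ - 1 / ‖v‖ = (‖v‖ - ‖v + h • w‖) / (‖v + h • w‖ * ‖v‖) := by
    field_simp
  rw [e, abs_div, abs_of_pos (mul_pos hB0 hA0), div_le_div_iff₀ (mul_pos hB0 hA0) hL]
  have h1 : |‖v‖ - ‖v + h • w‖| * ‖w‖ ≤ |h| * ‖w‖ * ‖w‖ := mul_le_mul_of_nonneg_right hd hL.le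
  have h2 : 49 / 50 * ‖w‖ * (49 / 50 * ‖w‖) ≤ ‖v + h • w‖ * ‖v‖ :=
    mul_le_mul hB' hA' (by positivity) hB0.le
  have h3 : |h| * (49 / 50 * ‖w‖ * (49 / 50 * ‖w‖)) ≤ |h| * (‖v + h • w‖ * ‖v‖) :=
    mul_le_mul_of_nonneg_left h2 (abs_nonneg h)
  have h4 : 0 ≤ |h| * ‖w‖ * ‖w‖ := by positivity
  nlinarith

private theorem poly_bd {α β c h ε : ℝ} (hε : 0 < ε) (hε1 : ε ≤ 1 / 100)
    (hα1 : 1 - 2 * ε ≤ α) (hα2 : α ≤ 1 + 2 * ε) (hβ1 : 1 - 2 * ε ≤ β) (hβ2 : β ≤ 1 + 2 * ε)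
    (hc1 : 1 - ε ≤ c) (hc2 : c ≤ 1 + ε) (hh : |h| ≤ ε) :
    |(-(α ^ 2 * (α + β)) + c * (2 * c + h) * (β + 2 * α)) - α ^ 3 * β * (α + β) ^ 2| ≤
      40 * ε * (α ^ 3 * β * (α + β) ^ 2) := by
  obtain ⟨hh1, hh2⟩ := abs_le.1 hh
  obtain ⟨s, hs⟩ : ∃ s, s = 1 - 2 * ε := ⟨_, rfl⟩
  obtain ⟨u, hu⟩ : ∃ u, u = 1 + 2 * ε := ⟨_, rfl⟩
  rw [← hs] at hα1 hβ1
  rw [← hu] at hα2 hβ2
  have hs0 : 0 < s := by rw [hs]; linarith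
  have hα0 : 0 < α := hs0.trans_le hα1
  have hβ0 : 0 < β := hs0.trans_le hβ1
  have hu0 : 0 < u := hα0.trans_le hα2
  have hc0 : 0 < c := by linarith
  have hch : 0 < 2 * c + h := by linarith
  have hPlo : 4 * s ^ 6 ≤ α ^ 3 * β * (α + β) ^ 2 := by
    calc 4 * s ^ 6 = s ^ 3 * s * (s + s) ^ 2 := by ring
      _ ≤ α ^ 3 * β * (α + β) ^ 2 := by gcongr
  have hPup : α ^ 3 * β * (α + β) ^ 2 ≤ 4 * u ^ 6 := by
    calc α ^ 3 * β * (α + β) ^ 2 ≤ u ^ 3 * u * (u + u) ^ 2 := by gcongr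
      _ = 4 * u ^ 6 := by ring
  have h1lo : 2 * s ^ 3 ≤ α ^ 2 * (α + β) := by
    calc 2 * s ^ 3 = s ^ 2 * (s + s) := by ring
      _ ≤ α ^ 2 * (α + β) := by gcongr
  have h1up : α ^ 2 * (α + β) ≤ 2 * u ^ 3 := by
    calc α ^ 2 * (α + β) ≤ u ^ 2 * (u + u) := by gcongr
      _ = 2 * u ^ 3 := by ring
  have hc1' : 0 < 1 - ε := by linarith
  have h2up : c * (2 * c + h) * (β + 2 * α) ≤ (1 + ε) * (2 + 3 * ε) * (3 * u) := by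
    refine mul_le_mul (mul_le_mul hc2 (by linarith) hch.le (by linarith)) (by linarith) (by linarith)
      (by positivity)
  have h2lo : (1 - ε) * (2 - 3 * ε) * (3 * s) ≤ c * (2 * c + h) * (β + 2 * α) := by
    refine mul_le_mul (mul_le_mul hc1 (by linarith) (by linarith) hc0.le) (by linarith) (by positivity)
      (by positivity)
  have hε2 : ε ^ 2 ≤ ε / 100 := by nlinarith
  have hε3 : ε ^ 3 ≤ ε / 10000 := by nlinarith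
  have hs3 : 1 - 6 * ε ≤ s ^ 3 := by
    have h1 := one_add_mul_le_pow (a := -2 * ε) (by linarith) 3
    rw [show 1 + -2 * ε = s by rw [hs]; ring] at h1
    push_cast at h1
    linarith
  have hs6 : 1 - 12 * ε ≤ s ^ 6 := by
    have h1 := one_add_mul_le_pow (a := -2 * ε) (by linarith) 6
    rw [show 1 + -2 * ε = s by rw [hs]; ring] at h1
    push_cast at h1
    linarith
  have hu3 : u ^ 3 ≤ 1 + 7 * ε := by
    rw [hu]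
    nlinarith
  have hu6 : u ^ 6 ≤ 1 + 15 * ε := by
    have e : u ^ 6 = u ^ 3 * u ^ 3 := by ring
    rw [e]
    have h3 : u ^ 3 * u ^ 3 ≤ (1 + 7 * ε) * (1 + 7 * ε) := by gcongr
    nlinarith
  have hs6' : ε * (22 / 25) ≤ ε * s ^ 6 := mul_le_mul_of_nonneg_left (by linarith) hε.le
  have hP' : ε * (4 * s ^ 6) ≤ ε * (α ^ 3 * β * (α + β) ^ 2) := mul_le_mul_of_nonneg_left hPlo hε.le
  have e1 : (1 + ε) * (2 + 3 * ε) * (3 * u) = 6 + 27 * ε + 39 * ε ^ 2 + 18 * ε ^ 3 := by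
    rw [hu]; ring
  have e2 : (1 - ε) * (2 - 3 * ε) * (3 * s) = 6 - 27 * ε + 39 * ε ^ 2 - 18 * ε ^ 3 := by
    rw [hs]; ring
  have hp2 : 0 ≤ ε ^ 2 := by positivity
  have hp3 : 0 ≤ ε ^ 3 := by positivity
  rw [abs_le]
  constructor
  · linarith
  · linarith

private theorem core {α β c h ε : ℝ} (hε : 0 < ε) (hε1 : ε ≤ 1 / 100)
    (hα1 : 1 - 2 * ε ≤ α) (hα2 : α ≤ 1 + 2 * ε) (hβ1 : 1 - 2 * ε ≤ β) (hβ2 : β ≤ 1 + 2 * ε)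
    (hc1 : 1 - ε ≤ c) (hc2 : c ≤ 1 + ε) (hh : |h| ≤ ε) (he : β ^ 2 = α ^ 2 + 2 * c * h + h ^ 2) :
    |1 / β - 1 / α + c * h / α ^ 3 - h ^ 2| ≤ 40 * ε * h ^ 2 := by
  have hα0 : 0 < α := by linarith
  have hβ0 : 0 < β := by linarith
  have hP : 0 < α ^ 3 * β * (α + β) ^ 2 := by positivity
  have hb := poly_bd hε hε1 hα1 hα2 hβ1 hβ2 hc1 hc2 hh
  have key : 1 / β - 1 / α + c * h / α ^ 3 - h ^ 2 =
      h ^ 2 * ((-(α ^ 2 * (α + β)) + c * (2 * c + h) * (β + 2 * α)) - α ^ 3 * β * (α + β) ^ 2) /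
        (α ^ 3 * β * (α + β) ^ 2) := by
    rw [eq_div_iff hP.ne']
    have e1 : (1 / β - 1 / α + c * h / α ^ 3 - h ^ 2) * (α ^ 3 * β * (α + β) ^ 2) =
        (α ^ 3 - α ^ 2 * β + c * h * β) * (α + β) ^ 2 - h ^ 2 * (α ^ 3 * β * (α + β) ^ 2) := by
      field_simp
    rw [e1]
    linear_combination (-(α ^ 2 * (α + β)) + c * h * (β + 2 * α)) * he
  rw [key, abs_div, abs_of_pos hP, abs_mul, abs_of_nonneg (sq_nonneg h), div_le_iff₀ hP]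
  calc h ^ 2 * |_| ≤ h ^ 2 * (40 * ε * (α ^ 3 * β * (α + β) ^ 2)) :=
        mul_le_mul_of_nonneg_left hb (sq_nonneg h)
    _ = 40 * ε * h ^ 2 * (α ^ 3 * β * (α + β) ^ 2) := by ring

theorem kk_bound {w v : E3} {ε h : ℝ} (hw : w ≠ 0) (hε : 0 < ε) (hε1 : ε ≤ 1 / 100) (hv : ‖v - w‖ ≤ ε * ‖w‖) (hh : |h| ≤ ε) :
    |kk w v h - 2 * h ^ 2 / ‖w‖| ≤ 80 * ε * h ^ 2 / ‖w‖ := by
  have hL : 0 < ‖w‖ := norm_pos_iff.2 hw
  obtain ⟨L, hLd⟩ : ∃ L, L = ‖w‖ := ⟨_, rfl⟩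
  obtain ⟨b, hbd⟩ : ∃ b : ℝ, b = inner ℝ v w := ⟨_, rfl⟩
  have hsq : ∀ t : ℝ, ‖v + t • w‖ ^ 2 = ‖v‖ ^ 2 + 2 * t * b + t ^ 2 * L ^ 2 := by
    intro t
    rw [norm_add_sq_real, real_inner_smul_right, norm_smul, mul_pow, Real.norm_eq_abs, sq_abs, ← hbd,
      ← hLd]
    ring
  have hb : |b - L ^ 2| ≤ ε * L ^ 2 := by
    have e : b - L ^ 2 = inner ℝ (v - w) w := by
      rw [inner_sub_left, real_inner_self_eq_norm_sq, hbd, hLd]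
    rw [e]
    refine (abs_real_inner_le_norm _ _).trans ?_
    calc ‖v - w‖ * ‖w‖ ≤ ε * ‖w‖ * ‖w‖ := mul_le_mul_of_nonneg_right hv (norm_nonneg _)
      _ = ε * L ^ 2 := by rw [hLd]; ring
  have hA1 := nv_lo hε hv
  have hA2 := nv_up hε hv
  have hB1 : ∀ {t : ℝ}, |t| ≤ ε → (1 - 2 * ε) * ‖w‖ ≤ ‖v + t • w‖ := fun ht => nb_lo hv ht
  have hB2 : ∀ {t : ℝ}, |t| ≤ ε → ‖v + t • w‖ ≤ (1 + 2 * ε) * ‖w‖ := fun ht => nb_up hv ht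
  have hkk : kk w v h = 1 / ‖v + h • w‖ + 1 / ‖v + (-h) • w‖ - 2 / ‖v‖ := by
    unfold kk
    rw [neg_smul, ← sub_eq_add_neg]
  rw [hkk]
  rw [← hLd] at hL hA1 hA2 hB1 hB2 ⊢
  have hA0 : 0 < ‖v‖ := lt_of_lt_of_le (mul_pos (by linarith) hL) hA1
  have hcore : ∀ t : ℝ, |t| ≤ ε →
      |L * (1 / ‖v + t • w‖ - 1 / ‖v‖) + b / L ^ 2 * t / (‖v‖ / L) ^ 3 - t ^ 2| ≤ 40 * ε * t ^ 2 := by
    intro t ht
    have hB0 : 0 < ‖v + t • w‖ := lt_of_lt_of_le (mul_pos (by linarith) hL) (hB1 ht)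
    have hc := abs_le.1 hb
    have h1 := core (α := ‖v‖ / L) (β := ‖v + t • w‖ / L) (c := b / L ^ 2) (h := t) hε hε1
      (by rw [le_div_iff₀ hL]; exact hA1) (by rw [div_le_iff₀ hL]; exact hA2)
      (by rw [le_div_iff₀ hL]; exact hB1 ht) (by rw [div_le_iff₀ hL]; exact hB2 ht)
      (by rw [le_div_iff₀ (by positivity)]; linarith [hc.1])
      (by rw [div_le_iff₀ (by positivity)]; linarith [hc.2]) ht
      (by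
        rw [div_pow, div_pow, hsq t]
        field_simp)
    have e : 1 / (‖v + t • w‖ / L) - 1 / (‖v‖ / L) = L * (1 / ‖v + t • w‖ - 1 / ‖v‖) := by
      field_simp
    rwa [e] at h1
  have h1 := hcore h hh
  have h2 := hcore (-h) (by rwa [abs_neg])
  have hs := (abs_add_le _ _).trans (add_le_add h1 h2)
  have e : L * (1 / ‖v + h • w‖ - 1 / ‖v‖) + b / L ^ 2 * h / (‖v‖ / L) ^ 3 - h ^ 2 +
      (L * (1 / ‖v + (-h) • w‖ - 1 / ‖v‖) + b / L ^ 2 * (-h) / (‖v‖ / L) ^ 3 - (-h) ^ 2) =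
      (1 / ‖v + h • w‖ + 1 / ‖v + (-h) • w‖ - 2 / ‖v‖ - 2 * h ^ 2 / L) * L := by
    have e3 : 2 * h ^ 2 / L * L = 2 * h ^ 2 := by field_simp
    have e4 : (1 / ‖v + h • w‖ + 1 / ‖v + (-h) • w‖ - 2 / ‖v‖ - 2 * h ^ 2 / L) * L =
      (1 / ‖v + h • w‖ + 1 / ‖v + (-h) • w‖ - 2 / ‖v‖) * L - 2 * h ^ 2 / L * L := by ring
    rw [e4, e3]
    ring
  rw [e, abs_mul, abs_of_pos hL] at hs
  rw [le_div_iff₀ hL]
  calc _ ≤ 40 * ε * h ^ 2 + 40 * ε * (-h) ^ 2 := hs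
    _ = 80 * ε * h ^ 2 := by ring

end Pool.Agent.H35.TC
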