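import Pool.Agent.H35.TC.Defs

/-!
# Module Low: the dual bound

* `young_JJ`: `(t - μ) s ≤ (t-μ)₊ s ≤ 3/5 γ s^(5/3) + 2/5 γ ((t-μ)₊/γ)^(5/2)` (Young, exponents `5/3`, `5/2`; see `yg` in SupC).
* `int_JJ`: `0 ≤ JJ(V - Gτ) ≤ JJ(V)` (`G τ ≥ 0`, `JJ` monotone), `JJ(V) = 2/5 γ jj(V)^(5/3)`, integrable: `jj(V) = rbd γ μ R z univ` and `rbd_ld` (ExC), or `V ≤ V_small`.
  Measurability: `τ` may be replaced by a measurable version in `G τ` (`G_congr`, `measurable_G`, `measurable_V`, `continuous_JJ`).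
* `gc_low`: `σ^(5/3)`-term by `young_JJ` with `t = V - Gτ`: `3/5 γ ∫σ^(5/3) - ∫ (V - Gτ - μ) σ ≥ -∫ JJ(V - Gτ)`; `∫ (σ-τ) G(σ-τ) ≥ 0` (`pos`) gives
  `1/2 ∫ σ Gσ ≥ ∫ σ Gτ - 1/2 ∫ τ Gτ` (`G_symm`); add (`tf_eq`).
* `Om_low`: `le_csInf` (nonempty: `σ = 0`). `Om_tf`: `Om_eq`, and `γ ρ^(5/3) = (φ-μ) ρ` (`yeq`, `JJ_eq`): `gc ρ = U - 1/2 ∫ρGρ - ∫ JJ(φ)`.
-/

set_option autoImplicit false

open MeasureTheory Set Filter Topology
open scoped ENNReal NNReal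

namespace Pool.Agent.H35.TC

open Pool.Agent.H23.TF Pool.Agent.H50.TM

variable {γ μ : ℝ} {k : ℕ} {R : Fin k → E3} {z : Fin k → ℝ} {ρ σ τ : E3 → ℝ}

theorem young_JJ (hγ : 0 < γ) (t : ℝ) {s : ℝ} (hs : 0 ≤ s) : (t - μ) * s - 3 / 5 * γ * s ^ (5 / 3 : ℝ) ≤ JJ γ μ t := by
  have h1 := young_tf (μ := μ) hγ t hs
  have h2 := JJ_eq (μ := μ) hγ t
  linarith

private theorem JJ_mono (hγ : 0 < γ) {s t : ℝ} (h : s ≤ t) : JJ γ μ s ≤ JJ γ μ t := by
  unfold JJ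
  refine mul_le_mul_of_nonneg_left ?_ (by positivity)
  refine Real.rpow_le_rpow (div_nonneg (le_max_right _ _) hγ.le) ?_ (by norm_num)
  exact div_le_div_of_nonneg_right (max_le_max_right _ (by linarith)) hγ.le

private theorem jj_ld (hγ : 0 < γ) (hμ : 0 < μ) (R : Fin k → E3) (hz : ∀ i, 0 ≤ z i) :
    Ld (fun x => jj γ μ (V R z x)) := by
  have h := rbd_ld (R := R) (z := z) (D := univ) hγ hμ hz MeasurableSet.univ
  have h2 : rbd γ μ R z univ = fun x => jj γ μ (V R z x) := by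
    funext x
    unfold rbd
    simp
  rwa [h2] at h

private theorem int_JJV (hγ : 0 < γ) (hμ : 0 < μ) (R : Fin k → E3) (hz : ∀ i, 0 ≤ z i) :
    Integrable (fun x => JJ γ μ (V R z x)) := by
  have h := jj_ld (μ := μ) (z := z) hγ hμ R hz
  have h1 := h.int_V R z
  have h2 := h.i1
  have h3 := h.i2
  have h4 := (h1.sub (h2.const_mul μ)).sub (h3.const_mul (3 / 5 * γ))
  refine h4.congr (Eventually.of_forall fun x => ?_)
  simp only [Pi.sub_apply]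
  rw [← JJ_eq hγ, abs_of_nonneg (jj_nonneg hγ _)]
  ring

theorem int_JJ (hγ : 0 < γ) (hμ : 0 < μ) (R : Fin k → E3) (hz : ∀ i, 0 ≤ z i) (hτ : DN τ) :
    Integrable (fun x => JJ γ μ (V R z x - G τ x)) := by
  have hG : ∀ x, 0 ≤ G τ x := fun x => G_nonneg (Eventually.of_forall hτ.nonneg) x
  have hm : AEStronglyMeasurable (fun x => V R z x - G τ x) volume :=
    (measurable_V R z).aestronglyMeasurable.sub (aesm_G hτ.int.aestronglyMeasurable)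
  refine (int_JJV (z := z) hγ hμ R hz).mono' ((continuous_JJ hγ).comp_aestronglyMeasurable hm)
    (Eventually.of_forall fun x => ?_)
  rw [Real.norm_eq_abs, abs_of_nonneg (JJ_nonneg hγ _)]
  exact JJ_mono hγ (by linarith [hG x])

private theorem int4 {a b c d : E3 → ℝ} (ha : Integrable a) (hb : Integrable b) (hc : Integrable c)
    (hd : Integrable d) (s t : ℝ) : ∫ x, (a x - b x - s * c x - t * d x) =
      (∫ x, a x) - (∫ x, b x) - s * (∫ x, c x) - t * ∫ x, d x := by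
  have h1 : Integrable (fun x => a x - b x) := ha.sub hb
  have h2 : Integrable (fun x => s * c x) := hc.const_mul s
  have h3 : Integrable (fun x => t * d x) := hd.const_mul t
  have h4 : Integrable (fun x => a x - b x - s * c x) := h1.sub h2
  rw [integral_sub h4 h3, integral_sub h1 h2, integral_sub ha hb, integral_const_mul, integral_const_mul]

theorem gc_low (hγ : 0 < γ) (hμ : 0 < μ) (R : Fin k → E3) (hz : ∀ i, 0 ≤ z i) (hτ : DN τ) (hσ : DN σ) :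
    U R z - 1 / 2 * (∫ x, τ x * G τ x) - ∫ x, JJ γ μ (V R z x - G τ x) ≤ gc γ μ R z σ := by
  have hs := hσ.ld
  have ht := hτ.ld
  have i1 := hs.int_V R z
  have i2 := hs.int_mul_G ht
  have i3 := hσ.int
  have i4 := hσ.int53
  have i5 := int_JJ (z := z) hγ hμ R hz hτ
  have h1 : ∫ x, (V R z x * σ x - σ x * G τ x - μ * σ x - 3 / 5 * γ * σ x ^ (5 / 3 : ℝ)) ≤
      ∫ x, JJ γ μ (V R z x - G τ x) := by
    refine integral_mono (((i1.sub i2).sub (i3.const_mul μ)).sub (i4.const_mul (3 / 5 * γ))) i5 fun x => ?_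
    have h2 := young_JJ (μ := μ) hγ (V R z x - G τ x) (hσ.nonneg x)
    simp only
    linarith
  have h3 : ∫ x, (V R z x * σ x - σ x * G τ x - μ * σ x - 3 / 5 * γ * σ x ^ (5 / 3 : ℝ)) =
      (∫ x, V R z x * σ x) - (∫ x, σ x * G τ x) - μ * (∫ x, σ x) - 3 / 5 * γ * ∫ x, σ x ^ (5 / 3 : ℝ) := by
    exact int4 i1 i2 i3 i4 μ (3 / 5 * γ)
  have h4 : 0 ≤ (∫ x, σ x * G σ x) - 2 * (∫ x, σ x * G τ x) + ∫ x, τ x * G τ x := by
    have h5 := pos (hs.sub ht)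
    have e1 : (fun x => (σ x - τ x) * G (fun y => σ y - τ y) x) =
        fun x => σ x * G σ x - τ x * G σ x - 1 * (σ x * G τ x) - (-1) * (τ x * G τ x) := by
      funext x
      rw [G_sub hs ht]
      ring
    rw [e1, int4 (hs.int_mul_G hs) (ht.int_mul_G hs) i2 (ht.int_mul_G ht) 1 (-1), G_symm ht hs] at h5
    linarith
  unfold gc
  rw [tf_eq]
  linarith

theorem Om_low (hγ : 0 < γ) (hμ : 0 < μ) (R : Fin k → E3) (hz : ∀ i, 0 ≤ z i) (hτ : DN τ) :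
    U R z - 1 / 2 * (∫ x, τ x * G τ x) - ∫ x, JJ γ μ (V R z x - G τ x) ≤ Om γ μ R z := by
  refine le_csInf ⟨_, τ, hτ, rfl⟩ ?_
  rintro e ⟨σ, hσ, rfl⟩
  exact gc_low hγ hμ R hz hτ hσ

theorem Om_tf (hγ : 0 < γ) (hμ : 0 < μ) (hz : ∀ i, 0 ≤ z i) (h : IsTF γ μ R z ρ) :
    Om γ μ R z = U R z - 1 / 2 * (∫ x, ρ x * G ρ x) - ∫ x, JJ γ μ (phi R z ρ x) := by
  have hρ := h.dn hγ
  have hs := hρ.ld
  rw [Om_eq hγ h]
  have i1 := hs.int_V R z
  have i2 := hs.int_mul_G hs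
  have i3 := hρ.int
  have i4 := hρ.int53
  have h1 : ∫ x, (V R z x * ρ x - ρ x * G ρ x - μ * ρ x - 3 / 5 * γ * ρ x ^ (5 / 3 : ℝ)) =
      ∫ x, JJ γ μ (phi R z ρ x) := by
    refine integral_congr_ae (Eventually.of_forall fun x => ?_)
    have h2 := JJ_eq (μ := μ) hγ (V R z x - G ρ x)
    rw [← h.eq x] at h2
    simp only [phi]
    linarith
  have h3 : ∫ x, (V R z x * ρ x - ρ x * G ρ x - μ * ρ x - 3 / 5 * γ * ρ x ^ (5 / 3 : ℝ)) =
      (∫ x, V R z x * ρ x) - (∫ x, ρ x * G ρ x) - μ * (∫ x, ρ x) - 3 / 5 * γ * ∫ x, ρ x ^ (5 / 3 : ℝ) := by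
    exact int4 i1 i2 i3 i4 μ (3 / 5 * γ)
  unfold gc
  rw [tf_eq]
  linarith

end Pool.Agent.H35.TC
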