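import Pool.Agent.H35.TC.Defs
import Pool.Agent.H35.TC.BI

/-!
# Module MassA: lower bound of the mass at chemical potential `μ`

`M = ∫ ρ`. If `M ≥ z_i/3` nothing is to prove. Otherwise `B = B(R i, s)`, `s = z_i/(2μ)`. `∫_B V ≥ z_i ∫_B 1/‖x - R i‖ = 2π s² z_i` (`int_ball_inv`), and
`∫_B Gρ = ∫ ρ(y) ∫_B 1/‖x-y‖ dx dy ≤ 2π s² M` (Fubini; `int_ball_shift`), so `∫_B φ ≥ 2π s² (z_i - M) ≥ (4π/3) s² z_i`.
Tangent line of `t ↦ (t₊)^(3/2)` at `t = μ` (convexity, for all real `t`): `(t₊)^(3/2) ≥ μ^(3/2) + (3/2) μ^(1/2) (t - μ)`, with `t = φ - μ`: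
`ρ = jj(φ) ≥ γ^(-3/2) [μ^(3/2) + (3/2) μ^(1/2) (φ - 2μ)]` at every point. Integrate over `B` (`|B| = (4π/3) s³`, `z_i = 2 μ s`):
`M ≥ ∫_B ρ ≥ γ^(-3/2) μ^(3/2) (4π/3) s³ (1 - 3 + 3) = (π/6) z_i³ (γ μ)^(-3/2)`, and `π/6 ≥ 1/2`.
-/

set_option autoImplicit false

open MeasureTheory Set Filter Topology
open scoped ENNReal NNReal

namespace Pool.Agent.H35.TC

open Pool.Agent.H23.TF Pool.Agent.H50.TM

variable {γ μ : ℝ} {k : ℕ} {R : Fin k → E3} {z : Fin k → ℝ} {ρ : E3 → ℝ}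

private theorem tangent {a b : ℝ} (ha : 0 ≤ a) (hb : 0 ≤ b) :
    b ^ 3 + 3 / 2 * b * (a ^ 2 - b ^ 2) ≤ a ^ 3 := by
  nlinarith [mul_nonneg (sq_nonneg (a - b)) (by positivity : 0 ≤ a + b / 2)]

private theorem rpow_three_half {x : ℝ} (hx : 0 ≤ x) : x ^ (3 / 2 : ℝ) = √x ^ 3 := by
  rw [Real.sqrt_eq_rpow, ← Real.rpow_natCast, ← Real.rpow_mul hx]
  norm_num

private theorem jj_low (hγ : 0 < γ) (hμ : 0 < μ) (t : ℝ) :
    (√μ ^ 3 + 3 / 2 * √μ * (t - 2 * μ)) / √γ ^ 3 ≤ jj γ μ t := by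
  unfold jj
  have h0 : 0 ≤ max (t - μ) 0 := le_max_right _ _
  rw [Real.div_rpow h0 hγ.le, rpow_three_half h0, rpow_three_half hγ.le]
  have h1 := tangent (Real.sqrt_nonneg (max (t - μ) 0)) (Real.sqrt_nonneg μ)
  rw [Real.sq_sqrt h0, Real.sq_sqrt hμ.le] at h1
  refine div_le_div_of_nonneg_right ?_ (by positivity)
  refine le_trans ?_ h1
  have h2 : 3 / 2 * √μ * (t - μ) ≤ 3 / 2 * √μ * max (t - μ) 0 :=
    mul_le_mul_of_nonneg_left (le_max_left _ _) (by positivity)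
  nlinarith

theorem mass_low (hγ : 0 < γ) (hμ : 0 < μ) (hz : ∀ i, 0 < z i) (h : IsTF γ μ R z ρ) (i : Fin k) :
    min (z i / 3) (z i ^ 3 / (2 * (γ * μ) ^ (3 / 2 : ℝ))) ≤ ∫ x, ρ x := by
  by_cases hM : z i / 3 ≤ ∫ x, ρ x
  · exact (min_le_left _ _).trans hM
  push Not at hM
  refine (min_le_right _ _).trans ?_
  set M : ℝ := ∫ x, ρ x with hMdef
  have hρ0 : ∀ x, 0 ≤ ρ x := by
    intro x
    rw [h.eq x]
    unfold jj
    have := le_max_right (V R z x - G ρ x - μ) 0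
    positivity
  set s : ℝ := z i / (2 * μ) with hs
  have hs0 : 0 < s := div_pos (hz i) (by positivity)
  have hzs : z i = 2 * μ * s := by
    rw [hs]
    field_simp
  set B : Set E3 := Metric.ball (R i) s with hB
  have hBm : MeasurableSet B := Metric.isOpen_ball.measurableSet
  set f : E3 → ℝ := B.indicator (fun _ => (1 : ℝ)) with hf
  have hvol : volume.real B = 4 / 3 * Real.pi * s ^ 3 := by
    rw [hB, Measure.real, volume_ball_real _ hs0.le, ENNReal.toReal_ofReal (by positivity)]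
  have hBfin : volume B ≠ ∞ := by
    rw [hB, volume_ball_real _ hs0.le]
    exact ENNReal.ofReal_ne_top
  have hfi : Integrable f := by
    rw [hf, integrable_indicator_iff hBm]
    exact integrableOn_const (hs := hBfin)
  have hf1 : ∀ x, |f x| ≤ 1 := by
    intro x
    rw [hf]
    by_cases hx : x ∈ B
    · rw [indicator_of_mem hx]
      norm_num
    · rw [indicator_of_notMem hx]
      norm_num
  have hfL : Ld f := Ld.of_bdd hfi hf1
  have hfint : ∫ x, f x = 4 / 3 * Real.pi * s ^ 3 := by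
    rw [hf, integral_indicator hBm, setIntegral_const, hvol, smul_eq_mul, mul_one]
  have hGf : ∀ y, G f y = ∫ x in B, 1 / ‖x - y‖ := by
    intro y
    unfold G
    rw [← integral_indicator hBm]
    refine integral_congr_ae (Eventually.of_forall fun x => ?_)
    simp only [hf]
    by_cases hx : x ∈ B
    · rw [indicator_of_mem hx, indicator_of_mem hx, norm_sub_rev]
    · rw [indicator_of_notMem hx, indicator_of_notMem hx, zero_div]
  have hGf_le : ∀ y, G f y ≤ 2 * Real.pi * s ^ 2 := by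
    intro y
    rw [hGf]
    exact (int_ball_shift (R i) y hs0.le).2
  have hGf_i : G f (R i) = 2 * Real.pi * s ^ 2 := by
    rw [hGf]
    exact (int_ball_inv (R i) hs0.le).2
  have hGf0 : ∀ y, 0 ≤ G f y := by
    intro y
    refine G_nonneg (Eventually.of_forall fun x => ?_) y
    exact indicator_nonneg (fun _ _ => zero_le_one) x
  have hV : z i * (2 * Real.pi * s ^ 2) ≤ ∫ x, V R z x * f x := by
    rw [int_V_mul hfL, ← hGf_i]
    exact Finset.single_le_sum (f := fun j => z j * G f (R j))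
      (fun j _ => mul_nonneg (hz j).le (hGf0 _)) (Finset.mem_univ i)
  have hG : ∫ x, f x * G ρ x ≤ 2 * Real.pi * s ^ 2 * M := by
    rw [G_symm hfL h.ld, hMdef, mul_comm (2 * Real.pi * s ^ 2), ← integral_mul_const]
    refine integral_mono (h.ld.int_mul_G hfL) (h.ld.i1.mul_const _) fun x => ?_
    exact mul_le_mul_of_nonneg_left (hGf_le x) (hρ0 x)
  -- the pointwise bound
  have hb0 : 0 < √μ := Real.sqrt_pos.2 hμ
  have hg0 : 0 < √γ := Real.sqrt_pos.2 hγ
  have hpt : ∀ x, (√γ ^ 3)⁻¹ * (-2 * √μ ^ 3 * f x + 3 / 2 * √μ * (V R z x * f x - f x * G ρ x)) ≤ ρ x := by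
    intro x
    by_cases hx : x ∈ B
    · have h1 := jj_low hγ hμ (V R z x - G ρ x)
      rw [← h.eq x] at h1
      refine le_trans (le_of_eq ?_) h1
      have h2 : f x = 1 := by rw [hf, indicator_of_mem hx]
      rw [h2]
      have h3 : μ = √μ ^ 2 := (Real.sq_sqrt hμ.le).symm
      have h4 : √μ * μ = √μ ^ 3 := by
        conv_lhs => rw [h3]
        rw [Real.sqrt_sq hb0.le]
        ring
      rw [div_eq_inv_mul (√μ ^ 3 + 3 / 2 * √μ * (V R z x - G ρ x - 2 * μ))]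
      congr 1
      linear_combination 3 * h4
    · have h2 : f x = 0 := by rw [hf, indicator_of_notMem hx]
      rw [h2]
      simpa using hρ0 x
  have hint1 : Integrable fun x => V R z x * f x := hfL.int_V R z
  have hint2 : Integrable fun x => f x * G ρ x := hfL.int_mul_G h.ld
  have hint3 : Integrable fun x => (√γ ^ 3)⁻¹ *
      (-2 * √μ ^ 3 * f x + 3 / 2 * √μ * (V R z x * f x - f x * G ρ x)) :=
    ((hfi.const_mul _).add ((hint1.sub hint2).const_mul _)).const_mul _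
  have hmain := integral_mono hint3 h.ld.i1 hpt
  have e1 : ∫ x, (-2 * √μ ^ 3 * f x + 3 / 2 * √μ * (V R z x * f x - f x * G ρ x)) =
      (∫ x, -2 * √μ ^ 3 * f x) + ∫ x, 3 / 2 * √μ * (V R z x * f x - f x * G ρ x) :=
    integral_add (hfi.const_mul _) ((hint1.sub hint2).const_mul _)
  have e2 : ∫ x, (V R z x * f x - f x * G ρ x) = (∫ x, V R z x * f x) - ∫ x, f x * G ρ x :=
    integral_sub hint1 hint2
  rw [integral_const_mul, e1, integral_const_mul, integral_const_mul, e2, hfint] at hmain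
  rw [← hMdef] at hmain
  refine le_trans ?_ hmain
  have hpow : (γ * μ) ^ (3 / 2 : ℝ) = √γ ^ 3 * √μ ^ 3 := by
    rw [Real.mul_rpow hγ.le hμ.le, rpow_three_half hγ.le, rpow_three_half hμ.le]
  rw [hpow]
  have hpi := Real.pi_gt_three
  have hdiff : 8 / 3 * Real.pi * μ * s ^ 3 ≤ (∫ x, V R z x * f x) - ∫ x, f x * G ρ x := by
    have h1 : z i * (2 * Real.pi * s ^ 2) - 2 * Real.pi * s ^ 2 * M ≤
        (∫ x, V R z x * f x) - ∫ x, f x * G ρ x := by linarith
    refine le_trans ?_ h1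
    have h2 : 2 * Real.pi * s ^ 2 * M ≤ 2 * Real.pi * s ^ 2 * (z i / 3) :=
      mul_le_mul_of_nonneg_left hM.le (by positivity)
    have h3 : z i * (2 * Real.pi * s ^ 2) - 2 * Real.pi * s ^ 2 * (z i / 3) =
        8 / 3 * Real.pi * μ * s ^ 3 := by
      rw [hzs]
      ring
    linarith
  have hb2 : √μ ^ 2 = μ := Real.sq_sqrt hμ.le
  have hb3 : √μ * μ = √μ ^ 3 := by
    rw [← hb2, Real.sqrt_sq hb0.le]
    ring
  have h5 : 4 / 3 * Real.pi * √μ ^ 3 * s ^ 3 ≤
      -2 * √μ ^ 3 * (4 / 3 * Real.pi * s ^ 3) +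
        3 / 2 * √μ * ((∫ x, V R z x * f x) - ∫ x, f x * G ρ x) := by
    have h6 := mul_le_mul_of_nonneg_left hdiff (by positivity : 0 ≤ 3 / 2 * √μ)
    have h7 : 3 / 2 * √μ * (8 / 3 * Real.pi * μ * s ^ 3) = 4 * Real.pi * √μ ^ 3 * s ^ 3 := by
      rw [← hb3]
      ring
    rw [h7] at h6
    linarith
  have h8 := mul_le_mul_of_nonneg_left h5 (by positivity : 0 ≤ (√γ ^ 3)⁻¹)
  refine le_trans ?_ h8
  have h9 : z i ^ 3 / (2 * (√γ ^ 3 * √μ ^ 3)) = (√γ ^ 3)⁻¹ * (4 * √μ ^ 3 * s ^ 3) := by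
    have h10 : z i = 2 * √μ ^ 2 * s := by
      rw [hb2]
      exact hzs
    rw [h10]
    field_simp
    ring
  rw [h9]
  refine mul_le_mul_of_nonneg_left ?_ (by positivity)
  have h11 : 0 < √μ ^ 3 * s ^ 3 := by positivity
  nlinarith

end Pool.Agent.H35.TC
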