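import Pool.Agent.H35.TC.MassA

/-!
# Module MassB: mass and chemical potential

`hE : En N = Om μ - μ N`. For `m > 0`, `ρ` the solution at `m`, `M = ∫ρ`: `Om m - m N ≤ En N` (`En_ge`) and `Om μ ≤ gc μ ρ = gc m ρ + (μ - m) M = Om m + (μ - m) M`
(`Om_le`-type: `csInf_le (gc_bdd ..)`; `Om_eq` at `m`). Hence `Om m - m N ≤ Om m + (μ - m) M - μ N`, i.e. `(m - μ) M ≤ (m - μ) N`.
* `mass_le`: `μ < m` gives `M ≤ N`. `mass_ge`: `m < μ` gives `N ≤ M`.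
* `mu_ge`: if `μ < m`: `exists_full` at `m`, `mass_le`, `mass_low`: `min(..) ≤ M ≤ N`, contradiction.
-/

set_option autoImplicit false

open MeasureTheory Set Filter Topology

namespace Pool.Agent.H35.TC

open Pool.Agent.H23.TF Pool.Agent.H50.TM

variable {γ μ m N : ℝ} {k : ℕ} {R : Fin k → E3} {z : Fin k → ℝ} {ρ : E3 → ℝ}

theorem massB_key (hγ : 0 < γ) (hμ : 0 < μ) (hm : 0 < m) (hz : ∀ i, 0 ≤ z i) (hN : 0 ≤ N)
    (hE : En γ R z N = Om γ μ R z - μ * N) (h : IsTF γ m R z ρ) :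
    (m - μ) * ∫ x, ρ x ≤ (m - μ) * N := by
  obtain ⟨ρ', hρ'⟩ := exists_full hγ hμ R hz
  have h1 := En_ge hγ hm R hz hN
  have h2 := Om_le hγ hρ' (h.dn hγ)
  have h3 := Om_eq hγ h
  have h4 : gc γ μ R z ρ = tf γ R z ρ + μ * ∫ x, ρ x := rfl
  have h5 : gc γ m R z ρ = tf γ R z ρ + m * ∫ x, ρ x := rfl
  rw [h4] at h2
  rw [h5] at h3
  nlinarith [h1, h2, h3, hE]

theorem mass_le (hγ : 0 < γ) (hμ : 0 < μ) (hz : ∀ i, 0 ≤ z i) (hN : 0 ≤ N) (hE : En γ R z N = Om γ μ R z - μ * N)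
    (hm : μ < m) (h : IsTF γ m R z ρ) : ∫ x, ρ x ≤ N := by
  have h1 := massB_key hγ hμ (hμ.trans hm) hz hN hE h
  nlinarith [h1, hm]

theorem mass_ge (hγ : 0 < γ) (hm0 : 0 < m) (hz : ∀ i, 0 ≤ z i) (hN : 0 ≤ N) (hE : En γ R z N = Om γ μ R z - μ * N)
    (hm : m < μ) (h : IsTF γ m R z ρ) : N ≤ ∫ x, ρ x := by
  have h1 := massB_key hγ (hm0.trans hm) hm0 hz hN hE h
  nlinarith [h1, hm]

theorem mu_ge (hγ : 0 < γ) (hμ : 0 < μ) (hz : ∀ i, 0 < z i) (hN : 0 ≤ N) (hE : En γ R z N = Om γ μ R z - μ * N)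
    (hm : 0 < m) (i : Fin k) (h1 : N < z i / 3) (h2 : N < z i ^ 3 / (2 * (γ * m) ^ (3 / 2 : ℝ))) : m ≤ μ := by
  by_contra hlt
  have hlt' : μ < m := not_le.mp hlt
  obtain ⟨ρ, hρ⟩ := exists_full hγ hm R (fun i => (hz i).le)
  have h3 := mass_le hγ hμ (fun i => (hz i).le) hN hE hlt' hρ
  have h4 := mass_low hγ hm hz hρ i
  have h5 : N < min (z i / 3) (z i ^ 3 / (2 * (γ * m) ^ (3 / 2 : ℝ))) := lt_min h1 h2
  linarith

end Pool.Agent.H35.TC
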