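import Pool.Agent.H35.TC.Sec

/-!
# Module Pair: lower bound for a pair, and the rigid ion theorem

* `K2_ge`: for `‖x - R i‖ < r`: `K2(x) = ∫ pc_j(y) kk w (x-y) t dy ≥ n_j (2 - 80 ε) t²/‖w‖` (`kk_bound`, `near`).
* `pair`: `PP ≥ (t²/‖w‖) [z_i z_j (1 - 40ε) - 2 z_j n_i (1 + 40ε) + n_i n_j (1 - 40ε)]`: `kk_bound` for `v = w`, for `v = x - R j` (`x ∈ B_i`; `near` with `y = R j`), and `K2_ge`
  (where `pc_i x ≠ 0`).
* `rig`: sum over `i ≠ j`; by the symmetry `i ↔ j` of `∑_i ∑_{j≠i}` (`‖w‖` is symmetric) the bracket may be replaced by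
  `z_i z_j - z_j n_i - z_i n_j + n_i n_j - 40 ε (z_i + n_i)(z_j + n_j) = q_i q_j - 40 ε (z_i + n_i)(z_j + n_j)`. Error: `n_j ≤ z_j` gives `LL_i ≤ ∑_{j≠i} 4 z_j/‖w‖ ≤ 4Z/d`, so
  `2 EE = 12 r² √(Z r/γ)/γ ∑ LL_i² ≤ 12 r² √(Zr/γ)/γ (4Z/d) ∑_i ∑_{j≠i} 4 z_j/‖w‖ = ∑_{i≠j} (1/‖w‖) 192 (Z/(γ d)) r² √(Z r/γ) z_j`. So
  `c = ∑_{i≠j} (1/‖w‖) [q_i q_j - 40 ε (z_i+n_i)(z_j+n_j) - 192 (Z/(γ d)) r² √(Z r/γ) z_j] > 0` (`k ≥ 2`: there is a pair).
-/

set_option autoImplicit false

open MeasureTheory Set Filter Topology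
open scoped ENNReal NNReal

namespace Pool.Agent.H35.TC

open Pool.Agent.H23.TF Pool.Agent.H50.TM

variable {γ μ r d ε : ℝ} {k : ℕ} {R : Fin k → E3} {z : Fin k → ℝ} {ρ : E3 → ℝ}

/-- the density of an ion vanishes outside its ball -/
private lemma pc_zero {i : Fin k} {x : E3} (hx : ¬ ‖x - R i‖ < r) : pc R r ρ i x = 0 := by
  unfold pc
  rw [if_neg hx]

private lemma pc_ld (h : Ions γ μ R z ρ r d ε) (i : Fin k) : Ld (pc R r ρ i) :=
  Ld.of_nonneg (h.pc_dn i).nonneg (h.pc_dn i).int (h.pc_dn i).int53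

private lemma kk_low (h : Ions γ μ R z ρ r d ε) {i j : Fin k} (hij : i ≠ j) {v : E3}
    (hv : ‖v - (R i - R j)‖ ≤ ε * ‖R i - R j‖) {t : ℝ} (ht : |t| ≤ ε) :
    t ^ 2 / ‖R i - R j‖ * (2 - 80 * ε) ≤ kk (R i - R j) v t := by
  have h1 := abs_le.mp (kk_bound (h.ne_zero hij) h.hε h.hε1 hv ht)
  have h2 : t ^ 2 / ‖R i - R j‖ * (2 - 80 * ε) = 2 * t ^ 2 / ‖R i - R j‖ - 80 * ε * t ^ 2 / ‖R i - R j‖ := by
    ring
  rw [h2]
  linarith [h1.1]

private lemma kk_up (h : Ions γ μ R z ρ r d ε) {i j : Fin k} (hij : i ≠ j) {v : E3}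
    (hv : ‖v - (R i - R j)‖ ≤ ε * ‖R i - R j‖) {t : ℝ} (ht : |t| ≤ ε) :
    kk (R i - R j) v t ≤ t ^ 2 / ‖R i - R j‖ * (2 + 80 * ε) := by
  have h1 := abs_le.mp (kk_bound (h.ne_zero hij) h.hε h.hε1 hv ht)
  have h2 : t ^ 2 / ‖R i - R j‖ * (2 + 80 * ε) = 2 * t ^ 2 / ‖R i - R j‖ + 80 * ε * t ^ 2 / ‖R i - R j‖ := by
    ring
  rw [h2]
  linarith [h1.2]

/-- lower bound for the second difference of the potential of the other cloud -/
private lemma K2_ge (h : Ions γ μ R z ρ r d ε) {i j : Fin k} (hij : i ≠ j) {x : E3} (hx : ‖x - R i‖ < r) {t : ℝ} (ht : |t| ≤ ε) :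
    ni R r ρ j * (t ^ 2 / ‖R i - R j‖ * (2 - 80 * ε)) ≤
      G (pc R r ρ j) (x + t • (R i - R j)) + G (pc R r ρ j) (x - t • (R i - R j)) - 2 * G (pc R r ρ j) x := by
  have hd := h.pc_dn j
  have hld := pc_ld h j
  have i1 := hld.int_div (x + t • (R i - R j))
  have i2 := hld.int_div (x - t • (R i - R j))
  have i3 := hld.int_div x
  have i12 : Integrable (fun y => pc R r ρ j y / ‖x + t • (R i - R j) - y‖ + pc R r ρ j y / ‖x - t • (R i - R j) - y‖) := i1.add i2
  unfold G ni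
  rw [← integral_add i1 i2, ← integral_const_mul, ← integral_sub i12 (i3.const_mul 2), ← integral_mul_const]
  refine integral_mono (hd.int.mul_const _) (i12.sub (i3.const_mul 2)) fun y => ?_
  simp only
  by_cases hy : ‖y - R j‖ < r
  · have h1 := kk_low h hij (h.near hij hx hy) ht
    have e : pc R r ρ j y / ‖x + t • (R i - R j) - y‖ + pc R r ρ j y / ‖x - t • (R i - R j) - y‖ - 2 * (pc R r ρ j y / ‖x - y‖) =
        pc R r ρ j y * kk (R i - R j) (x - y) t := by
      unfold kk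
      have e1 : x + t • (R i - R j) - y = (x - y) + t • (R i - R j) := by abel
      have e2 : x - t • (R i - R j) - y = (x - y) - t • (R i - R j) := by abel
      rw [e1, e2]
      ring
    rw [e]
    exact mul_le_mul_of_nonneg_left h1 (hd.nonneg y)
  · rw [pc_zero hy]
    simp

theorem Ions.pair (h : Ions γ μ R z ρ r d ε) {i j : Fin k} (hij : i ≠ j) {t : ℝ} (ht : |t| ≤ ε) :
    t ^ 2 / ‖R i - R j‖ * (z i * z j * (1 - 40 * ε) - 2 * (z j * ni R r ρ i) * (1 + 40 * ε) + ni R r ρ i * ni R r ρ j * (1 - 40 * ε)) ≤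
      PP R z r ρ i j t := by
  have hε := h.hε
  have hε1 := h.hε1
  have hwn : 0 < ‖R i - R j‖ := norm_pos_iff.mpr (h.ne_zero hij)
  set T : ℝ := t ^ 2 / ‖R i - R j‖ with hT
  have hT0 : 0 ≤ T := by positivity
  have hdi := h.pc_dn i
  have hldi := pc_ld h i
  have hldj := pc_ld h j
  -- first term
  have h1 : z i * z j * (1 - 40 * ε) * T ≤ 1 / 2 * (z i * z j * kk (R i - R j) (R i - R j) t) := by
    have h2 := kk_low h hij (v := R i - R j) (by rw [sub_self, norm_zero]; positivity) ht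
    have h3 : 0 ≤ z i * z j := mul_nonneg (h.hz i).le (h.hz j).le
    have h4 := mul_le_mul_of_nonneg_left h2 h3
    rw [← hT] at h4
    linarith
  -- second term
  have h2 : ∫ x, pc R r ρ i x * kk (R i - R j) (x - R j) t ≤ ni R r ρ i * (T * (2 + 80 * ε)) := by
    unfold ni
    rw [← integral_mul_const]
    refine integral_mono_of_nonneg (Eventually.of_forall fun x => ?_) (hdi.int.mul_const _)
      (Eventually.of_forall fun x => ?_)
    · simp only [Pi.zero_apply]
      by_cases hx : ‖x - R i‖ < r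
      · have h3 := kk_low h hij (v := x - R j)
          (h.near hij hx (by rw [sub_self, norm_zero]; exact h.hr)) ht
        rw [← hT] at h3
        have h4 : 0 ≤ T * (2 - 80 * ε) := mul_nonneg hT0 (by linarith)
        exact mul_nonneg (hdi.nonneg x) (le_trans h4 h3)
      · rw [pc_zero hx, zero_mul]
    · simp only
      by_cases hx : ‖x - R i‖ < r
      · have h3 := kk_up h hij (v := x - R j)
          (h.near hij hx (by rw [sub_self, norm_zero]; exact h.hr)) ht
        rw [← hT] at h3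
        exact mul_le_mul_of_nonneg_left h3 (hdi.nonneg x)
      · rw [pc_zero hx, zero_mul, zero_mul]
  -- third term
  have hsh : ∀ a : E3, Integrable fun x => pc R r ρ i x * G (pc R r ρ j) (x - a) := by
    intro a
    have h3 := hldi.int_mul_G (Ld_shift hldj a)
    refine h3.congr (Eventually.of_forall fun x => ?_)
    simp only
    rw [G_shift]
  have ia : Integrable fun x => pc R r ρ i x * G (pc R r ρ j) (x + t • (R i - R j)) := by
    have h3 := hsh (-(t • (R i - R j)))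
    refine h3.congr (Eventually.of_forall fun x => ?_)
    simp only [sub_neg_eq_add]
  have ib := hsh (t • (R i - R j))
  have ic := hldi.int_mul_G hldj
  have iK : Integrable fun x => pc R r ρ i x * (G (pc R r ρ j) (x + t • (R i - R j)) + G (pc R r ρ j) (x - t • (R i - R j)) - 2 * G (pc R r ρ j) x) := by
    refine ((ia.add ib).sub (ic.const_mul 2)).congr (Eventually.of_forall fun x => ?_)
    simp only [Pi.add_apply, Pi.sub_apply]
    ring
  have h3 : ni R r ρ i * (ni R r ρ j * (T * (2 - 80 * ε))) ≤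
      ∫ x, pc R r ρ i x * (G (pc R r ρ j) (x + t • (R i - R j)) + G (pc R r ρ j) (x - t • (R i - R j)) - 2 * G (pc R r ρ j) x) := by
    have h5 : ni R r ρ i * (ni R r ρ j * (T * (2 - 80 * ε))) = ∫ x, pc R r ρ i x * (ni R r ρ j * (T * (2 - 80 * ε))) := by
      rw [integral_mul_const]
      rfl
    rw [h5]
    refine integral_mono (hdi.int.mul_const _) iK fun x => ?_
    simp only
    by_cases hx : ‖x - R i‖ < r
    · have h6 := K2_ge h hij hx ht
      rw [← hT] at h6
      exact mul_le_mul_of_nonneg_left h6 (hdi.nonneg x)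
    · rw [pc_zero hx, zero_mul, zero_mul]
  have h4 := mul_le_mul_of_nonneg_left h2 (h.hz j).le
  unfold PP
  have h5 : T * (z i * z j * (1 - 40 * ε) - 2 * (z j * ni R r ρ i) * (1 + 40 * ε) + ni R r ρ i * ni R r ρ j * (1 - 40 * ε)) =
      z i * z j * (1 - 40 * ε) * T - z j * (ni R r ρ i * (T * (2 + 80 * ε))) +
        1 / 2 * (ni R r ρ i * (ni R r ρ j * (T * (2 - 80 * ε)))) := by ring
  rw [h5]
  linarith

/-- symmetry of the sum over the ordered pairs -/
private lemma sum_swap (f : Fin k → Fin k → ℝ) :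
    ∑ i, ∑ j ∈ Finset.univ.erase i, f i j = ∑ i, ∑ j ∈ Finset.univ.erase i, f j i := by
  have e : ∀ g : Fin k → Fin k → ℝ, ∑ i, ∑ j ∈ Finset.univ.erase i, g i j = ∑ i, ∑ j, if i = j then 0 else g i j := by
    intro g
    refine Finset.sum_congr rfl fun i _ => ?_
    rw [← Finset.sum_erase (s := Finset.univ) (a := i) (f := fun j => if i = j then 0 else g i j) (by simp)]
    refine Finset.sum_congr rfl fun j hj => ?_
    rw [if_neg (Finset.ne_of_mem_erase hj).symm]
  rw [e, e, Finset.sum_comm]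
  refine Finset.sum_congr rfl fun i _ => Finset.sum_congr rfl fun j _ => ?_
  by_cases hij : i = j
  · rw [if_pos hij, if_pos hij.symm]
  · rw [if_neg hij, if_neg (fun hh => hij hh.symm)]

theorem Ions.rig (h : Ions γ μ R z ρ r d ε) (hk : 2 ≤ k) (hn : ∀ i, ni R r ρ i ≤ z i)
    (hq : ∀ i j, i ≠ j → 40 * ε * ((z i + ni R r ρ i) * (z j + ni R r ρ j))
      + 192 * ((∑ i, z i) / (γ * d)) * (r ^ 2 * √((∑ i, z i) * r / γ)) * z j < (z i - ni R r ρ i) * (z j - ni R r ρ j)) :
    LocO γ μ R z := by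
  obtain ⟨δ, hδ, hδε, hsec⟩ := h.sec
  have hd0 := h.d_pos
  have hγ := h.hγ
  have hr := h.hr
  set n : Fin k → ℝ := fun i => ni R r ρ i with hndef
  set L : Fin k → Fin k → ℝ := fun i j => ‖R i - R j‖ with hL
  set Z : ℝ := ∑ i, z i with hZ
  have hz0 : ∀ i, 0 ≤ z i := fun i => (h.hz i).le
  have hn0 : ∀ i, 0 ≤ n i := fun i => h.ni_nonneg i
  have hnz : ∀ i, n i ≤ z i := hn
  have hZ0 : 0 ≤ Z := Finset.sum_nonneg fun i _ => hz0 i
  have hLpos : ∀ i j, i ≠ j → 0 < L i j := fun i j hij => norm_pos_iff.mpr (h.ne_zero hij)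
  have hLd : ∀ i j, i ≠ j → d ≤ L i j := fun i j hij => h.hd i j hij
  have hLs : ∀ i j, L i j = L j i := fun i j => by
    rw [hL]
    exact norm_sub_rev _ _
  set S : ℝ := r ^ 2 * √(Z * r / γ) with hS
  have hS0 : 0 ≤ S := by positivity
  set B : Fin k → Fin k → ℝ := fun i j => 1 / L i j *
    (z i * z j * (1 - 40 * ε) - 2 * (z j * n i) * (1 + 40 * ε) + n i * n j * (1 - 40 * ε)) with hB
  set c : ℝ := (∑ i, ∑ j ∈ Finset.univ.erase i, B i j) - 2 * EE γ R z r ρ with hc
  -- the error term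
  have hLL : ∀ i, LL R z r ρ i ≤ ∑ j ∈ Finset.univ.erase i, 4 * z j / L i j := by
    intro i
    unfold LL
    refine Finset.sum_le_sum fun j hj => ?_
    have hij : i ≠ j := (Finset.ne_of_mem_erase hj).symm
    have h1 := hLpos i j hij
    have h2 : 2 * (z j + ni R r ρ j) ≤ 4 * z j := by
      have := hnz j
      simp only [hndef] at this
      linarith
    exact div_le_div_of_nonneg_right h2 h1.le
  have hLL0 : ∀ i, 0 ≤ LL R z r ρ i := by
    intro i
    unfold LL
    refine Finset.sum_nonneg fun j hj => ?_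
    have h1 := hz0 j
    have h2 := hn0 j
    simp only [hndef] at h2
    positivity
  have hLL2 : ∀ i, LL R z r ρ i ≤ 4 * Z / d := by
    intro i
    refine (hLL i).trans ?_
    have h1 : ∑ j ∈ Finset.univ.erase i, 4 * z j / L i j ≤ ∑ j ∈ Finset.univ.erase i, 4 * z j / d := by
      refine Finset.sum_le_sum fun j hj => ?_
      have hij : i ≠ j := (Finset.ne_of_mem_erase hj).symm
      have h2 := hLd i j hij
      have h3 : 0 ≤ 4 * z j := by have := hz0 j; linarith
      exact div_le_div_of_nonneg_left h3 hd0 h2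
    refine h1.trans ?_
    have h2 : ∑ j ∈ Finset.univ.erase i, 4 * z j / d ≤ ∑ j, 4 * z j / d := by
      refine Finset.sum_le_sum_of_subset_of_nonneg (Finset.erase_subset _ _) fun j _ _ => ?_
      have := hz0 j
      positivity
    refine h2.trans (le_of_eq ?_)
    rw [hZ, Finset.mul_sum, Finset.sum_div]
  have hEE : 2 * EE γ R z r ρ ≤ ∑ i, ∑ j ∈ Finset.univ.erase i, 1 / L i j * (192 * (Z / (γ * d)) * S * z j) := by
    unfold EE
    have h1 : ∑ i, LL R z r ρ i ^ 2 ≤ ∑ i, 4 * Z / d * ∑ j ∈ Finset.univ.erase i, 4 * z j / L i j := by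
      refine Finset.sum_le_sum fun i _ => ?_
      rw [pow_two]
      exact mul_le_mul (hLL2 i) (hLL i) (hLL0 i) (by positivity)
    have h2 : 0 ≤ 6 * r ^ 2 * √(Z * r / γ) / γ := by positivity
    have h3 := mul_le_mul_of_nonneg_left h1 h2
    refine (mul_le_mul_of_nonneg_left h3 (by norm_num : (0 : ℝ) ≤ 2)).trans (le_of_eq ?_)
    rw [Finset.mul_sum, Finset.mul_sum]
    refine Finset.sum_congr rfl fun i _ => ?_
    rw [Finset.mul_sum, Finset.mul_sum, Finset.mul_sum]
    refine Finset.sum_congr rfl fun j _ => ?_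
    rw [hS]
    have hγ' := hγ.ne'
    have hd' := hd0.ne'
    field_simp
    ring
  -- symmetrisation
  have hsym : ∑ i, ∑ j ∈ Finset.univ.erase i, B i j =
      ∑ i, ∑ j ∈ Finset.univ.erase i, 1 / L i j * ((z i - n i) * (z j - n j) - 40 * ε * ((z i + n i) * (z j + n j))) := by
    have e1 : ∑ i, ∑ j ∈ Finset.univ.erase i, B i j = 1 / 2 * (∑ i, ∑ j ∈ Finset.univ.erase i, B i j) + 1 / 2 * (∑ i, ∑ j ∈ Finset.univ.erase i, B j i) := by
      rw [← sum_swap B]
      ring
    rw [e1, Finset.mul_sum, Finset.mul_sum, ← Finset.sum_add_distrib]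
    refine Finset.sum_congr rfl fun i _ => ?_
    rw [Finset.mul_sum, Finset.mul_sum, ← Finset.sum_add_distrib]
    refine Finset.sum_congr rfl fun j _ => ?_
    simp only [hB]
    rw [hLs j i]
    ring
  have hcpos : 0 < c := by
    have h1 : ∑ i, ∑ j ∈ Finset.univ.erase i, 1 / L i j *
        ((z i - n i) * (z j - n j) - 40 * ε * ((z i + n i) * (z j + n j)) - 192 * (Z / (γ * d)) * S * z j) ≤ c := by
      have h2 : ∑ i, ∑ j ∈ Finset.univ.erase i, 1 / L i j *
          ((z i - n i) * (z j - n j) - 40 * ε * ((z i + n i) * (z j + n j)) - 192 * (Z / (γ * d)) * S * z j) =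
          (∑ i, ∑ j ∈ Finset.univ.erase i, 1 / L i j * ((z i - n i) * (z j - n j) - 40 * ε * ((z i + n i) * (z j + n j)))) -
          ∑ i, ∑ j ∈ Finset.univ.erase i, 1 / L i j * (192 * (Z / (γ * d)) * S * z j) := by
        rw [← Finset.sum_sub_distrib]
        refine Finset.sum_congr rfl fun i _ => ?_
        rw [← Finset.sum_sub_distrib]
        refine Finset.sum_congr rfl fun j _ => ?_
        ring
      rw [h2, hc, hsym]
      linarith
    refine lt_of_lt_of_le ?_ h1
    have hpos : ∀ i j, i ≠ j → 0 < 1 / L i j *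
        ((z i - n i) * (z j - n j) - 40 * ε * ((z i + n i) * (z j + n j)) - 192 * (Z / (γ * d)) * S * z j) := by
      intro i j hij
      have h3 := hq i j hij
      have h4 := hLpos i j hij
      refine mul_pos (by positivity) ?_
      simp only [hndef]
      linarith
    have i0 : Fin k := ⟨0, by omega⟩
    refine Finset.sum_pos' (fun i _ => Finset.sum_nonneg fun j hj =>
      (hpos i j (Finset.ne_of_mem_erase hj).symm).le) ⟨⟨0, by omega⟩, Finset.mem_univ _, ?_⟩
    refine Finset.sum_pos (fun j hj => hpos _ j (Finset.ne_of_mem_erase hj).symm) ?_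
    refine ⟨⟨1, by omega⟩, Finset.mem_erase.mpr ⟨?_, Finset.mem_univ _⟩⟩
    intro h5
    have := congrArg Fin.val h5
    simp at this
  refine ⟨c, δ, hcpos, hδ, fun t ht => ?_⟩
  have h1 := hsec t ht
  have h2 : t ^ 2 * (∑ i, ∑ j ∈ Finset.univ.erase i, B i j) ≤ ∑ i, ∑ j ∈ Finset.univ.erase i, PP R z r ρ i j t := by
    rw [Finset.mul_sum]
    refine Finset.sum_le_sum fun i _ => ?_
    rw [Finset.mul_sum]
    refine Finset.sum_le_sum fun j hj => ?_
    have hij : i ≠ j := (Finset.ne_of_mem_erase hj).symm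
    refine le_trans (le_of_eq ?_) (h.pair hij (le_trans ht.le hδε))
    simp only [hB, hL, hndef]
    ring
  have h3 : c * t ^ 2 = t ^ 2 * (∑ i, ∑ j ∈ Finset.univ.erase i, B i j) - 2 * t ^ 2 * EE γ R z r ρ := by
    rw [hc]
    ring
  rw [h3]
  linarith

end Pool.Agent.H35.TC
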