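import Pool.Agent.H35.TC.Up

/-!
# Module Sec: the second difference of `Om`

`Om_low` for `R' = (1+t) R`, `τ = tau t`, `tau_dn`, `up`, `tau_energy`, `U_dil`, and `Om_tf`, `rho_energy`, `U_bil` (for `t = 0`) give for small `t`
`Om((1+t)R) - Om(R) ≥ ∑_i ∑_j { 1/2 z_i z_j (1/‖w+tw‖ - 1/‖w‖) - 1/2 ∫ pc_i [G pc_j(x+tw) - G pc_j(x)] } - ∑_i ∑_{j≠i} ∫ pc_i [ph_j(x+tw) - ph_j(x)] - t² EE`, `w = R i - R j`
(the diagonal terms `i = j` of the first sum vanish). Write it for `t` and `-t` (`(1 + -t) • R = (1 - t) • R`) and add. With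
`ph_j(x+tw) + ph_j(x-tw) - 2 ph_j(x) = z_j kk w (x - R j) t - K2(x)`, `K2(x) = G pc_j(x+tw) + G pc_j(x-tw) - 2 G pc_j(x) = ∫ pc_j(y) kk w (x-y) t dy`
(`kk w v t` as in Defs; `v = x - R j`: `‖x + tw - R j‖ = ‖(x - R j) + t w‖`) the sum over the ordered pairs `i ≠ j` of `PP i j t` appears.
The smallness `|t| < δ`: `δ = min ε (Z/(r (∑ LL + 1)))`.
All integrands are integrable: `pc_i` times bounded measurable functions (`Ld.int_mul_G`, `Ld.int_div`, translates).
-/

set_option autoImplicit false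

open MeasureTheory Set Filter Topology
open scoped ENNReal NNReal

namespace Pool.Agent.H35.TC

open Pool.Agent.H23.TF Pool.Agent.H50.TM

variable {γ μ r d ε : ℝ} {k : ℕ} {R : Fin k → E3} {z : Fin k → ℝ} {ρ : E3 → ℝ}

/-- second difference of the interaction of the ordered pair `i, j` -/
noncomputable def PP (R : Fin k → E3) (z : Fin k → ℝ) (r : ℝ) (ρ : E3 → ℝ) (i j : Fin k) (t : ℝ) : ℝ :=
  1 / 2 * (z i * z j * kk (R i - R j) (R i - R j) t) - z j * (∫ x, pc R r ρ i x * kk (R i - R j) (x - R j) t)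
    + 1 / 2 * ∫ x, pc R r ρ i x * (G (pc R r ρ j) (x + t • (R i - R j)) + G (pc R r ρ j) (x - t • (R i - R j)) - 2 * G (pc R r ρ j) x)

/-- products of an ion density with a translated potential are integrable -/
private lemma int_G (h : Ions γ μ R z ρ r d ε) (i j : Fin k) (c : E3) :
    Integrable (fun x => pc R r ρ i x * G (pc R r ρ j) (x + c)) := by
  have h1 : Ld (fun y => pc R r ρ j (y + c)) := by
    have := Ld_shift (h.pc_dn j).ld (-c)
    simpa only [sub_neg_eq_add] using this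
  have h2 := (h.pc_dn i).ld.int_mul_G h1
  refine h2.congr (Eventually.of_forall fun x => ?_)
  simp only
  have h3 := G_shift (pc R r ρ j) (-c) x
  simp only [sub_neg_eq_add] at h3
  rw [h3]

private lemma int_G0 (h : Ions γ μ R z ρ r d ε) (i j : Fin k) :
    Integrable (fun x => pc R r ρ i x * G (pc R r ρ j) x) :=
  (h.pc_dn i).ld.int_mul_G (h.pc_dn j).ld

private lemma int_K (h : Ions γ μ R z ρ r d ε) (i : Fin k) (c : E3) :
    Integrable (fun x => pc R r ρ i x * (1 / ‖x + c‖)) := by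
  have h1 := (h.pc_dn i).ld.int_div (-c)
  refine h1.congr (Eventually.of_forall fun x => ?_)
  simp only
  have : ‖-c - x‖ = ‖x + c‖ := by
    rw [← norm_neg]
    congr 1
    abel
  rw [this]
  ring

/-- the difference of the potentials of an ion, integrated against another ion -/
private lemma int_ph (h : Ions γ μ R z ρ r d ε) (i j : Fin k) (t : ℝ) :
    Integrable (fun x => pc R r ρ i x *
      (ph R z r ρ j (x + t • (R i - R j)) - ph R z r ρ j x)) := by
  have e1 := int_K h i (t • (R i - R j) - R j)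
  have e2 := int_K h i (-R j)
  have e3 := int_G h i j (t • (R i - R j))
  have e4 := int_G0 h i j
  have := ((e1.const_mul (z j)).sub (e2.const_mul (z j))).sub (e3.sub e4)
  refine this.congr (Eventually.of_forall fun x => ?_)
  simp only [Pi.sub_apply, ph]
  rw [show x + t • (R i - R j) - R j = x + (t • (R i - R j) - R j) by abel,
    show x - R j = x + -R j by abel]
  ring

private lemma int_kk (h : Ions γ μ R z ρ r d ε) (i j : Fin k) (t : ℝ) :
    Integrable (fun x => pc R r ρ i x * kk (R i - R j) (x - R j) t) := by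
  have e1 := int_K h i (t • (R i - R j) - R j)
  have e1' := int_K h i (-(t • (R i - R j)) - R j)
  have e2 := int_K h i (-R j)
  have := (e1.add e1').sub (e2.const_mul 2)
  refine this.congr (Eventually.of_forall fun x => ?_)
  simp only [Pi.sub_apply, Pi.add_apply, kk]
  rw [show x - R j + t • (R i - R j) = x + (t • (R i - R j) - R j) by abel,
    show x - R j - t • (R i - R j) = x + (-(t • (R i - R j)) - R j) by abel,
    show x - R j = x + -R j by abel]
  ring

/-- second difference of the interaction of the nuclei -/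
private lemma pp_sum (h : Ions γ μ R z ρ r d ε) (i j : Fin k) (t : ℝ) :
    PP R z r ρ i j t =
      1 / 2 * (z i * z j / ‖(R i - R j) + t • (R i - R j)‖
        + z i * z j / ‖(R i - R j) + (-t) • (R i - R j)‖ - 2 * (z i * z j / ‖R i - R j‖))
      - 1 / 2 * ((∫ x, pc R r ρ i x * G (pc R r ρ j) (x + t • (R i - R j)))
        + (∫ x, pc R r ρ i x * G (pc R r ρ j) (x + (-t) • (R i - R j)))
        - 2 * ∫ x, pc R r ρ i x * G (pc R r ρ j) x)
      - ((∫ x, pc R r ρ i x * (ph R z r ρ j (x + t • (R i - R j)) - ph R z r ρ j x))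
        + ∫ x, pc R r ρ i x * (ph R z r ρ j (x + (-t) • (R i - R j)) - ph R z r ρ j x)) := by
  have i1 := int_G h i j (t • (R i - R j))
  have i2 := int_G h i j ((-t) • (R i - R j))
  have i3 := int_G0 h i j
  have hK2 : ∫ x, pc R r ρ i x * (G (pc R r ρ j) (x + t • (R i - R j)) +
        G (pc R r ρ j) (x - t • (R i - R j)) - 2 * G (pc R r ρ j) x) =
      (∫ x, pc R r ρ i x * G (pc R r ρ j) (x + t • (R i - R j)))
        + (∫ x, pc R r ρ i x * G (pc R r ρ j) (x + (-t) • (R i - R j)))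
        - 2 * ∫ x, pc R r ρ i x * G (pc R r ρ j) x := by
    have i12 : Integrable (fun x => pc R r ρ i x * G (pc R r ρ j) (x + t • (R i - R j)) +
        pc R r ρ i x * G (pc R r ρ j) (x + (-t) • (R i - R j))) := i1.add i2
    rw [← integral_const_mul, ← integral_add i1 i2, ← integral_sub i12 (i3.const_mul 2)]
    refine integral_congr_ae (Eventually.of_forall fun x => ?_)
    simp only
    rw [neg_smul, ← sub_eq_add_neg]
    ring
  have hc : (∫ x, pc R r ρ i x * (ph R z r ρ j (x + t • (R i - R j)) - ph R z r ρ j x))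
        + (∫ x, pc R r ρ i x * (ph R z r ρ j (x + (-t) • (R i - R j)) - ph R z r ρ j x)) =
      z j * (∫ x, pc R r ρ i x * kk (R i - R j) (x - R j) t)
        - ∫ x, pc R r ρ i x * (G (pc R r ρ j) (x + t • (R i - R j)) +
          G (pc R r ρ j) (x - t • (R i - R j)) - 2 * G (pc R r ρ j) x) := by
    have j1 : Integrable (fun x => pc R r ρ i x * (G (pc R r ρ j) (x + t • (R i - R j)) +
          G (pc R r ρ j) (x - t • (R i - R j)) - 2 * G (pc R r ρ j) x)) := by
      refine ((i1.add i2).sub (i3.const_mul 2)).congr (Eventually.of_forall fun x => ?_)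
      simp only [Pi.add_apply, Pi.sub_apply]
      rw [neg_smul, ← sub_eq_add_neg]
      ring
    rw [← integral_add (int_ph h i j t) (int_ph h i j (-t)), ← integral_const_mul,
      ← integral_sub ((int_kk h i j t).const_mul (z j)) j1]
    refine integral_congr_ae (Eventually.of_forall fun x => ?_)
    simp only [ph, kk]
    rw [neg_smul, ← sub_eq_add_neg,
      show x - R j + t • (R i - R j) = x + t • (R i - R j) - R j by abel,
      show x - R j - t • (R i - R j) = x - t • (R i - R j) - R j by abel]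
    ring
  unfold PP
  rw [hc, ← hK2]
  have hw : kk (R i - R j) (R i - R j) t = 1 / ‖(R i - R j) + t • (R i - R j)‖ +
      1 / ‖(R i - R j) + (-t) • (R i - R j)‖ - 2 / ‖R i - R j‖ := by
    unfold kk
    rw [neg_smul, ← sub_eq_add_neg]
  rw [hw]
  ring

/-- first difference -/
private lemma first (h : Ions γ μ R z ρ r d ε) {t : ℝ} (ht : |t| ≤ ε)
    (ht2 : ∀ i, |t| * LL R z r ρ i ≤ (∑ i, z i) / r) :
    Om γ μ R z + (∑ i, ∑ j ∈ Finset.univ.erase i,
      (1 / 2 * (z i * z j / ‖(R i - R j) + t • (R i - R j)‖ - z i * z j / ‖R i - R j‖)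
        - 1 / 2 * ((∫ x, pc R r ρ i x * G (pc R r ρ j) (x + t • (R i - R j)))
          - ∫ x, pc R r ρ i x * G (pc R r ρ j) x)
        - ∫ x, pc R r ρ i x * (ph R z r ρ j (x + t • (R i - R j)) - ph R z r ρ j x)))
      - t ^ 2 * EE γ R z r ρ ≤ Om γ μ (fun i => (1 + t) • R i) z := by
  have hz0 : ∀ i, 0 ≤ z i := fun i => (h.hz i).le
  have h1 := Om_low h.hγ h.hμ (fun i => (1 + t) • R i) hz0 (h.tau_dn t)
  have h2 := h.up ht ht2
  have h3 := Om_tf h.hγ h.hμ hz0 h.htf
  rw [h.rho_energy, U_bil] at h3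
  rw [h.tau_energy, U_dil] at h1
  have h4 : ∀ i, ∫ x, pc R r ρ i x * dlt R z r ρ t i x = ∑ j ∈ Finset.univ.erase i,
      ∫ x, pc R r ρ i x * (ph R z r ρ j (x + t • (R i - R j)) - ph R z r ρ j x) := by
    intro i
    rw [← integral_finsetSum _ fun j _ => int_ph h i j t]
    refine integral_congr_ae (Eventually.of_forall fun x => ?_)
    simp only [dlt]
    rw [Finset.mul_sum]
  rw [Finset.sum_congr rfl fun i _ => h4 i] at h2
  have h5 : (∑ i, ∑ j ∈ Finset.univ.erase i,
      (1 / 2 * (z i * z j / ‖(R i - R j) + t • (R i - R j)‖ - z i * z j / ‖R i - R j‖)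
        - 1 / 2 * ((∫ x, pc R r ρ i x * G (pc R r ρ j) (x + t • (R i - R j)))
          - ∫ x, pc R r ρ i x * G (pc R r ρ j) x)
        - ∫ x, pc R r ρ i x * (ph R z r ρ j (x + t • (R i - R j)) - ph R z r ρ j x))) =
      (1 / 2 * ∑ i, ∑ j, z i * z j / ‖(R i - R j) + t • (R i - R j)‖)
        - (1 / 2 * ∑ i, ∑ j, z i * z j / ‖R i - R j‖)
        - 1 / 2 * ((∑ i, ∑ j, ∫ x, pc R r ρ i x * G (pc R r ρ j) (x + t • (R i - R j)))
          - ∑ i, ∑ j, ∫ x, pc R r ρ i x * G (pc R r ρ j) x)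
        - ∑ i, ∑ j ∈ Finset.univ.erase i,
          ∫ x, pc R r ρ i x * (ph R z r ρ j (x + t • (R i - R j)) - ph R z r ρ j x) := by
    simp only [Finset.mul_sum, ← Finset.sum_sub_distrib]
    refine Finset.sum_congr rfl fun i _ => ?_
    rw [Finset.sum_sub_distrib, sub_left_inj]
    have hd : ∀ j, 1 / 2 * (z i * z j / ‖(R i - R j) + t • (R i - R j)‖)
        - 1 / 2 * (z i * z j / ‖R i - R j‖) -
        1 / 2 * ((∫ x, pc R r ρ i x * G (pc R r ρ j) (x + t • (R i - R j))) -
          ∫ x, pc R r ρ i x * G (pc R r ρ j) x) =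
        1 / 2 * (z i * z j / ‖(R i - R j) + t • (R i - R j)‖ - z i * z j / ‖R i - R j‖)
        - 1 / 2 * ((∫ x, pc R r ρ i x * G (pc R r ρ j) (x + t • (R i - R j)))
          - ∫ x, pc R r ρ i x * G (pc R r ρ j) x) := fun j => by ring
    have hii : 1 / 2 * (z i * z i / ‖(R i - R i) + t • (R i - R i)‖ - z i * z i / ‖R i - R i‖)
        - 1 / 2 * ((∫ x, pc R r ρ i x * G (pc R r ρ i) (x + t • (R i - R i)))
          - ∫ x, pc R r ρ i x * G (pc R r ρ i) x) = 0 := by
      simp
    have hs := Finset.sum_erase (s := Finset.univ) (a := i)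
      (f := fun j => 1 / 2 * (z i * z j / ‖(R i - R j) + t • (R i - R j)‖ - z i * z j / ‖R i - R j‖)
        - 1 / 2 * ((∫ x, pc R r ρ i x * G (pc R r ρ j) (x + t • (R i - R j)))
          - ∫ x, pc R r ρ i x * G (pc R r ρ j) x)) hii
    rw [hs]
    refine Finset.sum_congr rfl fun j _ => ?_
    ring
  rw [h5]
  linarith

theorem Ions.sec (h : Ions γ μ R z ρ r d ε) : ∃ δ : ℝ, 0 < δ ∧ δ ≤ ε ∧ ∀ t : ℝ, |t| < δ →
    2 * Om γ μ R z + (∑ i, ∑ j ∈ Finset.univ.erase i, PP R z r ρ i j t) - 2 * t ^ 2 * EE γ R z r ρ ≤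
      Om γ μ (fun i => (1 + t) • R i) z + Om γ μ (fun i => (1 - t) • R i) z := by
  have hLL : ∀ i, 0 ≤ LL R z r ρ i := by
    intro i
    unfold LL
    refine Finset.sum_nonneg fun j _ => ?_
    have h1 := h.ni_nonneg j
    have h2 := h.hz j
    positivity
  have hδ2 : ∃ δ2 : ℝ, 0 < δ2 ∧ ∀ t : ℝ, |t| < δ2 → ∀ i, |t| * LL R z r ρ i ≤ (∑ i, z i) / r := by
    rcases isEmpty_or_nonempty (Fin k) with he | hne
    · exact ⟨1, one_pos, fun t _ i => (he.false i).elim⟩
    · have hS : 0 ≤ ∑ i, LL R z r ρ i := Finset.sum_nonneg fun i _ => hLL i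
      have hZ : 0 < ∑ i, z i := Finset.sum_pos (fun i _ => h.hz i) Finset.univ_nonempty
      refine ⟨(∑ i, z i) / r / ((∑ i, LL R z r ρ i) + 1), by
        have := h.hr
        positivity, fun t ht i => ?_⟩
      rw [lt_div_iff₀ (by linarith)] at ht
      have h1 : LL R z r ρ i ≤ ∑ i, LL R z r ρ i :=
        Finset.single_le_sum (fun i _ => hLL i) (Finset.mem_univ i)
      have h2 : |t| * LL R z r ρ i ≤ |t| * ((∑ i, LL R z r ρ i) + 1) :=
        mul_le_mul_of_nonneg_left (by linarith) (abs_nonneg t)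
      linarith
  obtain ⟨δ2, hδ2, hδ2'⟩ := hδ2
  refine ⟨min ε δ2, lt_min h.hε hδ2, min_le_left _ _, fun t ht => ?_⟩
  have ht1 : |t| ≤ ε := (ht.trans_le (min_le_left _ _)).le
  have ht2 := hδ2' t (ht.trans_le (min_le_right _ _))
  have hn1 : |(-t)| ≤ ε := by rwa [abs_neg]
  have hn2 : ∀ i, |(-t)| * LL R z r ρ i ≤ (∑ i, z i) / r := by
    rwa [abs_neg]
  have h1 := first h ht1 ht2
  have h2 := first h hn1 hn2
  have h3 : (∑ i, ∑ j ∈ Finset.univ.erase i, PP R z r ρ i j t) =
      (∑ i, ∑ j ∈ Finset.univ.erase i,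
      (1 / 2 * (z i * z j / ‖(R i - R j) + t • (R i - R j)‖ - z i * z j / ‖R i - R j‖)
        - 1 / 2 * ((∫ x, pc R r ρ i x * G (pc R r ρ j) (x + t • (R i - R j)))
          - ∫ x, pc R r ρ i x * G (pc R r ρ j) x)
        - ∫ x, pc R r ρ i x * (ph R z r ρ j (x + t • (R i - R j)) - ph R z r ρ j x))) +
      (∑ i, ∑ j ∈ Finset.univ.erase i,
      (1 / 2 * (z i * z j / ‖(R i - R j) + (-t) • (R i - R j)‖ - z i * z j / ‖R i - R j‖)
        - 1 / 2 * ((∫ x, pc R r ρ i x * G (pc R r ρ j) (x + (-t) • (R i - R j)))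
          - ∫ x, pc R r ρ i x * G (pc R r ρ j) x)
        - ∫ x, pc R r ρ i x * (ph R z r ρ j (x + (-t) • (R i - R j)) - ph R z r ρ j x))) := by
    simp only [← Finset.sum_add_distrib]
    refine Finset.sum_congr rfl fun i _ => Finset.sum_congr rfl fun j _ => ?_
    rw [pp_sum h i j t]
    ring
  rw [h3]
  have h4 : (fun i => (1 + -t) • R i) = fun i => (1 - t) • R i := by
    funext i
    rw [← sub_eq_add_neg]
  rw [h4] at h2
  have h5 : (-t) ^ 2 = t ^ 2 := by ring
  rw [h5] at h2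
  linarith

end Pool.Agent.H35.TC
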