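import Pool.Agent.H35.TC.Pair
import Pool.Agent.H35.TC.Conv
import Pool.Agent.H35.TC.Hyd
import Pool.Agent.H35.TC.MassB
import Pool.Agent.H35.TC.MassC

/-!
# Module SmallN: few electrons, energy `≤ 0`

`zm = min z > 0`, `Z = ∑ z`. `μ` from `dual`, `ρ` from `exists_full`. All quantities in units of `γ`:
* `A = zm²/(4N)^(2/3)`, `m = A/γ`: `(γ m)^(3/2) = zm³/(4N)`, so `zm³/(2 (γm)^(3/2)) = 2N > N` and (if `N < zm/3`) `m ≤ μ` (`mu_ge`), i.e. `γ μ ≥ A`.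
* `r = Z γ/A`: `Z = (A/γ) r ≤ μ r`.
* `En ≤ 0` and `En_hyd`: `U ≤ 60 Z² N^(1/3)/γ`; every term of `U` is `≤ U`: `zm²/‖R i - R j‖ ≤ U`, so `‖R i - R j‖ ≥ d := zm² γ/(60 Z² N^(1/3))`.
* `ε = 1/200`: `2 r ≤ ε d` iff `2 Z/A ≤ zm²/(200·60 Z² N^(1/3))` iff `24000 Z³ N^(1/3) (4N)^(2/3) ≤ zm⁴`: true for small `N` (left side `≤ 24000·4 Z³ N`).
* `n_i ≤ ∫ρ ≤ 9 k (Z r/γ)^(3/2) = 9 k (Z²/A)^(3/2) = 9 k Z³ 4N/zm³ ≤ zm/4` for small `N`.
* `192 (Z/(γ d)) r² √(Z r/γ) = 192·60 Z³ N^(1/3)/zm² · Z²/A² · Z/√A = C Z⁶ N^(1/3) (4N)^(5/3)/zm⁷ ≤ C 4² Z⁶ N²/zm⁷ < zm/8` for small `N` (`C = 11520`).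
* `rig`: `40 ε (z_i+n_i)(z_j+n_j) ≤ (1/5)(25/16) z_i z_j = (5/16) z_i z_j`, error `< (1/8) z_i z_j`, `q_i q_j ≥ (9/16) z_i z_j`.
`N0` = minimum of the finitely many bounds (independent of `γ`, `R`). A convenient choice: with `y = zm/Z ≤ 1`: `N0 = zm y^6/(10^6 (k+1))` or smaller.
-/

set_option autoImplicit false

open MeasureTheory Set Filter Topology

namespace Pool.Agent.H35.TC

open Pool.Agent.H23.TF Pool.Agent.H50.TM

private theorem sn_cube {N : ℝ} (hN : 0 < N) : (N ^ (1 / 3 : ℝ)) ^ 3 = N := by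
  rw [← Real.rpow_natCast, ← Real.rpow_mul hN.le]
  norm_num

private theorem sn_pow32 {a : ℝ} (ha : 0 ≤ a) : (a ^ 2) ^ (3 / 2 : ℝ) = a ^ 3 := by
  rw [← Real.rpow_natCast a 2, ← Real.rpow_mul ha, ← Real.rpow_natCast a 3]
  norm_num

private theorem sn_term {k : ℕ} (R : Fin k → E3) {z : Fin k → ℝ} (hz : ∀ i, 0 < z i) {i j : Fin k} (hij : i ≠ j) :
    z i * z j / ‖R i - R j‖ ≤ U R z := by
  have key : ∀ i j : Fin k, i < j → z i * z j / ‖R i - R j‖ ≤ U R z := by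
    intro i j hlt
    unfold U
    have nn : ∀ a b : Fin k, 0 ≤ z a * z b / ‖R a - R b‖ := fun a b =>
      div_nonneg (mul_nonneg (hz a).le (hz b).le) (norm_nonneg _)
    have h1 : z i * z j / ‖R i - R j‖ ≤ ∑ b ∈ Finset.univ.filter (fun b => i < b), z i * z b / ‖R i - R b‖ :=
      Finset.single_le_sum (f := fun b => z i * z b / ‖R i - R b‖) (fun b _ => nn i b)
        (Finset.mem_filter.2 ⟨Finset.mem_univ _, hlt⟩)
    refine h1.trans ?_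
    exact Finset.single_le_sum (f := fun a => ∑ b ∈ Finset.univ.filter (fun b => a < b), z a * z b / ‖R a - R b‖)
      (fun a _ => Finset.sum_nonneg fun b _ => nn a b) (Finset.mem_univ i)
  rcases lt_or_gt_of_ne hij with h | h
  · exact key i j h
  · have := key j i h
    rwa [mul_comm (z j) (z i), norm_sub_rev] at this

theorem small_loc {k : ℕ} (hk : 2 ≤ k) {z : Fin k → ℝ} (hz : ∀ i, 0 < z i) :
    ∃ N0 : ℝ, 0 < N0 ∧ N0 ≤ ∑ i, z i ∧ ∀ γ : ℝ, 0 < γ → ∀ R : Fin k → E3, Function.Injective R → ∀ N : ℝ, 0 < N → N < N0 →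
      En γ R z N ≤ 0 → Loc γ R z N := by
  have hk0 : 0 < k := by omega
  have hne : (Finset.univ : Finset (Fin k)).Nonempty := ⟨⟨0, hk0⟩, Finset.mem_univ _⟩
  obtain ⟨i0, _, hmin⟩ := Finset.exists_min_image Finset.univ z hne
  have hmin' : ∀ j, z i0 ≤ z j := fun j => hmin j (Finset.mem_univ j)
  obtain ⟨w, hw⟩ : ∃ w, w = z i0 := ⟨_, rfl⟩
  obtain ⟨Z, hZ⟩ : ∃ Z, Z = ∑ i, z i := ⟨_, rfl⟩
  have hw0 : 0 < w := by rw [hw]; exact hz i0
  have hwj : ∀ j, w ≤ z j := fun j => by rw [hw]; exact hmin' j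
  have hwZ : w ≤ Z := by
    rw [hw, hZ]
    exact Finset.single_le_sum (f := z) (fun a _ => (hz a).le) (Finset.mem_univ i0)
  have hZ0 : 0 < Z := lt_of_lt_of_le hw0 hwZ
  have hkr : (2 : ℝ) ≤ k := by exact_mod_cast hk
  have hkr0 : (0 : ℝ) < k := by linarith
  have hN0pos : 0 < w ^ 4 / (100000 * k * Z ^ 3) := by positivity
  have hw3 : w ^ 3 ≤ Z ^ 3 := pow_le_pow_left₀ hw0.le hwZ 3
  have hN0w : w ^ 4 / (100000 * k * Z ^ 3) ≤ w / 4 := by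
    rw [div_le_iff₀ (by positivity)]
    have h1 : w ^ 4 = w * w ^ 3 := by ring
    rw [h1]
    have h2 : w * w ^ 3 ≤ w * Z ^ 3 := mul_le_mul_of_nonneg_left hw3 hw0.le
    have h3 : w * Z ^ 3 ≤ w / 4 * (100000 * k * Z ^ 3) := by
      have : 0 ≤ w * Z ^ 3 * (25000 * k - 1) := by
        have : (0 : ℝ) ≤ 25000 * k - 1 := by linarith
        positivity
      nlinarith
    exact h2.trans h3
  refine ⟨w ^ 4 / (100000 * k * Z ^ 3), hN0pos, ?_, ?_⟩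
  · rw [← hZ]; linarith
  intro γ hγ R hR N hN hNN hEn
  have hz' : ∀ i, 0 ≤ z i := fun i => (hz i).le
  have F1 : 100000 * k * Z ^ 3 * N < w ^ 4 := by
    rw [lt_div_iff₀ (by positivity)] at hNN
    linarith
  have hNw : N < w / 4 := lt_of_lt_of_le hNN hN0w
  have hNZ : N < ∑ i, z i := by rw [← hZ]; linarith
  obtain ⟨x, hx⟩ : ∃ x, x = N ^ (1 / 3 : ℝ) := ⟨_, rfl⟩
  have hx0 : 0 < x := by rw [hx]; exact Real.rpow_pos_of_pos hN _
  have hx3 : x ^ 3 = N := by rw [hx]; exact sn_cube hN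
  obtain ⟨μ, hμ, hE⟩ := dual hγ R hz' hN hNZ
  obtain ⟨ρ, htf⟩ := exists_full hγ hμ R hz'
  have ha0 : 0 < w / (2 * x) := by positivity
  have hm0 : 0 < (w / (2 * x)) ^ 2 / γ := by positivity
  have hmμ : (w / (2 * x)) ^ 2 / γ ≤ μ := by
    refine mu_ge hγ hμ hz hN.le hE hm0 i0 ?_ ?_
    · rw [← hw]; linarith
    · rw [← hw]
      have h1 : γ * ((w / (2 * x)) ^ 2 / γ) = (w / (2 * x)) ^ 2 := by field_simp
      rw [h1, sn_pow32 ha0.le]
      have h2 : w ^ 3 / (2 * (w / (2 * x)) ^ 3) = 4 * x ^ 3 := by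
        field_simp
        norm_num
      rw [h2, hx3]
      linarith
  -- distances
  have hU : U R z ≤ 60 * Z ^ 2 * x / γ := by
    have h1 := En_hyd hγ R hz' (by rw [← hZ]; exact hZ0) hN
    rw [← hZ, ← hx] at h1
    linarith
  have hdist : ∀ i j, i ≠ j → w ^ 2 * γ / (60 * Z ^ 2 * x) ≤ ‖R i - R j‖ := by
    intro i j hij
    have hpos : 0 < ‖R i - R j‖ := norm_pos_iff.2 (sub_ne_zero.2 fun h => hij (hR h))
    have h1 := (sn_term R hz hij).trans hU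
    have h2 : w ^ 2 ≤ z i * z j := by
      have := mul_le_mul (hwj i) (hwj j) hw0.le (hz' i)
      nlinarith
    have h3 : w ^ 2 / ‖R i - R j‖ ≤ 60 * Z ^ 2 * x / γ := (div_le_div_of_nonneg_right h2 hpos.le).trans h1
    rw [div_le_iff₀ hpos] at h3
    rw [div_le_iff₀ (by positivity)]
    have h4 : 60 * Z ^ 2 * x / γ * ‖R i - R j‖ * γ = ‖R i - R j‖ * (60 * Z ^ 2 * x) := by field_simp
    nlinarith [mul_le_mul_of_nonneg_right h3 hγ.le]
  have F2 : 96000 * Z ^ 3 * x ^ 3 ≤ w ^ 4 := by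
    rw [hx3]
    have h1 : 0 ≤ Z ^ 3 * N := by positivity
    nlinarith [mul_le_mul_of_nonneg_right hkr h1]
  have hIons : Ions γ μ R z ρ (Z * γ / (w / (2 * x)) ^ 2) (w ^ 2 * γ / (60 * Z ^ 2 * x)) (1 / 200) := by
    refine ⟨hγ, hμ, hz, htf, by positivity, ?_, hdist, by norm_num, by norm_num, ?_⟩
    · rw [← hZ]
      have h1 : (w / (2 * x)) ^ 2 / γ * (Z * γ / (w / (2 * x)) ^ 2) = Z := by field_simp
      calc Z = (w / (2 * x)) ^ 2 / γ * (Z * γ / (w / (2 * x)) ^ 2) := h1.symm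
        _ ≤ μ * (Z * γ / (w / (2 * x)) ^ 2) := mul_le_mul_of_nonneg_right hmμ (by positivity)
    · have h1 : 2 * (Z * γ / (w / (2 * x)) ^ 2) = 8 * Z * γ * x ^ 2 / w ^ 2 := by
        field_simp
        norm_num
      rw [h1, div_le_iff₀ (by positivity)]
      have h2 : 1 / 200 * (w ^ 2 * γ / (60 * Z ^ 2 * x)) * w ^ 2 = γ * w ^ 4 / (12000 * Z ^ 2 * x) := by
        field_simp
        norm_num
      rw [h2, le_div_iff₀ (by positivity)]
      nlinarith [mul_le_mul_of_nonneg_left F2 hγ.le]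
  have hZr : Z * (Z * γ / (w / (2 * x)) ^ 2) / γ = (2 * Z * x / w) ^ 2 := by
    field_simp
  have hb0 : 0 ≤ 2 * Z * x / w := by positivity
  have hmass : ∫ x, ρ x ≤ w / 4 := by
    have h1 := mass_up hγ hμ hz' htf hIons.hr hIons.hrμ
    rw [← hZ, hZr, sn_pow32 hb0] at h1
    refine h1.trans ?_
    have h2 : (k : ℝ) * (9 * (2 * Z * x / w) ^ 3) = 72 * k * Z ^ 3 * x ^ 3 / w ^ 3 := by
      field_simp
      norm_num
    rw [h2, hx3, div_le_iff₀ (by positivity)]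
    have h3 : 0 ≤ k * Z ^ 3 * N := by positivity
    nlinarith
  have hni : ∀ i, ni R (Z * γ / (w / (2 * x)) ^ 2) ρ i ≤ w / 4 := by
    intro i
    have h1 := hIons.mass_sum
    have h2 : ni R (Z * γ / (w / (2 * x)) ^ 2) ρ i ≤ ∑ j, ni R (Z * γ / (w / (2 * x)) ^ 2) ρ j :=
      Finset.single_le_sum (f := fun j => ni R (Z * γ / (w / (2 * x)) ^ 2) ρ j) (fun j _ => hIons.ni_nonneg j) (Finset.mem_univ i)
    linarith
  have herr : 192 * (Z / (γ * (w ^ 2 * γ / (60 * Z ^ 2 * x)))) *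
      ((Z * γ / (w / (2 * x)) ^ 2) ^ 2 * √(Z * (Z * γ / (w / (2 * x)) ^ 2) / γ)) ≤ w / 8 := by
    rw [hZr, Real.sqrt_sq hb0]
    have h1 : 192 * (Z / (γ * (w ^ 2 * γ / (60 * Z ^ 2 * x)))) * ((Z * γ / (w / (2 * x)) ^ 2) ^ 2 * (2 * Z * x / w)) =
        368640 * Z ^ 6 * (x ^ 3) ^ 2 / w ^ 7 := by
      field_simp
      norm_num
    rw [h1, hx3, div_le_iff₀ (by positivity)]
    have h2 : 200000 * (Z ^ 3 * N) ≤ w ^ 4 := by
      have h1 : 0 ≤ Z ^ 3 * N := by positivity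
      nlinarith [mul_le_mul_of_nonneg_right hkr h1]
    have h3 : 0 ≤ Z ^ 3 * N := by positivity
    have h4 : (200000 * (Z ^ 3 * N)) ^ 2 ≤ (w ^ 4) ^ 2 := pow_le_pow_left₀ (by positivity) h2 2
    nlinarith [sq_nonneg (Z ^ 3 * N)]
  refine loc_of_locO hγ hμ hz' hN.le hE (hIons.rig hk (fun i => (hni i).trans (by linarith [hwj i])) ?_)
  intro i j hij
  rw [← hZ]
  have hi := hwj i
  have hj := hwj j
  have ni1 := hni i
  have nj1 := hni j
  have ni0 := hIons.ni_nonneg i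
  have nj0 := hIons.ni_nonneg j
  have e1 : (z i + ni R (Z * γ / (w / (2 * x)) ^ 2) ρ i) * (z j + ni R (Z * γ / (w / (2 * x)) ^ 2) ρ j) ≤
      (5 / 4 * z i) * (5 / 4 * z j) :=
    mul_le_mul (by linarith) (by linarith) (by linarith [hz j]) (by linarith [hz i])
  have e2 : (3 / 4 * z i) * (3 / 4 * z j) ≤
      (z i - ni R (Z * γ / (w / (2 * x)) ^ 2) ρ i) * (z j - ni R (Z * γ / (w / (2 * x)) ^ 2) ρ j) :=
    mul_le_mul (by linarith) (by linarith) (by linarith [hz j]) (by linarith [hz i])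
  have e3 : 192 * (Z / (γ * (w ^ 2 * γ / (60 * Z ^ 2 * x)))) *
      ((Z * γ / (w / (2 * x)) ^ 2) ^ 2 * √(Z * (Z * γ / (w / (2 * x)) ^ 2) / γ)) * z j ≤ (z i / 8) * z j :=
    mul_le_mul_of_nonneg_right (herr.trans (by linarith)) (hz' j)
  have hij0 : 0 < z i * z j := mul_pos (hz i) (hz j)
  nlinarith

end Pool.Agent.H35.TC
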