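import Pool.Agent.H35.TC.Spl

/-!
# Module Tau: the rigidly translated clouds

* `tau_dn`: a finite sum of translates of `DN` functions (`Ld_shift`, `DN.add`).
* `V_tau`: `‖x - (1+h) R j‖ = ‖(x - h R j) - R j‖`; `G (pc_j (· - h R j)) x = G (pc_j) (x - h R j)` (`G_shift`), `G_sum`.
* `tau_energy`: expand; `∫ pc_i(x - h R i) G(pc_j)(x - h R j) dx = ∫ pc_i(x) G(pc_j)(x + h (R i - R j)) dx` (translation invariance, `integral_sub_right_eq_self`).
* `U_dil`: `U_bil`; for `i = j` both sides are `0` (`‖0‖ = 0`, division by zero).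
-/

set_option autoImplicit false

open MeasureTheory Set Filter Topology
open scoped ENNReal NNReal

namespace Pool.Agent.H35.TC

open Pool.Agent.H23.TF Pool.Agent.H50.TM

variable {γ μ r d ε : ℝ} {k : ℕ} {R : Fin k → E3} {z : Fin k → ℝ} {ρ : E3 → ℝ}

private theorem tau_ld1 (h : Ions γ μ R z ρ r d ε) (t : ℝ) (i : Fin k) :
    Ld (fun x => pc R r ρ i (x - t • R i)) := Ld_shift (h.pc_dn i).ld _

private theorem tau_Ld_sum {ι : Type*} (s : Finset ι) {f : ι → E3 → ℝ} (hf : ∀ i ∈ s, Ld (f i)) :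
    Ld (fun y => ∑ i ∈ s, f i y) := by
  classical
  induction s using Finset.induction_on with
  | empty => simpa using Ld.zero
  | insert a s ha ih =>
    have h1 := (hf a (Finset.mem_insert_self a s)).add (ih fun i hi => hf i (Finset.mem_insert_of_mem hi))
    have e : (fun y => ∑ i ∈ insert a s, f i y) = fun y => f a y + ∑ i ∈ s, f i y := by
      funext y
      rw [Finset.sum_insert ha]
    rwa [e]

theorem Ions.tau_dn (h : Ions γ μ R z ρ r d ε) (t : ℝ) : DN (tau R r ρ t) := by
  have h0 : ∀ x, 0 ≤ tau R r ρ t x := fun x => Finset.sum_nonneg fun i _ => (h.pc_dn i).nonneg _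
  have hl : Ld (tau R r ρ t) := tau_Ld_sum Finset.univ fun i _ => tau_ld1 h t i
  refine ⟨h0, hl.i1, ?_⟩
  have e : (fun x => tau R r ρ t x ^ (5 / 3 : ℝ)) = fun x => |tau R r ρ t x| ^ (5 / 3 : ℝ) := by
    funext x
    rw [abs_of_nonneg (h0 x)]
  rw [e]
  exact hl.i2

private theorem G_tau (h : Ions γ μ R z ρ r d ε) (t : ℝ) (x : E3) :
    G (tau R r ρ t) x = ∑ j, G (pc R r ρ j) (x - t • R j) := by
  have h1 : G (tau R r ρ t) x = ∑ j, G (fun y => pc R r ρ j (y - t • R j)) x :=
    G_sum Finset.univ (fun i _ => tau_ld1 h t i) x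
  rw [h1]
  exact Finset.sum_congr rfl fun j _ => G_shift _ _ _

theorem Ions.V_tau (h : Ions γ μ R z ρ r d ε) (t : ℝ) (x : E3) :
    V (fun i => (1 + t) • R i) z x - G (tau R r ρ t) x = ∑ j, ph R z r ρ j (x - t • R j) := by
  rw [G_tau h t x]
  unfold V ph
  rw [Finset.sum_sub_distrib]
  congr 1
  refine Finset.sum_congr rfl fun j _ => ?_
  have e : x - (1 + t) • R j = x - t • R j - R j := by
    rw [add_smul, one_smul]
    abel
  rw [e]

theorem Ions.tau_energy (h : Ions γ μ R z ρ r d ε) (t : ℝ) :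
    ∫ x, tau R r ρ t x * G (tau R r ρ t) x = ∑ i, ∑ j, ∫ x, pc R r ρ i x * G (pc R r ρ j) (x + t • (R i - R j)) := by
  have e : ∀ x, tau R r ρ t x * G (tau R r ρ t) x =
      ∑ i, ∑ j, pc R r ρ i (x - t • R i) * G (fun y => pc R r ρ j (y - t • R j)) x := by
    intro x
    rw [G_tau h t x]
    unfold tau
    rw [Finset.sum_mul_sum]
    refine Finset.sum_congr rfl fun i _ => Finset.sum_congr rfl fun j _ => ?_
    rw [G_shift]
  have hi : ∀ i j : Fin k, Integrable (fun x => pc R r ρ i (x - t • R i) * G (fun y => pc R r ρ j (y - t • R j)) x) :=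
    fun i j => (tau_ld1 h t i).int_mul_G (tau_ld1 h t j)
  rw [integral_congr_ae (Eventually.of_forall e)]
  rw [integral_finsetSum _ fun i _ => integrable_finsetSum _ fun j _ => hi i j]
  refine Finset.sum_congr rfl fun i _ => ?_
  rw [integral_finsetSum _ fun j _ => hi i j]
  refine Finset.sum_congr rfl fun j _ => ?_
  have h1 := integral_sub_right_eq_self (μ := (volume : Measure E3))
    (fun x => pc R r ρ i x * G (pc R r ρ j) (x + t • (R i - R j))) (t • R i)
  rw [← h1]
  refine integral_congr_ae (Eventually.of_forall fun x => ?_)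
  simp only
  rw [G_shift]
  congr 2
  rw [smul_sub]
  abel

theorem U_dil (R : Fin k → E3) (z : Fin k → ℝ) (t : ℝ) : U (fun i => (1 + t) • R i) z =
    1 / 2 * ∑ i, ∑ j, z i * z j / ‖(R i - R j) + t • (R i - R j)‖ := by
  rw [U_bil]
  congr 1
  refine Finset.sum_congr rfl fun i _ => Finset.sum_congr rfl fun j _ => ?_
  have e : (1 + t) • R i - (1 + t) • R j = (R i - R j) + t • (R i - R j) := by
    rw [← smul_sub, add_smul, one_smul]
  rw [e]

end Pool.Agent.H35.TC
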