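import Pool.Agent.H50.TM.JJf

/-!
# Module Tay: second order Taylor bound for `JJ`

`JJ' = jj` (`JJ_deriv`), `jj` is Lipschitz with constant `M = 3/2 √((max(a-μ) 0 + |δ|)/γ)/γ` on the interval between `a` and `a + δ` (see the proof of `jj_lip`).
`g(s) = JJ(a) + jj(a) s + (M/2) s² - JJ(a+s)` has `g(0) = 0` and `g'(s) = jj(a) + M s - jj(a+s)`, which is `≥ 0` for `0 ≤ s ≤ |δ|` and `≤ 0` for `-|δ| ≤ s ≤ 0`, so `g(δ) ≥ 0`
(`monotoneOn_of_deriv_nonneg` / `image_le_of_deriv...`).
-/

set_option autoImplicit false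

open MeasureTheory Set Filter Topology

namespace Pool.Agent.H35.TC

open Pool.Agent.H23.TF Pool.Agent.H50.TM

variable {γ μ : ℝ}

private theorem cube {c : ℝ} (hc : 0 ≤ c) : c ^ (3 / 2 : ℝ) = √c ^ 3 := by
  rw [Real.sqrt_eq_rpow, ← Real.rpow_natCast, ← Real.rpow_mul hc]
  norm_num

private theorem lip (hγ : 0 < γ) {M s t : ℝ} (hst : s ≤ t) (htM : t ≤ M) :
    jj γ μ t - jj γ μ s ≤ 3 / 2 * √(max (M - μ) 0 / γ) / γ * (t - s) := by
  have pn : ∀ t : ℝ, 0 ≤ max (t - μ) 0 / γ := fun t => div_nonneg (le_max_right _ _) hγ.le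
  have pmono : ∀ {s t : ℝ}, s ≤ t → max (s - μ) 0 / γ ≤ max (t - μ) 0 / γ := fun h =>
    div_le_div_of_nonneg_right (max_le_max (by linarith) le_rfl) hγ.le
  have hs := pn s
  have ht := pn t
  have h1 := pmono hst
  have h2 := pmono htM
  have h3 : max (t - μ) 0 / γ - max (s - μ) 0 / γ ≤ (t - s) / γ := by
    rw [← sub_div]
    refine div_le_div_of_nonneg_right ?_ hγ.le
    rcases max_cases (t - μ) 0 with ⟨e1, e2⟩ | ⟨e1, e2⟩
    · have := le_max_left (s - μ) 0
      rw [e1]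
      linarith
    · have := le_max_right (s - μ) 0
      rw [e1]
      linarith
  unfold jj
  rw [cube ht, cube hs]
  set x := max (s - μ) 0 / γ
  set y := max (t - μ) 0 / γ
  set m := max (M - μ) 0 / γ
  have ha : √x ≤ √y := Real.sqrt_le_sqrt h1
  have hb : √y ≤ √m := Real.sqrt_le_sqrt h2
  have hx0 := Real.sqrt_nonneg x
  have hx2 : √x ^ 2 = x := Real.sq_sqrt hs
  have hy2 : √y ^ 2 = y := Real.sq_sqrt ht
  have h4 : √y ^ 3 - √x ^ 3 ≤ 3 / 2 * √y * (√y ^ 2 - √x ^ 2) := by
    have h5 : 0 ≤ (√y - √x) * ((√y - √x) * (√y + 2 * √x)) := by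
      have : 0 ≤ √y - √x := by linarith
      positivity
    nlinarith
  rw [hx2, hy2] at h4
  calc √y ^ 3 - √x ^ 3 ≤ 3 / 2 * √y * (y - x) := h4
    _ ≤ 3 / 2 * √m * (y - x) := by
      refine mul_le_mul_of_nonneg_right ?_ (by linarith)
      linarith
    _ ≤ 3 / 2 * √m * ((t - s) / γ) := mul_le_mul_of_nonneg_left h3 (by positivity)
    _ = 3 / 2 * √m / γ * (t - s) := by ring

theorem JJ_taylor (hγ : 0 < γ) (a δ : ℝ) :
    JJ γ μ (a + δ) ≤ JJ γ μ a + jj γ μ a * δ + 3 / 4 * δ ^ 2 * (√((max (a - μ) 0 + |δ|) / γ) / γ) := by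
  obtain ⟨K, hK⟩ : ∃ K : ℝ, K = 3 / 2 * √((max (a - μ) 0 + |δ|) / γ) / γ := ⟨_, rfl⟩
  have hL : ∀ s t : ℝ, s ≤ t → t ≤ a + |δ| → jj γ μ t - jj γ μ s ≤ K * (t - s) := by
    intro s t hst ht
    refine (lip hγ hst ht).trans ?_
    refine mul_le_mul_of_nonneg_right ?_ (by linarith)
    rw [hK]
    have h1 : max (a + |δ| - μ) 0 ≤ max (a - μ) 0 + |δ| := by
      have := abs_nonneg δ
      refine max_le ?_ ?_
      · have := le_max_left (a - μ) 0
        linarith
      · have := le_max_right (a - μ) 0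
        linarith
    gcongr
  have hd : ∀ s : ℝ, HasDerivAt (fun s : ℝ => JJ γ μ a + jj γ μ a * s + K / 2 * s ^ 2 - JJ γ μ (a + s))
      (jj γ μ a + K * s - jj γ μ (a + s)) s := by
    intro s
    have h1 : HasDerivAt (fun s : ℝ => JJ γ μ (a + s)) (jj γ μ (a + s)) s := by
      have h2 := (JJ_deriv (μ := μ) hγ (a + s)).comp s ((hasDerivAt_id s).const_add a)
      simpa [Function.comp_def] using h2
    have h3 : HasDerivAt (fun s : ℝ => JJ γ μ a + jj γ μ a * s + K / 2 * s ^ 2)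
        (jj γ μ a + K * s) s := by
      have h4 := (((hasDerivAt_id s).const_mul (jj γ μ a)).const_add (JJ γ μ a)).add
        (((hasDerivAt_id s).pow 2).const_mul (K / 2))
      refine h4.congr_deriv ?_
      simp
      ring
    exact h3.sub h1
  have h0 : 0 ≤ JJ γ μ a + jj γ μ a * δ + K / 2 * δ ^ 2 - JJ γ μ (a + δ) := by
    rcases le_total 0 δ with h | h
    · have hm : MonotoneOn (fun s : ℝ => JJ γ μ a + jj γ μ a * s + K / 2 * s ^ 2 - JJ γ μ (a + s))
          (Icc 0 δ) := by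
        refine monotoneOn_of_deriv_nonneg (convex_Icc 0 δ)
          (fun s _ => (hd s).continuousAt.continuousWithinAt)
          (fun s _ => (hd s).differentiableAt.differentiableWithinAt) ?_
        intro s hs
        rw [interior_Icc] at hs
        rw [(hd s).deriv]
        have := hL a (a + s) (by linarith [hs.1]) (by rw [abs_of_nonneg h]; linarith [hs.2])
        linarith
      have := hm (left_mem_Icc.2 h) (right_mem_Icc.2 h) h
      simpa using this
    · have hm : AntitoneOn (fun s : ℝ => JJ γ μ a + jj γ μ a * s + K / 2 * s ^ 2 - JJ γ μ (a + s))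
          (Icc δ 0) := by
        refine antitoneOn_of_deriv_nonpos (convex_Icc δ 0)
          (fun s _ => (hd s).continuousAt.continuousWithinAt)
          (fun s _ => (hd s).differentiableAt.differentiableWithinAt) ?_
        intro s hs
        rw [interior_Icc] at hs
        rw [(hd s).deriv]
        have := hL (a + s) a (by linarith [hs.2]) (by linarith [abs_nonneg δ])
        linarith
      have := hm (left_mem_Icc.2 h) (right_mem_Icc.2 h) h
      simpa using this
  have hK2 : 3 / 4 * δ ^ 2 * (√((max (a - μ) 0 + |δ|) / γ) / γ) = K / 2 * δ ^ 2 := by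
    rw [hK]
    ring
  rw [hK2]
  linarith

end Pool.Agent.H35.TC
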