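import Pool.Agent.H35.TC.Tau
import Pool.Agent.H35.TC.Del
import Pool.Agent.H35.TC.Tay
import Pool.Agent.H35.TC.BI
import Pool.Agent.H35.TC.Low

/-!
# Module Up: upper bound of the pressure integral for the translated clouds

`φ^t(x) = ∑_j ph_j (x - t R j) = V_{(1+t)R} - G τ_t ≤ V_{(1+t)R}` (`V_tau`). Outside the balls `B((1+t) R i, r)`: `φ^t ≤ Z/r ≤ μ` (`V_far`), so `JJ(φ^t) = 0`.
(a) `∫ JJ(φ^t) ≤ ∑_i ∫_{B((1+t)R_i, r)} JJ(φ^t) = ∑_i ∫_{B(R_i, r)} JJ(φ^t(x + t R_i)) dx` (translation by `t R_i`; `JJ ≥ 0`, `int_JJ`).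
(b) `φ^t(x + t R_i) = ∑_j ph_j(x + t (R_i - R_j)) = φ(x) + dlt t i x` (`phi_sum`; the term `j = i` does not move).
(c) `JJ_taylor` with `a = φ(x)`, `δ = dlt t i x`; `jj(φ) = ρ = pc_i` on `B(R_i, r)`; `∑_i ∫_{B_i} JJ(φ) ≤ ∫ JJ(φ)` (disjoint balls);
    for `x ∈ B(R_i, r)`, `x ≠ R_i`: `max(φ-μ) 0 ≤ V x ≤ Z/‖x - R_i‖` (the other nuclei are farther away: `V_far` with `d = ‖x - R_i‖`), and
    `|dlt t i x| ≤ |t| LL i ≤ Z/r ≤ Z/‖x - R_i‖`; so the error is `≤ 3/4 t² LL_i² √(2Z/(γ‖x-R_i‖))/γ`, integral `≤ 3/4 · 5.03 · √2 · t² LL_i² r² √(Z r/γ)/γ ≤ 6 (...)` (`int_ball_sqrt`).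
The hypothesis `ht2` holds for small `t`.
-/

set_option autoImplicit false

open MeasureTheory Set Filter Topology
open scoped ENNReal NNReal

namespace Pool.Agent.H35.TC

open Pool.Agent.H23.TF Pool.Agent.H50.TM

variable {γ μ r d ε : ℝ} {k : ℕ} {R : Fin k → E3} {z : Fin k → ℝ} {ρ : E3 → ℝ}

private theorem Ions.ph_meas (h : Ions γ μ R z ρ r d ε) (j : Fin k) : Measurable (ph R z r ρ j) := by
  unfold ph
  have h1 : Measurable (fun x : E3 => z j / ‖x - R j‖) := by fun_prop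
  exact h1.sub (measurable_G (h.pc_meas j))

private theorem Ions.dlt_meas (h : Ions γ μ R z ρ r d ε) (t : ℝ) (i : Fin k) : Measurable (dlt R z r ρ t i) := by
  unfold dlt
  refine Finset.measurable_sum _ fun j _ => ?_
  exact ((h.ph_meas j).comp (measurable_add_const _)).sub (h.ph_meas j)

private theorem pc_out {i : Fin k} {x : E3} (hx : ¬ ‖x - R i‖ < r) : pc R r ρ i x = 0 := by
  unfold pc
  rw [if_neg hx]

theorem Ions.dlt_int (h : Ions γ μ R z ρ r d ε) {t : ℝ} (ht : |t| ≤ ε) (i : Fin k) :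
    Integrable (fun x => pc R r ρ i x * dlt R z r ρ t i x) := by
  refine ((h.pc_dn i).int.norm.const_mul (|t| * LL R z r ρ i)).mono' ?_ (Eventually.of_forall fun x => ?_)
  · exact ((h.pc_meas i).mul (h.dlt_meas t i)).aestronglyMeasurable
  · rw [Real.norm_eq_abs, abs_mul, Real.norm_eq_abs, mul_comm]
    by_cases hx : ‖x - R i‖ < r
    · exact mul_le_mul_of_nonneg_right (h.dlt_le hx ht) (abs_nonneg _)
    · rw [pc_out hx]
      simp

/-- in the frame of ion `i` -/
private theorem Ions.frame (h : Ions γ μ R z ρ r d ε) (t : ℝ) (i : Fin k) (x : E3) :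
    V (fun i => (1 + t) • R i) z (x + t • R i) - G (tau R r ρ t) (x + t • R i) =
      phi R z ρ x + dlt R z r ρ t i x := by
  rw [h.V_tau, h.phi_sum]
  unfold dlt
  rw [Finset.sum_sub_distrib,
    ← Finset.add_sum_erase _ (fun j => ph R z r ρ j (x + t • R i - t • R j)) (Finset.mem_univ i),
    ← Finset.add_sum_erase _ (fun j => ph R z r ρ j x) (Finset.mem_univ i)]
  have e2 : ∀ j, x + t • R i - t • R j = x + t • (R i - R j) := fun j => by
    rw [smul_sub]
    abel
  simp only [e2, sub_self, smul_zero, add_zero]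
  ring

/-- the inequality at one point -/
private theorem Ions.pt (h : Ions γ μ R z ρ r d ε) {t : ℝ} (ht : |t| ≤ ε) {i : Fin k}
    (ht2 : |t| * LL R z r ρ i ≤ (∑ i, z i) / r) {x : E3} (hx : ‖x - R i‖ < r) (hxi : x ≠ R i) :
    JJ γ μ (phi R z ρ x + dlt R z r ρ t i x) ≤ JJ γ μ (phi R z ρ x) + pc R r ρ i x * dlt R z r ρ t i x
      + 3 / 4 * (t ^ 2 * LL R z r ρ i ^ 2) * (√(2 * (∑ i, z i) / γ) / γ) * √(1 / ‖x - R i‖) := by
  have hγ := h.hγ
  have hz : ∀ i, 0 ≤ z i := fun i => (h.hz i).le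
  have hZ : 0 ≤ ∑ i, z i := Finset.sum_nonneg fun i _ => hz i
  have hn : 0 < ‖x - R i‖ := norm_pos_iff.2 (sub_ne_zero.2 hxi)
  have h1 := JJ_taylor (μ := μ) hγ (phi R z ρ x) (dlt R z r ρ t i x)
  have hj : jj γ μ (phi R z ρ x) = pc R r ρ i x := by
    unfold pc phi
    rw [if_pos hx, h.htf.eq x]
  rw [hj] at h1
  have hδ := h.dlt_le hx ht
  have hV : V R z x ≤ (∑ i, z i) / ‖x - R i‖ := by
    refine V_far hz hn fun j => ?_
    by_contra hc
    rw [not_le] at hc
    have he := h.disj hx (hc.trans hx)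
    rw [he] at hc
    exact lt_irrefl _ hc
  have hG : 0 ≤ G ρ x := G_nonneg (Eventually.of_forall (h.htf.nonneg hγ)) x
  have hV0 : 0 ≤ V R z x := Finset.sum_nonneg fun j _ => div_nonneg (hz j) (norm_nonneg _)
  have hm : max (phi R z ρ x - μ) 0 ≤ (∑ i, z i) / ‖x - R i‖ := by
    refine max_le ?_ (hV0.trans hV)
    unfold phi
    linarith [h.hμ]
  have hd2 : |dlt R z r ρ t i x| ≤ (∑ i, z i) / ‖x - R i‖ :=
    hδ.trans (ht2.trans (div_le_div_of_nonneg_left hZ hn hx.le))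
  have hs : √((max (phi R z ρ x - μ) 0 + |dlt R z r ρ t i x|) / γ) ≤ √(2 * (∑ i, z i) / γ) * √(1 / ‖x - R i‖) := by
    rw [← Real.sqrt_mul (by positivity)]
    apply Real.sqrt_le_sqrt
    rw [show 2 * (∑ i, z i) / γ * (1 / ‖x - R i‖) = (2 * ((∑ i, z i) / ‖x - R i‖)) / γ by ring]
    exact div_le_div_of_nonneg_right (by linarith) hγ.le
  have hsq : dlt R z r ρ t i x ^ 2 ≤ t ^ 2 * LL R z r ρ i ^ 2 := by
    have h2 : |dlt R z r ρ t i x| ^ 2 ≤ (|t| * LL R z r ρ i) ^ 2 := pow_le_pow_left₀ (abs_nonneg _) hδ 2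
    rwa [sq_abs, mul_pow, sq_abs] at h2
  have he : 3 / 4 * dlt R z r ρ t i x ^ 2 * (√((max (phi R z ρ x - μ) 0 + |dlt R z r ρ t i x|) / γ) / γ) ≤
      3 / 4 * (t ^ 2 * LL R z r ρ i ^ 2) * (√(2 * (∑ i, z i) / γ) * √(1 / ‖x - R i‖) / γ) :=
    mul_le_mul (by linarith) (div_le_div_of_nonneg_right hs hγ.le) (by positivity) (by positivity)
  have e : 3 / 4 * (t ^ 2 * LL R z r ρ i ^ 2) * (√(2 * (∑ i, z i) / γ) / γ) * √(1 / ‖x - R i‖) =
      3 / 4 * (t ^ 2 * LL R z r ρ i ^ 2) * (√(2 * (∑ i, z i) / γ) * √(1 / ‖x - R i‖) / γ) := by ring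
  rw [e]
  linarith

/-- the contribution of ion `i` -/
private theorem Ions.ball_i (h : Ions γ μ R z ρ r d ε) {t : ℝ} (ht : |t| ≤ ε) {i : Fin k}
    (ht2 : |t| * LL R z r ρ i ≤ (∑ i, z i) / r) :
    ∫ x, (Metric.ball ((1 + t) • R i) r).indicator
        (fun x => JJ γ μ (V (fun i => (1 + t) • R i) z x - G (tau R r ρ t) x)) x ≤
      (∫ x, (Metric.ball (R i) r).indicator (fun x => JJ γ μ (phi R z ρ x)) x)
        + (∫ x, pc R r ρ i x * dlt R z r ρ t i x)
        + t ^ 2 * (6 * r ^ 2 * √((∑ i, z i) * r / γ) / γ * LL R z r ρ i ^ 2) := by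
  have hγ := h.hγ
  have hr := h.hr
  have hz : ∀ i, 0 ≤ z i := fun i => (h.hz i).le
  have hZ : 0 ≤ ∑ i, z i := Finset.sum_nonneg fun i _ => hz i
  set F : E3 → ℝ := fun x => JJ γ μ (V (fun i => (1 + t) • R i) z x - G (tau R r ρ t) x) with hF
  have hFi : Integrable F := int_JJ h.hγ h.hμ _ hz (h.tau_dn t)
  have e1 : ∫ x, (Metric.ball ((1 + t) • R i) r).indicator F x =
      ∫ x, (Metric.ball ((1 + t) • R i) r).indicator F (x + t • R i) :=
    (integral_add_right_eq_self _ _).symm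
  have e2 : ∀ x, (Metric.ball ((1 + t) • R i) r).indicator F (x + t • R i) =
      (Metric.ball (R i) r).indicator (fun x => F (x + t • R i)) x := by
    intro x
    have h3 : x + t • R i ∈ Metric.ball ((1 + t) • R i) r ↔ x ∈ Metric.ball (R i) r := by
      rw [Metric.mem_ball, Metric.mem_ball, dist_eq_norm, dist_eq_norm, add_smul, one_smul,
        add_sub_add_right_eq_sub]
    by_cases hx : x ∈ Metric.ball (R i) r
    · rw [indicator_of_mem (h3.2 hx), indicator_of_mem hx]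
    · rw [indicator_of_notMem (fun hc => hx (h3.1 hc)), indicator_of_notMem hx]
  have e3 : ∫ x, (Metric.ball ((1 + t) • R i) r).indicator F (x + t • R i) =
      ∫ x, (Metric.ball (R i) r).indicator (fun x => F (x + t • R i)) x :=
    integral_congr_ae (Eventually.of_forall e2)
  rw [e1, e3]
  have hi1 : Integrable ((Metric.ball (R i) r).indicator (fun x => F (x + t • R i))) :=
    (hFi.comp_add_right (t • R i)).indicator measurableSet_ball
  have hi2 : Integrable ((Metric.ball (R i) r).indicator (fun x => JJ γ μ (phi R z ρ x))) :=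
    (int_JJ h.hγ h.hμ R hz (h.htf.dn h.hγ)).indicator measurableSet_ball
  obtain ⟨hB1, hB2⟩ := int_ball_sqrt (R i) hr.le
  have hi3 : Integrable ((Metric.ball (R i) r).indicator (fun x => √(1 / ‖x - R i‖))) :=
    (integrable_indicator_iff measurableSet_ball).2 hB1
  have hi4 := h.dlt_int ht i
  set K : ℝ := 3 / 4 * (t ^ 2 * LL R z r ρ i ^ 2) * (√(2 * (∑ i, z i) / γ) / γ) with hK
  have hK0 : 0 ≤ K := by positivity
  have h5 : ∫ x, (Metric.ball (R i) r).indicator (fun x => F (x + t • R i)) x ≤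
      ∫ x, ((Metric.ball (R i) r).indicator (fun x => JJ γ μ (phi R z ρ x)) x + pc R r ρ i x * dlt R z r ρ t i x
        + K * (Metric.ball (R i) r).indicator (fun x => √(1 / ‖x - R i‖)) x) := by
    refine integral_mono_ae hi1 ((hi2.add hi4).add (hi3.const_mul K)) ?_
    have hne : ∀ᵐ x : E3, x ≠ R i := by
      rw [ae_iff]
      simp
    filter_upwards [hne] with x hx
    by_cases hb : x ∈ Metric.ball (R i) r
    · simp only [indicator_of_mem hb]
      have h6 := h.pt ht ht2 (by rwa [Metric.mem_ball, dist_eq_norm] at hb) hx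
      rw [hF]
      simp only
      rw [h.frame]
      exact h6
    · simp only [indicator_of_notMem hb]
      rw [pc_out (fun hc => hb (by rwa [Metric.mem_ball, dist_eq_norm]))]
      simp
  have h6 : ∫ x, ((Metric.ball (R i) r).indicator (fun x => JJ γ μ (phi R z ρ x)) x + pc R r ρ i x * dlt R z r ρ t i x
        + K * (Metric.ball (R i) r).indicator (fun x => √(1 / ‖x - R i‖)) x) =
      (∫ x, (Metric.ball (R i) r).indicator (fun x => JJ γ μ (phi R z ρ x)) x)
        + (∫ x, pc R r ρ i x * dlt R z r ρ t i x)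
        + K * ∫ x, (Metric.ball (R i) r).indicator (fun x => √(1 / ‖x - R i‖)) x := by
    have hi5 : Integrable (fun x => (Metric.ball (R i) r).indicator (fun x => JJ γ μ (phi R z ρ x)) x
        + pc R r ρ i x * dlt R z r ρ t i x) := hi2.add hi4
    rw [integral_add hi5 (hi3.const_mul K), integral_add hi2 hi4, integral_const_mul]
  have h7 : K * ∫ x, (Metric.ball (R i) r).indicator (fun x => √(1 / ‖x - R i‖)) x ≤
      t ^ 2 * (6 * r ^ 2 * √((∑ i, z i) * r / γ) / γ * LL R z r ρ i ^ 2) := by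
    rw [integral_indicator measurableSet_ball]
    have h8 : √(2 * (∑ i, z i) / γ) * √r = √2 * √((∑ i, z i) * r / γ) := by
      rw [← Real.sqrt_mul (by positivity), ← Real.sqrt_mul (by norm_num)]
      congr 1
      ring
    have h9 : √2 ≤ 1.5 := by
      rw [Real.sqrt_le_left (by norm_num)]
      norm_num
    have h10 : 0 ≤ t ^ 2 * LL R z r ρ i ^ 2 * (r ^ 2 * √((∑ i, z i) * r / γ) / γ) := by positivity
    calc K * ∫ x in Metric.ball (R i) r, √(1 / ‖x - R i‖) ≤ K * (5.03 * (r ^ 2 * √r)) :=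
          mul_le_mul_of_nonneg_left hB2 hK0
      _ = 3 / 4 * 5.03 * (t ^ 2 * LL R z r ρ i ^ 2) * (r ^ 2 / γ) * (√(2 * (∑ i, z i) / γ) * √r) := by
          rw [hK]
          ring
      _ = (3 / 4 * 5.03 * √2) * (t ^ 2 * LL R z r ρ i ^ 2 * (r ^ 2 * √((∑ i, z i) * r / γ) / γ)) := by
          rw [h8]
          ring
      _ ≤ 6 * (t ^ 2 * LL R z r ρ i ^ 2 * (r ^ 2 * √((∑ i, z i) * r / γ) / γ)) := by
          refine mul_le_mul_of_nonneg_right ?_ h10
          nlinarith [h9]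
      _ = _ := by ring
  linarith

private theorem Ions.sum_ind (h : Ions γ μ R z ρ r d ε) {f : E3 → ℝ} (hf : ∀ x, 0 ≤ f x) (x : E3) :
    ∑ i, (Metric.ball (R i) r).indicator f x ≤ f x := by
  by_cases hx : ∃ i, x ∈ Metric.ball (R i) r
  · obtain ⟨i, hi⟩ := hx
    rw [Finset.sum_eq_single i, indicator_of_mem hi]
    · intro j _ hj
      refine indicator_of_notMem (fun hc => hj ?_) _
      rw [Metric.mem_ball, dist_eq_norm] at hi hc
      exact h.disj hc hi
    · intro hc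
      exact absurd (Finset.mem_univ i) hc
  · rw [not_exists] at hx
    rw [Finset.sum_eq_zero fun i _ => indicator_of_notMem (hx i) _]
    exact hf x

theorem Ions.up (h : Ions γ μ R z ρ r d ε) {t : ℝ} (ht : |t| ≤ ε) (ht2 : ∀ i, |t| * LL R z r ρ i ≤ (∑ i, z i) / r) :
    ∫ x, JJ γ μ (V (fun i => (1 + t) • R i) z x - G (tau R r ρ t) x) ≤
      (∫ x, JJ γ μ (phi R z ρ x)) + (∑ i, ∫ x, pc R r ρ i x * dlt R z r ρ t i x) + t ^ 2 * EE γ R z r ρ := by
  have hγ := h.hγ
  have hr := h.hr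
  have hz : ∀ i, 0 ≤ z i := fun i => (h.hz i).le
  set F : E3 → ℝ := fun x => JJ γ μ (V (fun i => (1 + t) • R i) z x - G (tau R r ρ t) x) with hF
  have hFi : Integrable F := int_JJ h.hγ h.hμ _ hz (h.tau_dn t)
  have hF0 : ∀ x, 0 ≤ F x := fun x => JJ_nonneg h.hγ _
  have hout : ∀ x, (∀ i, x ∉ Metric.ball ((1 + t) • R i) r) → F x = 0 := by
    intro x hx
    have h1 : V (fun i => (1 + t) • R i) z x ≤ (∑ i, z i) / r := V_far hz hr fun i => by
      have h4 := hx i
      rw [Metric.mem_ball, dist_eq_norm, not_lt] at h4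
      exact h4
    have h2 : (∑ i, z i) / r ≤ μ := by
      rw [div_le_iff₀ hr]
      exact h.hrμ
    have h3 : 0 ≤ G (tau R r ρ t) x := G_nonneg (Eventually.of_forall (h.tau_dn t).nonneg) x
    exact JJ_of_le (by linarith)
  have hle : ∀ x, F x ≤ ∑ i, (Metric.ball ((1 + t) • R i) r).indicator F x := by
    intro x
    by_cases hx : ∀ i, x ∉ Metric.ball ((1 + t) • R i) r
    · rw [hout x hx]
      exact Finset.sum_nonneg fun i _ => indicator_nonneg (fun y _ => hF0 y) x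
    · rw [not_forall] at hx
      obtain ⟨i, hi⟩ := hx
      rw [not_not] at hi
      calc F x = (Metric.ball ((1 + t) • R i) r).indicator F x := (indicator_of_mem hi _).symm
        _ ≤ _ := Finset.single_le_sum (f := fun i => (Metric.ball ((1 + t) • R i) r).indicator F x)
            (fun i _ => indicator_nonneg (fun y _ => hF0 y) x) (Finset.mem_univ i)
  have hint : ∀ i, Integrable ((Metric.ball ((1 + t) • R i) r).indicator F) :=
    fun i => hFi.indicator measurableSet_ball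
  have hPi : Integrable (fun x => JJ γ μ (phi R z ρ x)) := int_JJ h.hγ h.hμ R hz (h.htf.dn h.hγ)
  have hsum : (∑ i, ∫ x, (Metric.ball (R i) r).indicator (fun x => JJ γ μ (phi R z ρ x)) x) ≤
      ∫ x, JJ γ μ (phi R z ρ x) := by
    rw [← integral_finset_sum _ fun i _ => hPi.indicator measurableSet_ball]
    exact integral_mono (integrable_finset_sum _ fun i _ => hPi.indicator measurableSet_ball) hPi
      fun x => h.sum_ind (fun x => JJ_nonneg hγ _) x
  calc ∫ x, F x ≤ ∫ x, ∑ i, (Metric.ball ((1 + t) • R i) r).indicator F x :=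
        integral_mono hFi (integrable_finset_sum _ fun i _ => hint i) hle
    _ = ∑ i, ∫ x, (Metric.ball ((1 + t) • R i) r).indicator F x := integral_finset_sum _ fun i _ => hint i
    _ ≤ ∑ i, ((∫ x, (Metric.ball (R i) r).indicator (fun x => JJ γ μ (phi R z ρ x)) x)
        + (∫ x, pc R r ρ i x * dlt R z r ρ t i x)
        + t ^ 2 * (6 * r ^ 2 * √((∑ i, z i) * r / γ) / γ * LL R z r ρ i ^ 2)) :=
        Finset.sum_le_sum fun i _ => h.ball_i ht (ht2 i)
    _ = (∑ i, ∫ x, (Metric.ball (R i) r).indicator (fun x => JJ γ μ (phi R z ρ x)) x)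
        + (∑ i, ∫ x, pc R r ρ i x * dlt R z r ρ t i x) + t ^ 2 * EE γ R z r ρ := by
        unfold EE
        rw [Finset.sum_add_distrib, Finset.sum_add_distrib, ← Finset.mul_sum, ← Finset.mul_sum]
    _ ≤ _ := by linarith

end Pool.Agent.H35.TC
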